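import Mathlib

/-!
Counting a finite family of integer sequences by deviations from canonical members.
-/

open Finset

namespace Pool.Agent.Helper79.LC

section tree

variable {ι : Type*} [DecidableEq ι]

/-- members of the family with the same first terms -/
noncomputable def node (F : Finset ι) (a : ι → ℕ → ℤ) (f : ι) (k : ℕ) : Finset ι := by
  classical
  exact F.filter fun g => ∀ j, 1 ≤ j → j < k → a g j = a f j

omit [DecidableEq ι] in
lemma mem_node {F : Finset ι} {a : ι → ℕ → ℤ} {f : ι} {k : ℕ} {g : ι} :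
    g ∈ node F a f k ↔ g ∈ F ∧ ∀ j, 1 ≤ j → j < k → a g j = a f j := by
  simp [node]

/-- canonical member -/
noncomputable def can (V : ι → ℕ → ℝ) (N : Finset ι) (k : ℕ) (h : N.Nonempty) : ι :=
  (exists_min_image N (fun g => V g k) h).choose

omit [DecidableEq ι] in
lemma can_mem (V : ι → ℕ → ℝ) (N : Finset ι) (k : ℕ) (h : N.Nonempty) : can V N k h ∈ N :=
  (exists_min_image N (fun g => V g k) h).choose_spec.1

omit [DecidableEq ι] in
lemma can_min (V : ι → ℕ → ℝ) (N : Finset ι) (k : ℕ) (h : N.Nonempty) :
    ∀ g ∈ N, V (can V N k h) k ≤ V g k :=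
  (exists_min_image N (fun g => V g k) h).choose_spec.2

theorem tree_card (F : Finset ι) (a : ι → ℕ → ℤ) (V : ι → ℕ → ℝ) (n : ℕ)
    (inj : ∀ f ∈ F, ∀ g ∈ F, (∀ k, 1 ≤ k → k ≤ n → a f k = a g k) → f = g)
    (D : Finset (ℕ → ℤ))
    (hD : ∀ f ∈ F, ∀ d : ℕ → ℤ, (∀ k, (k = 0 ∨ n < k) → d k = 0) →
      (∀ k, 1 ≤ k → k ≤ n → ∃ g ∈ F, (∀ j, 1 ≤ j → j < k → a g j = a f j) ∧ V g k ≤ V f k ∧
        d k = a f k - a g k) → d ∈ D) : #F ≤ #D := by
  classical
  have hne : ∀ f ∈ F, ∀ k, (node F a f k).Nonempty := fun f hf k =>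
    ⟨f, mem_node.mpr ⟨hf, fun _ _ _ => rfl⟩⟩
  set d : ι → ℕ → ℤ := fun f k =>
    if h : f ∈ F ∧ 1 ≤ k ∧ k ≤ n then a f k - a (can V (node F a f k) k (hne f h.1 k)) k else 0
    with hd
  refine card_le_card_of_injOn d ?_ ?_
  · intro f hf
    refine hD f hf (d f) ?_ ?_
    · intro k hk
      simp only [hd]
      rw [dif_neg]
      omega
    · intro k h1 h2
      have hm := can_mem V (node F a f k) k (hne f hf k)
      refine ⟨can V (node F a f k) k (hne f hf k), (mem_node.mp hm).1, (mem_node.mp hm).2, ?_, ?_⟩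
      · exact can_min V _ k _ f (mem_node.mpr ⟨hf, fun _ _ _ => rfl⟩)
      · simp only [hd]
        rw [dif_pos ⟨hf, h1, h2⟩]
  · intro f hf g hg hfg
    refine inj f hf g hg ?_
    intro k
    induction k using Nat.strong_induction_on with
    | _ k ih =>
      intro h1 h2
      have hnode : node F a f k = node F a g k := by
        ext x
        rw [mem_node, mem_node]
        constructor
        · rintro ⟨hx, h⟩
          exact ⟨hx, fun j hj1 hj2 => (h j hj1 hj2).trans (ih j hj2 hj1 (by omega))⟩
        · rintro ⟨hx, h⟩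
          exact ⟨hx, fun j hj1 hj2 => (h j hj1 hj2).trans (ih j hj2 hj1 (by omega)).symm⟩
      have h3 := congrFun hfg k
      simp only [hd] at h3
      rw [dif_pos ⟨hf, h1, h2⟩, dif_pos ⟨hg, h1, h2⟩] at h3
      have h4 : can V (node F a f k) k (hne f hf k) = can V (node F a g k) k (hne g hg k) := by
        congr 1
      rw [h4] at h3
      linarith

end tree

noncomputable local instance decEqSeq : DecidableEq (ℕ → ℤ) := Classical.decEq _

/-- sequences supported on `[1, K]` with bounded terms -/
noncomputable def GG (b : ℕ → ℕ) : ℕ → Finset (ℕ → ℤ)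
  | 0 => {0}
  | K + 1 => ((GG b K) ×ˢ (Icc (-(b (K + 1) : ℤ)) (b (K + 1)))).image
      fun p => Function.update p.1 (K + 1) p.2

lemma card_GG (b : ℕ → ℕ) (K : ℕ) : #(GG b K) ≤ ∏ k ∈ range K, (2 * b (k + 1) + 1) := by
  induction K with
  | zero => simp [GG]
  | succ K ih =>
    rw [GG, prod_range_succ]
    refine card_image_le.trans ?_
    rw [card_product, Int.card_Icc]
    have : ((b (K + 1) : ℤ) + 1 - -(b (K + 1) : ℤ)).toNat = 2 * b (K + 1) + 1 := by omega
    rw [this]
    gcongr

lemma mem_GG (b : ℕ → ℕ) (K : ℕ) (d : ℕ → ℤ) (h0 : ∀ k, (k = 0 ∨ K < k) → d k = 0)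
    (hb : ∀ k, 1 ≤ k → k ≤ K → |d k| ≤ b k) : d ∈ GG b K := by
  induction K generalizing d with
  | zero =>
    rw [GG, mem_singleton]
    ext k
    exact h0 k (by omega)
  | succ K ih =>
    rw [GG, mem_image]
    refine ⟨(Function.update d (K + 1) 0, d (K + 1)), ?_, ?_⟩
    · rw [mem_product]
      constructor
      · apply ih
        · intro k hk
          by_cases h : k = K + 1
          · subst h; simp
          · simp only [Function.update_apply, if_neg h]
            exact h0 k (by omega)
        · intro k h1 h2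
          have : k ≠ K + 1 := by omega
          simp only [Function.update_apply, if_neg this]
          exact hb k h1 (by omega)
      · rw [mem_Icc]
        exact abs_le.mp (hb (K + 1) (by omega) le_rfl)
    · simp

/-- sequences on `[0, n]` bounded by `B` with at most `β` nonzero terms -/
noncomputable def SP (n B : ℕ) : ℕ → Finset (ℕ → ℤ)
  | 0 => {0}
  | β + 1 => ((SP n B β) ×ˢ ((range (n + 1)) ×ˢ (Icc (-(B : ℤ)) B))).image
      fun p => Function.update p.1 p.2.1 p.2.2

lemma card_SP (n B β : ℕ) : #(SP n B β) ≤ ((n + 1) * (2 * B + 1)) ^ β := by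
  induction β with
  | zero => simp [SP]
  | succ β ih =>
    rw [SP, pow_succ]
    refine card_image_le.trans ?_
    rw [card_product, card_product, card_range, Int.card_Icc]
    have : ((B : ℤ) + 1 - -(B : ℤ)).toNat = 2 * B + 1 := by omega
    rw [this]
    gcongr

lemma zero_mem_SP (n B β : ℕ) : (0 : ℕ → ℤ) ∈ SP n B β := by
  induction β with
  | zero => simp [SP]
  | succ β ih =>
    rw [SP, mem_image]
    refine ⟨(0, 0, 0), ?_, ?_⟩
    · simp [ih]
    · ext k; simp [Function.update_apply]

lemma mem_SP (n B β : ℕ) (d : ℕ → ℤ) (T : Finset ℕ) (hT : ∀ k ∈ T, k ≤ n) (hc : #T ≤ β)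
    (h0 : ∀ k, k ∉ T → d k = 0) (hB : ∀ k ∈ T, |d k| ≤ B) : d ∈ SP n B β := by
  induction β generalizing d T with
  | zero =>
    have : T = ∅ := card_eq_zero.mp (by omega)
    have : d = 0 := by
      ext k
      apply h0
      simp [this]
    rw [this]
    exact zero_mem_SP n B 0
  | succ β ih =>
    rcases T.eq_empty_or_nonempty with hT0 | ⟨k, hk⟩
    · have : d = 0 := by
        ext k
        apply h0
        simp [hT0]
      rw [this]
      exact zero_mem_SP n B _
    · rw [SP, mem_image]
      refine ⟨(Function.update d k 0, k, d k), ?_, ?_⟩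
      · rw [mem_product, mem_product]
        refine ⟨ih (Function.update d k 0) (T.erase k) ?_ ?_ ?_ ?_, ?_, ?_⟩
        · intro j hj; exact hT j (mem_of_mem_erase hj)
        · rw [card_erase_of_mem hk]; omega
        · intro j hj
          by_cases h : j = k
          · subst h; simp
          · simp only [Function.update_apply, if_neg h]
            apply h0
            intro hjT
            exact hj (mem_erase.mpr ⟨h, hjT⟩)
        · intro j hj
          have : j ≠ k := ne_of_mem_erase hj
          simp only [Function.update_apply, if_neg this]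
          exact hB j (mem_of_mem_erase hj)
        · simp only [mem_range]
          have := hT k hk
          omega
        · simp only [mem_Icc]
          exact abs_le.mp (hB k hk)
      · simp

/-- Deviations bounded by `b k` up to `K`, and sparse afterwards. -/
theorem tree_count {ι : Type*} [DecidableEq ι] (F : Finset ι) (a : ι → ℕ → ℤ) (V : ι → ℕ → ℝ)
    (n K B β : ℕ) (b : ℕ → ℕ)
    (inj : ∀ f ∈ F, ∀ g ∈ F, (∀ k, 1 ≤ k → k ≤ n → a f k = a g k) → f = g)
    (h1 : ∀ f ∈ F, ∀ g ∈ F, ∀ k, 1 ≤ k → k ≤ n → k ≤ K → (∀ j, 1 ≤ j → j < k → a g j = a f j) →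
      V g k ≤ V f k → |a f k - a g k| ≤ b k)
    (h2 : ∀ f ∈ F, ∀ g ∈ F, ∀ k, 1 ≤ k → k ≤ n → K < k → (∀ j, 1 ≤ j → j < k → a g j = a f j) →
      V g k ≤ V f k → |a f k - a g k| ≤ B)
    (bad : ι → Finset ℕ) (hbad : ∀ f ∈ F, #(bad f) ≤ β)
    (h3 : ∀ f ∈ F, ∀ g ∈ F, ∀ k, 1 ≤ k → k ≤ n → K < k → (∀ j, 1 ≤ j → j < k → a g j = a f j) →
      V g k ≤ V f k → k ∉ bad f → a f k = a g k) :
    #F ≤ (∏ k ∈ range K, (2 * b (k + 1) + 1)) * ((n + 1) * (2 * B + 1)) ^ β := by
  have key := tree_card F a V n inj (((GG b K) ×ˢ (SP n B β)).image fun p => p.1 + p.2) ?_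
  · refine key.trans (card_image_le.trans ?_)
    rw [card_product]
    exact Nat.mul_le_mul (card_GG b K) (card_SP n B β)
  · intro f hf d hd0 hd
    rw [mem_image]
    refine ⟨(fun k => if k ≤ K then d k else 0, fun k => if k ≤ K then 0 else d k), ?_, ?_⟩
    · rw [mem_product]
      constructor
      · apply mem_GG
        · intro k hk
          simp only []
          split_ifs with h
          · rcases hk with hk | hk
            · exact hd0 k (Or.inl hk)
            · omega
          · rfl
        · intro k hk1 hk2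
          simp only [if_pos hk2]
          by_cases hkn : k ≤ n
          · obtain ⟨g, hg, hj, hV, he⟩ := hd k hk1 hkn
            rw [he]
            exact h1 f hf g hg k hk1 hkn hk2 hj hV
          · rw [hd0 k (Or.inr (by omega))]
            simp
      · refine mem_SP n B β _ ((bad f).filter fun k => 1 ≤ k ∧ k ≤ n ∧ K < k) ?_ ?_ ?_ ?_
        · intro k hk
          exact (mem_filter.mp hk).2.2.1
        · exact (card_filter_le _ _).trans (hbad f hf)
        · intro k hk
          simp only []
          split_ifs with h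
          · rfl
          · by_cases hr : k = 0 ∨ n < k
            · exact hd0 k hr
            · obtain ⟨g, hg, hj, hV, he⟩ := hd k (by omega) (by omega)
              rw [he, h3 f hf g hg k (by omega) (by omega) (by omega) hj hV ?_, sub_self]
              intro hb
              apply hk
              rw [mem_filter]
              exact ⟨hb, by omega, by omega, by omega⟩
        · intro k hk
          obtain ⟨_, hk1, hk2, hk3⟩ := mem_filter.mp hk
          simp only [if_neg (not_le.mpr hk3)]
          obtain ⟨g, hg, hj, hV, he⟩ := hd k hk1 hk2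
          rw [he]
          exact h2 f hf g hg k hk1 hk2 hk3 hj hV
    · ext k
      simp only [Pi.add_apply]
      split_ifs <;> simp

end Pool.Agent.Helper79.LC
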