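import Pool.Agent.Helper79.LC.Res
import Pool.Agent.Helper79.LC.Tree

/-!
Energy bounds for monic irreducible integer polynomials.
-/

open Finset

namespace Pool.Agent.Helper79.LC

lemma re_self (S : Finset ℂ) (k : ℕ) :
    (ww S.val k * starRingEnd ℂ (ww S.val k)).re = wn S.val k ^ 2 := by
  rw [Complex.mul_conj, Complex.ofReal_re, wn_eq, Complex.normSq_eq_norm_sq]

lemma log_r {r : ℝ} (hr0 : 0 < r) (hr1 : r < 1) : Real.log (2 / (1 + r)) ≤ 1 - r := by
  have h1 := Real.log_le_sub_one_of_pos (show 0 < 2 / (1 + r) by positivity)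
  refine h1.trans ?_
  rw [sub_le_iff_le_add, div_le_iff₀ (by linarith)]
  nlinarith

/-- finite sums of the energy -/
lemma sums_EE {r : ℝ} (hr0 : 0 < r) (hr1 : r < 1) (S : Finset ℂ) (k : ℕ) :
    ∑ j ∈ range (k + 1), r ^ j / j * wn S.val j ^ 2 ≤ EE r S S := by
  have h := hasSum_EE hr0 hr1 S S
  have h1 : ∀ j, 0 ≤ r ^ j / j * (ww S.val j * starRingEnd ℂ (ww S.val j)).re := by
    intro j; rw [re_self]; positivity
  have h2 := sum_le_hasSum (range (k + 1)) (fun j _ => h1 j) h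
  simpa only [re_self] using h2

lemma AA_le_EE {r : ℝ} (hr0 : 0 < r) (hr1 : r < 1) (S : Finset ℂ) (n : ℕ)
    (hr : 1 / 2 ≤ r ^ n) {k : ℕ} (hk : k ≤ n) :
    AA S.val k ≤ 2 * ∑ j ∈ range (k + 1), r ^ j / j * wn S.val j ^ 2 := by
  rw [AA, mul_sum]
  refine sum_le_sum fun j hj => ?_
  rw [mem_range] at hj
  have h1 : r ^ n ≤ r ^ j := pow_le_pow_of_le_one hr0.le hr1.le (by omega)
  have h2 : 2 * (r ^ j / j * wn S.val j ^ 2) = (2 * r ^ j) * (wn S.val j ^ 2 / j) := by ring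
  rw [h2]
  have h3 : 0 ≤ wn S.val j ^ 2 / j := by positivity
  nlinarith

lemma pow_ge {x : ℝ} (n : ℕ) (hx : x ≤ 1) (hn : n * x ≤ 1 / 2) : 1 / 2 ≤ (1 - x) ^ n := by
  have := one_add_mul_le_pow (show (-2 : ℝ) ≤ -x by linarith) n
  have h2 : (1 : ℝ) + -x = 1 - x := by ring
  rw [h2] at this
  linarith

variable {f g : Polynomial ℤ}

lemma EE_self_poly (hm : f.Monic) (hf : Irreducible f) {r : ℝ} (hr0 : 0 < r) (hr1 : r < 1) :
    EE r (rt f) (rt f) ≤ - f.natDegree * Real.log (1 - r) + f.natDegree ^ 2 * (1 - r)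
      + 2 * f.natDegree * Real.log (MM f) := by
  have h1 := EE_self hr0 hr1 (disc_ge hm hf)
  rw [card_rt hm hf, LM_eq hm hf] at h1
  refine h1.trans ?_
  have h2 : (f.natDegree : ℝ) * f.natDegree * Real.log (2 / (1 + r)) ≤
      f.natDegree ^ 2 * (1 - r) := by
    rw [← sq]
    gcongr
    exact log_r hr0 hr1
  linarith

lemma EE_ne_poly (hm : f.Monic) (hf : Irreducible f) (hm' : g.Monic) (hg : Irreducible g)
    (hne : f ≠ g) (hd : g.natDegree = f.natDegree) {r : ℝ} (hr0 : 0 < r) (hr1 : r < 1) :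
    EE r (rt f) (rt g) ≤ f.natDegree ^ 2 * (1 - r)
      + f.natDegree * (Real.log (MM f) + Real.log (MM g)) := by
  have h1 := EE_disjoint hr0 hr1 (rt_ne hm hf hm' hg hne) (res_ge hm hf hm' hg hne)
  rw [card_rt hm hf, card_rt hm' hg, LM_eq hm hf, LM_eq hm' hg, hd] at h1
  refine h1.trans ?_
  have h2 : (f.natDegree : ℝ) * f.natDegree * Real.log (2 / (1 + r)) ≤
      f.natDegree ^ 2 * (1 - r) := by
    rw [← sq]
    gcongr
    exact log_r hr0 hr1
  linarith

lemma AA_poly (hm : f.Monic) (hf : Irreducible f) (hn : 2 ≤ f.natDegree) :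
    AA (rt f).val f.natDegree ≤
      2 * f.natDegree * (Real.log f.natDegree + 2 * Real.log (MM f) + 2) := by
  set n := f.natDegree with hnn
  have hn0 : (0 : ℝ) < n := by positivity
  have hn2 : (2 : ℝ) ≤ n := by exact_mod_cast hn
  have hx : (0 : ℝ) < 1 / (2 * n) := by positivity
  have hx1 : (1 : ℝ) / (2 * n) ≤ 1 / 4 := by
    rw [div_le_div_iff₀ (by positivity) (by norm_num)]; linarith
  set r : ℝ := 1 - 1 / (2 * n) with hr
  have hr0 : 0 < r := by rw [hr]; linarith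
  have hr1 : r < 1 := by rw [hr]; linarith
  have hrn : 1 / 2 ≤ r ^ n := by
    apply pow_ge n (by linarith)
    apply le_of_eq; field_simp
  have h1 := AA_le_EE hr0 hr1 (rt f) n hrn le_rfl
  have h2 := sums_EE hr0 hr1 (rt f) n
  have h3 := EE_self_poly hm hf hr0 hr1
  rw [← hnn] at h3
  have h4 : 1 - r = 1 / (2 * n) := by rw [hr]; ring
  rw [h4] at h3
  have h5 : Real.log (1 / (2 * n)) = - (Real.log 2 + Real.log n) := by
    rw [one_div, Real.log_inv, Real.log_mul (by norm_num) hn0.ne']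
  have h6 : (n : ℝ) ^ 2 * (1 / (2 * n)) = n / 2 := by field_simp
  rw [h5, h6] at h3
  have h7 : Real.log 2 < 0.7 := lt_trans Real.log_two_lt_d9 (by norm_num)
  nlinarith

end Pool.Agent.Helper79.LC
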