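import Pool.Agent.Helper79.LC.PS

/-!
The branching identity: if two products `∏ (1 - α x)` agree up to `x^(k-1)`, the difference of the
coefficients of `x^k` is controlled by the reflected power sums.
-/

open PowerSeries Finset

namespace Pool.Agent.Helper79.LC

/-- the operator `x d/dx` -/
noncomputable def th (F : ℂ⟦X⟧) : ℂ⟦X⟧ := X * d⁄dX ℂ F

lemma coeff_th (k : ℕ) (F : ℂ⟦X⟧) : coeff k (th F) = k * coeff k F := by
  cases k with
  | zero => simp [th]
  | succ k =>
    rw [th, coeff_succ_X_mul, coeff_derivative]
    push_cast; ring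

lemma th_mul (F G : ℂ⟦X⟧) : th (F * G) = th F * G + F * th G := by
  simp only [th, Derivation.leibniz, smul_eq_mul]
  ring

/-- series of power sums -/
noncomputable def PW (m : Multiset ℂ) : ℂ⟦X⟧ :=
  PowerSeries.mk fun k => if k = 0 then 0 else (m.map fun a => a ^ k).sum

/-- product of `1 - a x` -/
noncomputable def HH (m : Multiset ℂ) : ℂ⟦X⟧ := (m.map fun a => 1 - C a * X).prod

lemma HH_cons (a : ℂ) (m : Multiset ℂ) : HH (a ::ₘ m) = (1 - C a * X) * HH m := by simp [HH]

lemma PW_cons (a : ℂ) (m : Multiset ℂ) : PW (a ::ₘ m) = C a * X * geo a + PW m := by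
  ext k
  rw [map_add, PW, PW, coeff_mk, coeff_mk]
  cases k with
  | zero => simp [mul_assoc]
  | succ k =>
    rw [mul_assoc, coeff_C_mul, coeff_succ_X_mul, coeff_geo]
    simp [pow_succ, mul_comm]

lemma th_HH (m : Multiset ℂ) : th (HH m) = - (PW m * HH m) := by
  induction m using Multiset.induction_on with
  | empty =>
    have h1 : PW 0 = 0 := by ext k; simp [PW]
    have h2 : HH 0 = 1 := by simp [HH]
    rw [h1, h2]
    ext k
    rw [coeff_th, coeff_one]
    by_cases h : k = 0 <;> simp [h]
  | cons a m ih =>
    have h1 : th (1 - C a * X) = - (C a * X) := by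
      ext k
      rw [coeff_th, map_sub, map_neg, coeff_C_mul, coeff_one, coeff_X]
      by_cases h0 : k = 0
      · simp [h0]
      · by_cases h1 : k = 1 <;> simp [h0, h1]
    have h2 := lin_mul_geo a
    rw [HH_cons, th_mul, ih, h1, PW_cons]
    linear_combination (C a * X * HH m) * h2

lemma constantCoeff_HH (m : Multiset ℂ) : coeff 0 (HH m) = 1 := by
  induction m using Multiset.induction_on with
  | empty => simp [HH]
  | cons a m ih => rw [HH_cons, coeff_zero_lin, ih]

lemma coeff_zero_BQ (m : Multiset ℂ) : coeff 0 (BQ m) = 1 := by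
  induction m using Multiset.induction_on with
  | empty => simp [BQ]
  | cons a m ih =>
    rw [BQ_cons, bl, mul_assoc, coeff_zero_lin]
    have : coeff 0 (geo (starRingEnd ℂ a)⁻¹ * BQ m)
        = coeff 0 (geo (starRingEnd ℂ a)⁻¹) * coeff 0 (BQ m) := by
      simp [coeff_zero_eq_constantCoeff]
    rw [this, ih, coeff_geo]
    simp

/-- reflection of the numbers outside the unit disc -/
noncomputable def refl (a : ℂ) : ℂ := if 1 < ‖a‖ then (starRingEnd ℂ a)⁻¹ else a

/-- the numbers outside the closed unit disc -/
noncomputable def out (m : Multiset ℂ) : Multiset ℂ := m.filter fun a => 1 < ‖a‖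

lemma HH_eq (m : Multiset ℂ) : HH m = BQ (out m) * HH (m.map refl) := by
  induction m using Multiset.induction_on with
  | empty => simp [HH, BQ, out]
  | cons a m ih =>
    rw [HH_cons, Multiset.map_cons, HH_cons, ih]
    by_cases h : 1 < ‖a‖
    · have h1 : out (a ::ₘ m) = a ::ₘ out m := by simp [out, h]
      have h2 : refl a = (starRingEnd ℂ a)⁻¹ := by simp [refl, h]
      rw [h1, BQ_cons, h2, bl]
      linear_combination (-(1 - C a * X) * BQ (out m) * HH (m.map refl)) *
        lin_mul_geo (starRingEnd ℂ a)⁻¹
    · have h1 : out (a ::ₘ m) = out m := by simp [out, h]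
      have h2 : refl a = a := by simp [refl, h]
      rw [h1, h2]
      ring

/-- The branching identity. -/
theorem branch (m m' : Multiset ℂ) (k : ℕ)
    (h : ∀ j < k, coeff j (HH m) = coeff j (HH m')) :
    (k : ℂ) * (coeff k (HH m) - coeff k (HH m')) =
      ∑ p ∈ antidiagonal k, ((p.1 : ℂ) - p.2) * (coeff p.1 (BQ (out m)) * coeff p.2 (BQ (out m')))
      - ∑ p ∈ antidiagonal k, coeff p.1 (BQ (out m + out m')) *
          coeff p.2 (PW (m.map refl) - PW (m'.map refl)) := by
  set P := HH m with hP
  set P' := HH m' with hP'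
  set Q := BQ (out m) with hQ
  set Q' := BQ (out m') with hQ'
  set H := HH (m.map refl) with hH
  set H' := HH (m'.map refl) with hH'
  set W := PW (m.map refl) with hW
  set W' := PW (m'.map refl) with hW'
  have e1 : P = Q * H := HH_eq m
  have e2 : P' = Q' * H' := HH_eq m'
  have e3 : th H = - (W * H) := th_HH _
  have e4 : th H' = - (W' * H') := th_HH _
  set R := th Q * Q' - Q * th Q' - Q * Q' * (W - W') with hR
  set G := th P * P' - P * th P' with hG
  have e5 : G = (H * H') * R := by
    rw [hG, hR, e1, e2, th_mul, th_mul, e3, e4]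
    ring
  -- low coefficients of G
  have e6 : ∀ j ≤ k, coeff j G = if j = k then (k : ℂ) * (coeff k P - coeff k P') else 0 := by
    intro j hj
    set D := P - P' with hD
    have f1 : G = P * th D - th P * D := by
      have : P' = P - D := by rw [hD]; ring
      have f2 : th D = th P - th P' := by
        ext i; rw [map_sub, coeff_th, coeff_th, coeff_th, hD, map_sub]; ring
      rw [hG, f2, hD]; ring
    have f3 : ∀ i < k, coeff i D = 0 := by
      intro i hi; rw [hD, map_sub, h i hi, sub_self]
    rw [f1, map_sub, coeff_mul, coeff_mul, ← sum_sub_distrib]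
    have f4 : ∀ p ∈ antidiagonal j, coeff p.1 P * coeff p.2 (th D) - coeff p.1 (th P) * coeff p.2 D
        = if p.2 = k then (k : ℂ) * coeff k D else 0 := by
      intro p hp
      rw [HasAntidiagonal.mem_antidiagonal] at hp
      rw [coeff_th, coeff_th]
      by_cases hp2 : p.2 = k
      · have hp1 : p.1 = 0 := by omega
        rw [if_pos hp2, hp1, hp2, hP, constantCoeff_HH]
        simp
      · have : p.2 < k := by omega
        rw [if_neg hp2, f3 _ this]
        ring
    rw [sum_congr rfl f4]
    by_cases hjk : j = k
    · rw [if_pos hjk, hjk]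
      rw [sum_eq_single (0, k)]
      · simp [hD]
      · intro p hp hne
        rw [HasAntidiagonal.mem_antidiagonal] at hp
        rw [if_neg]
        intro h2
        apply hne
        ext
        · simp; omega
        · exact h2
      · intro hn; simp at hn
    · rw [if_neg hjk]
      apply sum_eq_zero
      intro p hp
      rw [HasAntidiagonal.mem_antidiagonal] at hp
      rw [if_neg]; omega
  have c1 : coeff 0 (H * H') = 1 := by
    have : coeff 0 (H * H') = coeff 0 H * coeff 0 H' := by
      simp [coeff_zero_eq_constantCoeff]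
    rw [this, hH, hH', constantCoeff_HH, constantCoeff_HH, one_mul]
  have e7 : coeff k R = coeff k G := by
    have c2 : constantCoeff (H * H') ≠ 0 := by
      rw [← coeff_zero_eq_constantCoeff_apply, c1]; exact one_ne_zero
    have c3 : R = (H * H')⁻¹ * G := by
      rw [e5, ← mul_assoc, PowerSeries.inv_mul_cancel _ c2, one_mul]
    have c4 : coeff 0 (H * H')⁻¹ = 1 := by
      rw [coeff_zero_eq_constantCoeff_apply, constantCoeff_inv,
        ← coeff_zero_eq_constantCoeff_apply, c1, inv_one]
    rw [c3, coeff_mul, sum_eq_single (0, k)]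
    · simp only []
      rw [c4, one_mul]
    · intro p hp hne
      rw [HasAntidiagonal.mem_antidiagonal] at hp
      have : p.2 ≠ k := by
        intro h2
        apply hne
        ext
        · simp; omega
        · exact h2
      rw [e6 p.2 (by omega), if_neg this, mul_zero]
    · intro hn; simp at hn
  rw [e6 k le_rfl, if_pos rfl] at e7
  rw [← e7, hR, map_sub, map_sub, BQ_add, ← hQ, ← hQ', coeff_mul, coeff_mul, coeff_mul,
    ← sum_sub_distrib]
  congr 1
  refine sum_congr rfl fun p _ => ?_
  rw [coeff_th, coeff_th]
  ring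

end Pool.Agent.Helper79.LC
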