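import Mathlib

/-!
A one-sided bound for families of vectors in a space of small dimension: odd powers of a Gram
matrix have nonnegative sum, even powers have small rank.
-/

open Finset

namespace Pool.Agent.Helper79.LC

variable {ι : Type*} [Fintype ι] [DecidableEq ι]

/-- symmetric power features -/
noncomputable def feat (m : ℕ) (u : ι → ℝ) (s : Sym ι m) : ℝ :=
  √((s : Multiset ι).countPerms : ℝ) * ((s : Multiset ι).map u).prod

lemma pow_inner (m : ℕ) (u v : ι → ℝ) :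
    (∑ i, u i * v i) ^ m = ∑ s ∈ (univ : Finset ι).sym m, feat m u s * feat m v s := by
  rw [Finset.sum_pow]
  refine sum_congr rfl fun s _ => ?_
  rw [feat, feat, Multiset.prod_map_mul]
  have : √((s : Multiset ι).countPerms : ℝ) * √((s : Multiset ι).countPerms : ℝ)
      = ((s : Multiset ι).countPerms : ℝ) := Real.mul_self_sqrt (by positivity)
  calc ((s : Multiset ι).countPerms : ℝ) * (((s : Multiset ι).map u).prod *
        ((s : Multiset ι).map v).prod)
      = (√((s : Multiset ι).countPerms : ℝ) * √((s : Multiset ι).countPerms : ℝ)) *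
        (((s : Multiset ι).map u).prod * ((s : Multiset ι).map v).prod) := by rw [this]
    _ = _ := by ring

variable {κ : Type*}

lemma sum_pow_nonneg (F : Finset κ) (x : κ → ι → ℝ) (m : ℕ) :
    0 ≤ ∑ f ∈ F, ∑ g ∈ F, (∑ i, x f i * x g i) ^ m := by
  have h1 : ∑ f ∈ F, ∑ g ∈ F, (∑ i, x f i * x g i) ^ m =
      ∑ s ∈ (univ : Finset ι).sym m, (∑ f ∈ F, feat m (x f) s) ^ 2 := by
    simp_rw [pow_inner]
    calc ∑ f ∈ F, ∑ g ∈ F, ∑ s ∈ (univ : Finset ι).sym m, feat m (x f) s * feat m (x g) s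
        = ∑ f ∈ F, ∑ s ∈ (univ : Finset ι).sym m, ∑ g ∈ F, feat m (x f) s * feat m (x g) s := by
          refine sum_congr rfl fun f _ => sum_comm
      _ = ∑ s ∈ (univ : Finset ι).sym m, ∑ f ∈ F, ∑ g ∈ F, feat m (x f) s * feat m (x g) s :=
          sum_comm
      _ = _ := by
          refine sum_congr rfl fun s _ => ?_
          rw [sq, sum_mul_sum]
  rw [h1]
  exact sum_nonneg fun _ _ => sq_nonneg _

lemma rank_bound (F : Finset κ) (x : κ → ι → ℝ) (m : ℕ) (hx : ∀ f ∈ F, ∑ i, x f i * x f i = 1) :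
    (#F : ℝ) ^ 2 ≤ #((univ : Finset ι).sym m) *
      ∑ f ∈ F, ∑ g ∈ F, (∑ i, x f i * x g i) ^ (2 * m) := by
  set S := (univ : Finset ι).sym m with hS
  -- trace
  have h1 : (#F : ℝ) = ∑ s ∈ S, ∑ f ∈ F, feat m (x f) s * feat m (x f) s := by
    rw [sum_comm]
    have : ∀ f ∈ F, ∑ s ∈ S, feat m (x f) s * feat m (x f) s = 1 := by
      intro f hf
      rw [hS, ← pow_inner, hx f hf, one_pow]
    rw [sum_congr rfl this]
    simp
  have h2 : (∑ s ∈ S, ∑ f ∈ F, feat m (x f) s * feat m (x f) s) ^ 2 ≤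
      #S * ∑ s ∈ S, (∑ f ∈ F, feat m (x f) s * feat m (x f) s) ^ 2 :=
    sq_sum_le_card_mul_sum_sq
  have h3 : ∑ s ∈ S, (∑ f ∈ F, feat m (x f) s * feat m (x f) s) ^ 2 ≤
      ∑ s ∈ S, ∑ t ∈ S, (∑ f ∈ F, feat m (x f) s * feat m (x f) t) ^ 2 := by
    refine sum_le_sum fun s hs => ?_
    exact single_le_sum (f := fun t => (∑ f ∈ F, feat m (x f) s * feat m (x f) t) ^ 2)
      (fun _ _ => sq_nonneg _) hs
  have h4 : ∑ s ∈ S, ∑ t ∈ S, (∑ f ∈ F, feat m (x f) s * feat m (x f) t) ^ 2 =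
      ∑ f ∈ F, ∑ g ∈ F, (∑ i, x f i * x g i) ^ (2 * m) := by
    have e1 : ∀ f g, (∑ i, x f i * x g i) ^ (2 * m) =
        ∑ s ∈ S, ∑ t ∈ S, (feat m (x f) s * feat m (x g) s) * (feat m (x f) t * feat m (x g) t) := by
      intro f g
      rw [mul_comm 2 m, pow_mul, pow_inner, sq, sum_mul_sum]
    simp_rw [e1, sq, sum_mul_sum]
    calc ∑ s ∈ S, ∑ t ∈ S, ∑ f ∈ F, ∑ g ∈ F,
          feat m (x f) s * feat m (x f) t * (feat m (x g) s * feat m (x g) t)
        = ∑ s ∈ S, ∑ f ∈ F, ∑ t ∈ S, ∑ g ∈ F,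
          feat m (x f) s * feat m (x f) t * (feat m (x g) s * feat m (x g) t) :=
          sum_congr rfl fun _ _ => sum_comm
      _ = ∑ f ∈ F, ∑ s ∈ S, ∑ t ∈ S, ∑ g ∈ F,
          feat m (x f) s * feat m (x f) t * (feat m (x g) s * feat m (x g) t) := sum_comm
      _ = ∑ f ∈ F, ∑ s ∈ S, ∑ g ∈ F, ∑ t ∈ S,
          feat m (x f) s * feat m (x f) t * (feat m (x g) s * feat m (x g) t) :=
          sum_congr rfl fun _ _ => sum_congr rfl fun _ _ => sum_comm
      _ = ∑ f ∈ F, ∑ g ∈ F, ∑ s ∈ S, ∑ t ∈ S,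
          feat m (x f) s * feat m (x f) t * (feat m (x g) s * feat m (x g) t) :=
          sum_congr rfl fun _ _ => sum_comm
      _ = _ := by
          refine sum_congr rfl fun f _ => sum_congr rfl fun g _ => sum_congr rfl fun s _ =>
            sum_congr rfl fun t _ => ?_
          ring
  rw [h4] at h3
  calc (#F : ℝ) ^ 2 ≤ #S * ∑ s ∈ S, (∑ f ∈ F, feat m (x f) s * feat m (x f) s) ^ 2 := by
        rw [h1]; exact h2
    _ ≤ _ := by gcongr

/-- The one-sided code bound, normalised form. -/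
theorem code_unit (F : Finset κ) (x : κ → ι → ℝ) (m : ℕ) (hm : 1 ≤ m)
    (hx : ∀ f ∈ F, ∑ i, x f i * x f i = 1) (η A : ℝ) (hη : 0 ≤ η) (hA : 0 ≤ A)
    (J : κ → Finset κ) (hJF : ∀ f ∈ F, J f ⊆ F) (hJ : ∀ f ∈ F, (#(J f) : ℝ) ≤ A)
    (hc : ∀ f ∈ F, ∀ g ∈ F, g ∉ J f → ∑ i, x f i * x g i ≤ η)
    (hR : #((univ : Finset ι).sym m) * η ^ (2 * m - 1) ≤ 1 / 4) :
    (#F : ℝ) ≤ 4 * #((univ : Finset ι).sym m) * A := by
  classical
  set R : ℝ := (#((univ : Finset ι).sym m) : ℝ) with hRdef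
  set c : κ → κ → ℝ := fun f g => ∑ i, x f i * x g i with hcdef
  have hR0 : 0 ≤ R := by positivity
  have hodd : Odd (2 * m - 1) := ⟨m - 1, by omega⟩
  have hc1 : ∀ f ∈ F, ∀ g ∈ F, |c f g| ≤ 1 := by
    intro f hf g hg
    have h1 := sum_mul_sq_le_sq_mul_sq univ (x f) (x g)
    have h2 : ∑ i, x f i ^ 2 = 1 := by rw [← hx f hf]; exact sum_congr rfl fun _ _ => sq _
    have h3 : ∑ i, x g i ^ 2 = 1 := by rw [← hx g hg]; exact sum_congr rfl fun _ _ => sq _
    rw [h2, h3, one_mul] at h1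
    exact (sq_le_one_iff_abs_le_one _).mp h1
  -- positive parts
  have hpos : ∀ f ∈ F, ∀ g ∈ F, (max (c f g) 0) ^ (2 * m - 1) ≤
      (if g ∈ J f then 1 else 0) + η ^ (2 * m - 1) := by
    intro f hf g hg
    have h0 : 0 ≤ max (c f g) 0 := le_max_right _ _
    split_ifs with h
    · have h1 : max (c f g) 0 ≤ 1 := max_le ((abs_le.mp (hc1 f hf g hg)).2) zero_le_one
      have h2 : (max (c f g) 0) ^ (2 * m - 1) ≤ 1 := pow_le_one₀ h0 h1
      have h3 : 0 ≤ η ^ (2 * m - 1) := by positivity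
      linarith
    · have h1 : max (c f g) 0 ≤ η := max_le (hc f hf g hg h) hη
      have h2 : (max (c f g) 0) ^ (2 * m - 1) ≤ η ^ (2 * m - 1) := by gcongr
      linarith
  have hsum : ∑ f ∈ F, ∑ g ∈ F, (max (c f g) 0) ^ (2 * m - 1) ≤
      #F * A + (#F : ℝ) ^ 2 * η ^ (2 * m - 1) := by
    calc ∑ f ∈ F, ∑ g ∈ F, (max (c f g) 0) ^ (2 * m - 1)
        ≤ ∑ f ∈ F, ∑ g ∈ F, ((if g ∈ J f then (1 : ℝ) else 0) + η ^ (2 * m - 1)) :=
          sum_le_sum fun f hf => sum_le_sum fun g hg => hpos f hf g hg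
      _ = ∑ f ∈ F, ((#(J f) : ℝ) + #F * η ^ (2 * m - 1)) := by
          refine sum_congr rfl fun f hf => ?_
          rw [sum_add_distrib, sum_const, nsmul_eq_mul, ← sum_filter]
          have : F.filter (fun g => g ∈ J f) = J f := by
            ext g; rw [mem_filter]
            exact ⟨fun h => h.2, fun h => ⟨hJF f hf h, h⟩⟩
          rw [this]
          simp
      _ ≤ ∑ f ∈ F, (A + #F * η ^ (2 * m - 1)) := by
          refine sum_le_sum fun f hf => ?_
          have := hJ f hf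
          linarith
      _ = _ := by
          rw [sum_const, nsmul_eq_mul]; ring
  have habs : ∑ f ∈ F, ∑ g ∈ F, (c f g) ^ (2 * m) ≤
      2 * ∑ f ∈ F, ∑ g ∈ F, (max (c f g) 0) ^ (2 * m - 1) := by
    have h1 := sum_pow_nonneg F x (2 * m - 1)
    have h2 : ∀ f ∈ F, ∀ g ∈ F, (c f g) ^ (2 * m) ≤
        2 * (max (c f g) 0) ^ (2 * m - 1) - (c f g) ^ (2 * m - 1) := by
      intro f hf g hg
      have h3 : (c f g) ^ (2 * m) ≤ |c f g| ^ (2 * m - 1) := by
        have h4 : (c f g) ^ (2 * m) = |c f g| ^ (2 * m) := by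
          rw [Even.pow_abs ⟨m, by ring⟩]
        rw [h4]
        exact pow_le_pow_of_le_one (abs_nonneg _) (hc1 f hf g hg) (by omega)
      rcases le_total 0 (c f g) with h | h
      · rw [max_eq_left h]
        rw [abs_of_nonneg h] at h3
        linarith
      · rw [max_eq_right h, zero_pow (by omega), mul_zero, zero_sub, ← hodd.neg_pow]
        rwa [abs_of_nonpos h] at h3
    calc ∑ f ∈ F, ∑ g ∈ F, (c f g) ^ (2 * m)
        ≤ ∑ f ∈ F, ∑ g ∈ F, (2 * (max (c f g) 0) ^ (2 * m - 1) - (c f g) ^ (2 * m - 1)) :=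
          sum_le_sum fun f hf => sum_le_sum fun g hg => h2 f hf g hg
      _ = 2 * ∑ f ∈ F, ∑ g ∈ F, (max (c f g) 0) ^ (2 * m - 1) -
          ∑ f ∈ F, ∑ g ∈ F, (c f g) ^ (2 * m - 1) := by
          simp only [sum_sub_distrib, mul_sum]
      _ ≤ _ := by
          have : 0 ≤ ∑ f ∈ F, ∑ g ∈ F, (c f g) ^ (2 * m - 1) := h1
          linarith
  have hrank := rank_bound F x m hx
  rw [← hRdef] at hrank
  rcases F.eq_empty_or_nonempty with hF | hF
  · subst hF
    simp only [card_empty, CharP.cast_eq_zero]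
    positivity
  · have hM : (0 : ℝ) < #F := by exact_mod_cast card_pos.mpr hF
    have h1 : (#F : ℝ) ^ 2 ≤ R * (2 * (#F * A + (#F : ℝ) ^ 2 * η ^ (2 * m - 1))) := by
      refine hrank.trans ?_
      gcongr
      exact habs.trans (by gcongr)
    have h2 : (#F : ℝ) ^ 2 * (R * η ^ (2 * m - 1)) ≤ (#F : ℝ) ^ 2 * (1 / 4) := by gcongr
    have h3 : (#F : ℝ) * #F ≤ #F * (4 * R * A) := by nlinarith
    exact le_of_mul_le_mul_left h3 hM

/-- The one-sided code bound: vectors of square norm at least `Δ`, which are the low parts of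
vectors of square norm at most `P` with pairwise inner products at most `τ`. -/
theorem code_bound (F : Finset κ) (x : κ → ι → ℝ) (m : ℕ) (hm : 1 ≤ m) {Δ P τ θ : ℝ}
    (hΔ : 0 < Δ) (hP : 0 ≤ P) (hτ : 0 ≤ τ) (hθ : 0 < θ)
    (hx : ∀ f ∈ F, Δ ≤ ∑ i, x f i * x f i)
    (hJ : ∀ J ⊆ F, ∑ i, (∑ g ∈ J, x g i) ^ 2 ≤ #J * P + (#J : ℝ) ^ 2 * τ)
    (hR : #((univ : Finset ι).sym m) * √((τ + θ) / Δ) ^ (2 * m - 1) ≤ 1 / 4) :
    (#F : ℝ) ≤ 4 * #((univ : Finset ι).sym m) * (P / θ) := by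
  classical
  set nr : κ → ℝ := fun f => √(∑ i, x f i * x f i) with hnr
  have hnr0 : ∀ f ∈ F, 0 < nr f := fun f hf => Real.sqrt_pos.mpr (hΔ.trans_le (hx f hf))
  have hnr2 : ∀ f ∈ F, nr f * nr f = ∑ i, x f i * x f i := fun f hf =>
    Real.mul_self_sqrt (hΔ.le.trans (hx f hf))
  have hnrΔ : ∀ f ∈ F, √Δ ≤ nr f := fun f hf => Real.sqrt_le_sqrt (hx f hf)
  set y : κ → ι → ℝ := fun f i => x f i / nr f with hy
  set t : ℝ := √(τ + θ) with ht
  have ht2 : t ^ 2 = τ + θ := Real.sq_sqrt (by linarith)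
  have ht0 : 0 < t := Real.sqrt_pos.mpr (by linarith)
  set J : κ → Finset κ := fun f => F.filter fun g => t ≤ ∑ i, y f i * x g i with hJdef
  have hy1 : ∀ f ∈ F, ∑ i, y f i * y f i = 1 := by
    intro f hf
    have h1 : ∑ i, y f i * y f i = (∑ i, x f i * x f i) / (nr f * nr f) := by
      rw [sum_div]; refine sum_congr rfl fun i _ => ?_
      rw [hy]; exact (div_mul_div_comm _ _ _ _)
    rw [h1, hnr2 f hf, div_self]
    exact (hΔ.trans_le (hx f hf)).ne'
  refine code_unit F y m hm hy1 (√((τ + θ) / Δ)) (P / θ) (Real.sqrt_nonneg _) (by positivity) J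
    (fun f _ => filter_subset _ _) ?_ ?_ hR
  · intro f hf
    have h1 : (#(J f) : ℝ) * t ≤ ∑ g ∈ J f, ∑ i, y f i * x g i := by
      have : ∑ g ∈ J f, t ≤ ∑ g ∈ J f, ∑ i, y f i * x g i :=
        sum_le_sum fun g hg => (mem_filter.mp hg).2
      rwa [sum_const, nsmul_eq_mul] at this
    have h2 : ∑ g ∈ J f, ∑ i, y f i * x g i = ∑ i, y f i * ∑ g ∈ J f, x g i := by
      rw [sum_comm]
      refine sum_congr rfl fun i _ => ?_
      rw [mul_sum]
    have h3 := sum_mul_sq_le_sq_mul_sq univ (y f) (fun i => ∑ g ∈ J f, x g i)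
    have h4 : ∑ i, y f i ^ 2 = 1 := by
      rw [← hy1 f hf]; exact sum_congr rfl fun _ _ => sq _
    rw [h4, one_mul] at h3
    have h5 := hJ (J f) (filter_subset _ _)
    have h6 : ((#(J f) : ℝ) * t) ^ 2 ≤ #(J f) * P + (#(J f) : ℝ) ^ 2 * τ := by
      refine le_trans ?_ (h3.trans h5)
      rw [h2] at h1
      exact pow_le_pow_left₀ (by positivity) h1 2
    rw [mul_pow, ht2] at h6
    rw [le_div_iff₀ hθ]
    rcases Nat.eq_zero_or_pos #(J f) with h0 | h0
    · rw [h0]; simpa using hP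
    · have h7 : (0 : ℝ) < #(J f) := by exact_mod_cast h0
      have h8 : (#(J f) : ℝ) * ((#(J f) : ℝ) * θ) ≤ #(J f) * P := by nlinarith
      exact le_of_mul_le_mul_left h8 h7
  · intro f hf g hg hgJ
    have h1 : ∑ i, y f i * x g i < t := by
      by_contra hc
      exact hgJ (mem_filter.mpr ⟨hg, not_lt.mp hc⟩)
    have h2 : ∑ i, y f i * y g i = (∑ i, y f i * x g i) / nr g := by
      rw [sum_div]; refine sum_congr rfl fun i _ => ?_
      rw [hy]; ring
    rw [h2, Real.sqrt_div' _ hΔ.le, ← ht]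
    calc (∑ i, y f i * x g i) / nr g ≤ t / nr g := by
          have := hnr0 g hg
          gcongr
      _ ≤ t / √Δ := by
          have := Real.sqrt_pos.mpr hΔ
          exact div_le_div_of_nonneg_left ht0.le this (hnrΔ g hg)

lemma card_sym_le (m : ℕ) (hm : 1 ≤ m) :
    (#((univ : Finset ι).sym m) : ℝ) ≤ (Real.exp 1 * (Fintype.card ι + m) / m) ^ m := by
  have h1 : #((univ : Finset ι).sym m) = (Fintype.card ι + m - 1).choose m := by
    rw [Finset.sym_univ, card_univ, Sym.card_sym_eq_choose]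
  rw [h1]
  have h2 := Nat.choose_le_pow_div (α := ℝ) m (Fintype.card ι + m - 1)
  have h3 : ((Fintype.card ι + m - 1 : ℕ) : ℝ) ≤ Fintype.card ι + m := by
    have : Fintype.card ι + m - 1 ≤ Fintype.card ι + m := Nat.sub_le _ _
    exact_mod_cast this
  have hm0 : (0 : ℝ) < m := by exact_mod_cast hm
  have h4 := Real.pow_div_factorial_le_exp (m : ℝ) hm0.le m
  have hfac : (0 : ℝ) < (m.factorial : ℝ) := by positivity
  have h5 : (1 : ℝ) / m.factorial ≤ Real.exp m / m ^ m := by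
    rw [div_le_div_iff₀ hfac (by positivity)]
    rw [div_le_iff₀ hfac] at h4
    linarith
  calc (((Fintype.card ι + m - 1).choose m : ℕ) : ℝ)
      ≤ ((Fintype.card ι + m - 1 : ℕ) : ℝ) ^ m / m.factorial := h2
    _ ≤ ((Fintype.card ι : ℝ) + m) ^ m / m.factorial := by gcongr
    _ = ((Fintype.card ι : ℝ) + m) ^ m * (1 / m.factorial) := by ring
    _ ≤ ((Fintype.card ι : ℝ) + m) ^ m * (Real.exp m / m ^ m) := by gcongr
    _ = _ := by
        have : Real.exp (m : ℝ) = Real.exp 1 ^ m := by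
          rw [← Real.exp_nat_mul, mul_one]
        rw [this, div_pow, mul_pow]
        ring

end Pool.Agent.Helper79.LC
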