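import Pool.Agent.Helper79.LC.HiFam

/-!
Choice of parameters in the count of polynomials with large low-frequency energy.
-/

open Finset

namespace Pool.Agent.Helper79.LC

theorem hi_final {n κ : ℕ} {δ : ℝ} (hn : 2 ≤ n) (hκ1 : 1 ≤ κ) (hκ : κ ≤ n) (hδn : 1 / n ≤ δ)
    (hδ0 : δ ≤ 1 / 14400) (F : Finset (Polynomial ℤ))
    (hF : ∀ f ∈ F, f.Monic ∧ Irreducible f ∧ f.natDegree = n ∧ MM f ≤ 1 + δ ∧
      max (κ / (2304 * δ)) (400 * n * δ) ≤ AA (rt f).val κ) :
    (#F : ℝ) ≤ Real.exp (3686400 * (n * δ ^ 2 * Real.log (1 / δ)) + 16 * Real.log n ^ 2) := by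
  have hn0 : (0 : ℝ) < n := by positivity
  have hn2 : (2 : ℝ) ≤ n := by exact_mod_cast hn
  have hδ : 0 < δ := lt_of_lt_of_le (by positivity) hδn
  have hκ0 : (0 : ℝ) < κ := by exact_mod_cast hκ1
  have hκn : (κ : ℝ) ≤ n := by exact_mod_cast hκ
  set L : ℝ := Real.log n with hL
  have hL2 : 0.69 ≤ L := by
    have h1 := Real.log_two_gt_d9
    have h2 := Real.log_le_log (by norm_num) hn2
    rw [← hL] at h2
    linarith
  set l : ℝ := Real.log (1 / δ) with hl
  have hlL : l ≤ L := by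
    apply Real.log_le_log (by positivity)
    rw [div_le_iff₀ hδ]
    rw [div_le_iff₀ hn0] at hδn
    linarith
  have hl0 : 0 ≤ l := by
    apply Real.log_nonneg
    rw [le_div_iff₀ hδ]; linarith
  set Bκ : ℝ := max (κ / (2304 * δ)) (400 * n * δ) with hB
  have hBpos : 0 < Bκ := lt_max_of_lt_left (by positivity)
  have hB1 : κ / (2304 * δ) ≤ Bκ := le_max_left _ _
  have hB2 : 400 * n * δ ≤ Bκ := le_max_right _ _
  have hB3 : Bκ ≤ n / δ := by
    apply max_le
    · rw [div_le_div_iff₀ (by positivity) hδ]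
      nlinarith
    · rw [le_div_iff₀ hδ]
      have h : 400 * (δ * δ) ≤ 1 := by nlinarith
      calc 400 * n * δ * δ = n * (400 * (δ * δ)) := by ring
        _ ≤ n * 1 := by gcongr
        _ = n := mul_one _
  set u : ℝ := 8 * n * δ / Bκ with hu
  have hu0 : 0 < u := by positivity
  have hu1 : κ * u ≤ 18432 * (n * δ ^ 2) := by
    rw [hu, mul_div_assoc', div_le_iff₀ hBpos]
    have h1 : (κ : ℝ) ≤ 2304 * δ * Bκ := by
      rw [div_le_iff₀ (by positivity)] at hB1; linarith
    nlinarith [mul_le_mul_of_nonneg_right h1 (show 0 ≤ 8 * n * δ by positivity)]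
  have hu2 : u ≤ 0.02 := by
    rw [hu, div_le_iff₀ hBpos]; linarith
  have hu3 : 8 * δ ^ 2 ≤ u := by
    rw [hu, le_div_iff₀ hBpos]
    rw [le_div_iff₀ hδ] at hB3
    nlinarith
  set η : ℝ := √u with hη
  have hη0 : 0 < η := Real.sqrt_pos.mpr hu0
  have hη2 : η ^ 2 = u := Real.sq_sqrt hu0.le
  have hη1 : 2 * δ ≤ η := by
    apply Real.le_sqrt_of_sq_le
    nlinarith
  set m : ℕ := ⌈1843200 * (n * δ ^ 2) + Real.log (2 / δ)⌉₊ with hm
  have hl2 : Real.log (2 / δ) = Real.log 2 + l := by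
    rw [hl, one_div, Real.log_inv, Real.log_div (by norm_num) hδ.ne']; ring
  have hlog2 : 0.69 < Real.log 2 ∧ Real.log 2 < 0.7 :=
    ⟨lt_trans (by norm_num) Real.log_two_gt_d9, lt_trans Real.log_two_lt_d9 (by norm_num)⟩
  have hmge : 1843200 * (n * δ ^ 2) + Real.log (2 / δ) ≤ m := Nat.le_ceil _
  have hmle : (m : ℝ) ≤ 1843200 * (n * δ ^ 2) + Real.log (2 / δ) + 1 :=
    (Nat.ceil_lt_add_one (by rw [hl2]; have := hlog2.1; positivity)).le
  have hnd : 0 ≤ (n : ℝ) * δ ^ 2 := by positivity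
  have hm1 : 1 ≤ m := by
    have : (0 : ℝ) < m := by
      rw [hl2] at hmge; linarith [hlog2.1]
    exact_mod_cast this
  have hm0 : (0 : ℝ) < m := by exact_mod_cast hm1
  set R : ℝ := (#((univ : Finset (Fin κ × Bool)).sym m) : ℝ) with hR
  set q : ℝ := Real.exp 1 * (Fintype.card (Fin κ × Bool) + m) / m with hq
  have hRq : R ≤ q ^ m := card_sym_le m hm1
  have hcard : (Fintype.card (Fin κ × Bool) : ℝ) = 2 * κ := by
    simp; ring
  have he := Real.exp_one_lt_d9
  have he0 := Real.exp_pos 1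
  have hq0 : 0 < q := by positivity
  have hqu : q * u ≤ Real.exp (-2) := by
    have h1 : q * u = Real.exp 1 * (2 * (κ * u)) / m + Real.exp 1 * u := by
      rw [hq, hcard]; field_simp
    have h2 : Real.exp 1 * (2 * (κ * u)) / m ≤ 0.055 := by
      rw [div_le_iff₀ hm0]
      have h3 : 100 * (κ * u) ≤ m := by rw [hl2] at hmge; linarith [hlog2.1]
      nlinarith [show 0 ≤ κ * u by positivity]
    have h3 : Real.exp 1 * u ≤ 0.055 := by nlinarith
    have h4 : 0.11 ≤ Real.exp (-2) := by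
      have h5 : Real.exp (-2) = (Real.exp 1 ^ 2)⁻¹ := by
        rw [Real.exp_neg, ← Real.exp_nat_mul]; norm_num
      rw [h5, le_inv_comm₀ (by norm_num) (by positivity)]
      nlinarith
    linarith
  have hRη : R * η ^ (2 * m - 1) ≤ 1 / 4 := by
    have h1 : η ^ (2 * m - 1) = u ^ m / η := by
      rw [eq_div_iff hη0.ne', ← pow_succ, show 2 * m - 1 + 1 = 2 * m by omega, pow_mul, hη2]
    rw [h1, ← mul_div_assoc, div_le_iff₀ hη0]
    have h2 : R * u ^ m ≤ Real.exp (-2) ^ m := by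
      calc R * u ^ m ≤ q ^ m * u ^ m := by gcongr
        _ = (q * u) ^ m := (mul_pow _ _ _).symm
        _ ≤ _ := by gcongr
    have h3 : Real.exp (-2) ^ m = Real.exp (-(2 * m)) := by
      rw [← Real.exp_nat_mul]; ring_nf
    have h4 : Real.exp (-(2 * (m : ℝ))) ≤ δ / 2 := by
      have h5 : -(2 * (m : ℝ)) ≤ Real.log (δ / 2) := by
        have h6 : Real.log (δ / 2) = - Real.log (2 / δ) := by
          rw [← Real.log_inv, inv_div]
        rw [h6]
        have : 0 ≤ Real.log (2 / δ) := by rw [hl2]; linarith [hlog2.1]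
        linarith
      calc Real.exp (-(2 * (m : ℝ))) ≤ Real.exp (Real.log (δ / 2)) := Real.exp_le_exp.mpr h5
        _ = δ / 2 := Real.exp_log (by positivity)
    rw [h3] at h2
    linarith
  have hmain := hi_count (n := n) (κ := κ) (m := m) (δ := δ) (Bκ := Bκ) (by omega) hκ hm1 hδ
    (by linarith) hBpos F hF hRη
  rw [← hR] at hmain
  -- bound of `R`
  have hRb : R ≤ Real.exp (2 * m * l) := by
    have h1 : q ≤ 1 / δ ^ 2 := by
      rw [le_div_iff₀ (by positivity)]
      have h2 : Real.exp (-2) ≤ 1 := Real.exp_le_one_iff.mpr (by norm_num)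
      nlinarith [mul_le_mul_of_nonneg_left hu3 hq0.le]
    have h3 : 1 / δ ^ 2 = Real.exp (2 * l) := by
      rw [hl, show 2 * Real.log (1 / δ) = Real.log ((1 / δ) ^ 2) by rw [Real.log_pow]; norm_num,
        Real.exp_log (by positivity), div_pow, one_pow]
    calc R ≤ q ^ m := hRq
      _ ≤ (1 / δ ^ 2) ^ m := by gcongr
      _ = Real.exp (2 * m * l) := by
          rw [h3, ← Real.exp_nat_mul]; ring_nf
  have hrest : 4 * ((Real.log (n / δ) + 3 * δ) / δ) ≤ Real.exp (9 * L ^ 2) := by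
    have h1 : Real.log (n / δ) = L + l := by
      rw [Real.log_div hn0.ne' hδ.ne', hl, one_div, Real.log_inv]; ring
    have h2 : 1 / δ ≤ n := by
      rw [div_le_iff₀ hδ]
      rw [div_le_iff₀ hn0] at hδn
      linarith
    have h3 : 4 * ((Real.log (n / δ) + 3 * δ) / δ) ≤ 4 * ((2 * L + 1) * n) := by
      rw [h1, div_eq_mul_one_div]
      have : L + l + 3 * δ ≤ 2 * L + 1 := by linarith
      gcongr
    have h4 : 4 * ((2 * L + 1) * n) ≤ Real.exp (2 * Real.log 2 + (2 * L + L)) := by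
      rw [Real.exp_add, Real.exp_add, hL, Real.exp_log hn0, ← hL]
      have h5 : Real.exp (2 * Real.log 2) = 4 := by
        rw [show 2 * Real.log 2 = Real.log (2 ^ 2) by rw [Real.log_pow]; norm_num,
          Real.exp_log (by norm_num)]
        norm_num
      have h6 := Real.add_one_le_exp (2 * L)
      rw [h5]
      gcongr
    refine h3.trans (h4.trans (Real.exp_le_exp.mpr ?_))
    nlinarith [hlog2.2]
  calc (#F : ℝ) ≤ 4 * R * ((Real.log (n / δ) + 3 * δ) / δ) := hmain
    _ = R * (4 * ((Real.log (n / δ) + 3 * δ) / δ)) := by ring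
    _ ≤ Real.exp (2 * m * l) * Real.exp (9 * L ^ 2) := by
        apply mul_le_mul hRb hrest _ (Real.exp_pos _).le
        have h1 : Real.log (n / δ) = L + l := by
          rw [Real.log_div hn0.ne' hδ.ne', hl, one_div, Real.log_inv]; ring
        rw [h1]
        have : 0 ≤ L + l + 3 * δ := by linarith
        positivity
    _ = Real.exp (2 * m * l + 9 * L ^ 2) := by rw [Real.exp_add]
    _ ≤ _ := by
        apply Real.exp_le_exp.mpr
        have h1 : 2 * (m : ℝ) * l ≤ 2 * (1843200 * (n * δ ^ 2) + Real.log (2 / δ) + 1) * l := by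
          gcongr
        rw [hl2] at h1
        have h2 : 2 * (Real.log 2 + l + 1) * l ≤ 7 * L ^ 2 := by
          have : (Real.log 2 + l + 1) * l ≤ (L + 1.7) * L := by
            apply mul_le_mul _ hlL hl0 (by linarith)
            linarith [hlog2.2]
          nlinarith
        linarith

end Pool.Agent.Helper79.LC
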