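import Pool.Agent.Helper79.LC.LoFam
import Pool.Agent.Helper79.LC.HiFin

/-!
Counting irreducible polynomials of Mahler measure close to one.
-/

open Finset

namespace Pool.Agent.Helper79.LC

/-- Monic irreducible polynomials of degree `n` and Mahler measure at most `1 + δ`. -/
def famA (n : ℕ) (δ : ℝ) : Set (Polynomial ℤ) :=
  {f | f.Monic ∧ Irreducible f ∧ f.natDegree = n ∧ MM f ≤ 1 + δ}

lemma finite_famA (n : ℕ) {δ : ℝ} (hδ : 0 ≤ δ) : (famA n δ).Finite := by
  refine (finite_MM n (1 + δ) (by linarith)).subset ?_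
  rintro f ⟨_, _, h1, h2⟩
  exact ⟨h1.le, h2⟩

theorem partA_mid {n : ℕ} {δ : ℝ} (hn : 2 ≤ n) (hδn : 1 / n ≤ δ) (hδ0 : δ ≤ 1 / 14400) :
    ((famA n δ).ncard : ℝ) ≤
      Real.exp (3686400 * (n * δ ^ 2 * Real.log (1 / δ)) + 660 * √n * Real.log n ^ 2) := by
  classical
  have hn0 : (0 : ℝ) < n := by positivity
  have hn2 : (2 : ℝ) ≤ n := by exact_mod_cast hn
  have hδ : 0 < δ := lt_of_lt_of_le (by positivity) hδn
  set L : ℝ := Real.log n with hL
  have hL2 : 0.69 ≤ L := by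
    have h1 := Real.log_two_gt_d9
    have h2 := Real.log_le_log (by norm_num) hn2
    rw [← hL] at h2
    linarith
  have hl0 : 0 ≤ Real.log (1 / δ) := by
    apply Real.log_nonneg
    rw [le_div_iff₀ hδ]; linarith
  set F : Finset (Polynomial ℤ) := (finite_famA n hδ.le).toFinset with hF
  have hmem : ∀ f ∈ F, f.Monic ∧ Irreducible f ∧ f.natDegree = n ∧ MM f ≤ 1 + δ := by
    intro f hf
    rw [hF, Set.Finite.mem_toFinset] at hf
    exact hf
  have hncard : (famA n δ).ncard = #F := by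
    rw [hF, Set.ncard_eq_toFinset_card _ (finite_famA n hδ.le)]
  obtain ⟨P, hP⟩ : ∃ P : Polynomial ℤ → Prop, ∀ f, P f ↔ ∀ κ, 1 ≤ κ → κ ≤ n →
    AA (rt f).val κ < max (κ / (2304 * δ)) (400 * n * δ) := ⟨_, fun _ => Iff.rfl⟩
  set Flo : Finset (Polynomial ℤ) := F.filter P with hFlo
  set Fhi : ℕ → Finset (Polynomial ℤ) := fun κ => F.filter fun f =>
    max (κ / (2304 * δ)) (400 * n * δ) ≤ AA (rt f).val κ with hFhi
  have hlo := lo_final hn hδn hδ0 Flo (by
    intro f hf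
    obtain ⟨h1, h2⟩ := mem_filter.mp hf
    obtain ⟨a, b, c, d⟩ := hmem f h1
    exact ⟨a, b, c, d, (hP f).mp h2⟩)
  have hhi : ∀ κ ∈ Icc 1 n, (#(Fhi κ) : ℝ) ≤
      Real.exp (3686400 * (n * δ ^ 2 * Real.log (1 / δ)) + 16 * Real.log n ^ 2) := by
    intro κ hκ
    rw [mem_Icc] at hκ
    refine hi_final hn hκ.1 hκ.2 hδn hδ0 (Fhi κ) ?_
    intro f hf
    obtain ⟨h1, h2⟩ := mem_filter.mp hf
    obtain ⟨a, b, c, d⟩ := hmem f h1
    exact ⟨a, b, c, d, h2⟩
  have hsub : F ⊆ Flo ∪ (Icc 1 n).biUnion Fhi := by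
    intro f hf
    rw [mem_union, mem_biUnion]
    by_cases h : P f
    · left
      exact mem_filter.mpr ⟨hf, h⟩
    · right
      rw [hP] at h
      push Not at h
      obtain ⟨κ, h1, h2, h3⟩ := h
      exact ⟨κ, mem_Icc.mpr ⟨h1, h2⟩, mem_filter.mpr ⟨hf, h3⟩⟩
  have hcard : (#F : ℝ) ≤ #Flo + ∑ κ ∈ Icc 1 n, (#(Fhi κ) : ℝ) := by
    have h1 := (card_le_card hsub).trans ((card_union_le _ _).trans
      (Nat.add_le_add_left card_biUnion_le _))
    exact_mod_cast h1
  rw [hncard]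
  set W : ℝ := n * δ ^ 2 * Real.log (1 / δ) with hW
  have hW0 : 0 ≤ W := by positivity
  have hsn : 1 ≤ √(n : ℝ) := by
    apply Real.le_sqrt_of_sq_le
    linarith
  rw [← hL] at hlo hhi
  set M : ℝ := Real.exp (3686400 * W + 640 * √n * L ^ 2) with hM
  have hL20 : 0 ≤ L ^ 2 := by positivity
  have h1 : (#Flo : ℝ) ≤ M := hlo.trans (Real.exp_le_exp.mpr (by linarith))
  have h2 : ∀ κ ∈ Icc 1 n, (#(Fhi κ) : ℝ) ≤ M := fun κ hκ =>
    (hhi κ hκ).trans (Real.exp_le_exp.mpr (by nlinarith))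
  have h3 : (#F : ℝ) ≤ (n + 1) * M := by
    refine hcard.trans ?_
    have := sum_le_sum h2
    rw [sum_const, Nat.card_Icc, nsmul_eq_mul, Nat.add_sub_cancel] at this
    linarith
  have h4 : (n : ℝ) + 1 ≤ Real.exp (2 * L) := by
    rw [show 2 * L = ((2 : ℕ) : ℝ) * L by norm_num, Real.exp_nat_mul, hL, Real.exp_log hn0]
    nlinarith
  calc (#F : ℝ) ≤ (n + 1) * M := h3
    _ ≤ Real.exp (2 * L) * M := by
        gcongr
    _ = Real.exp (2 * L + (3686400 * W + 640 * √n * L ^ 2)) := by rw [Real.exp_add]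
    _ ≤ _ := by
        apply Real.exp_le_exp.mpr
        have h5 : 2 * L ≤ 20 * (1 * L ^ 2) := by nlinarith
        have h6 : 1 * L ^ 2 ≤ √n * L ^ 2 := by gcongr
        linarith

theorem partA_monic : ∃ C : ℝ, 0 < C ∧ ∀ (n : ℕ) (δ : ℝ), 2 ≤ n → 0 < δ → δ ≤ 1 / 14400 →
    ((famA n δ).ncard : ℝ) ≤
      Real.exp (C * (n * δ ^ 2 * Real.log (1 / δ) + √n * Real.log n ^ 2)) := by
  set N : ℕ := {f : Polynomial ℤ | f.natDegree ≤ 14400 ∧ MM f ≤ 2}.ncard with hN
  refine ⟨3686400 + 3 * Real.log (N + 1), by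
    have : 0 ≤ Real.log (N + 1) := Real.log_nonneg (by simp)
    positivity, ?_⟩
  intro n δ hn hδ hδ0
  have hlogN : 0 ≤ Real.log (N + 1) := Real.log_nonneg (by simp)
  have hn0 : (0 : ℝ) < n := by positivity
  have hn2 : (2 : ℝ) ≤ n := by exact_mod_cast hn
  set L : ℝ := Real.log n with hL
  have hL2 : 0.69 ≤ L := by
    have h1 := Real.log_two_gt_d9
    have h2 := Real.log_le_log (by norm_num) hn2
    rw [← hL] at h2
    linarith
  have hl0 : 0 ≤ Real.log (1 / δ) := by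
    apply Real.log_nonneg
    rw [le_div_iff₀ hδ]; linarith
  have hsn : 1 ≤ √(n : ℝ) := by
    apply Real.le_sqrt_of_sq_le
    linarith
  set W : ℝ := n * δ ^ 2 * Real.log (1 / δ) with hW
  have hW0 : 0 ≤ W := by positivity
  have hL20 : 0 ≤ L ^ 2 := by positivity
  have hQ0 : 0 ≤ √(n : ℝ) * L ^ 2 := by positivity
  by_cases hnb : (n : ℝ) < 14400
  · have h1 : (famA n δ).ncard ≤ N := by
      rw [hN]
      apply Set.ncard_le_ncard _ (finite_MM 14400 2 (by norm_num))
      rintro f ⟨_, _, h1, h2⟩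
      refine ⟨?_, by linarith⟩
      rw [h1]
      exact_mod_cast hnb.le
    have h2 : ((famA n δ).ncard : ℝ) ≤ N + 1 := by
      have : ((famA n δ).ncard : ℝ) ≤ N := by exact_mod_cast h1
      linarith
    refine h2.trans ?_
    rw [← Real.log_le_iff_le_exp (by positivity)]
    have h3 : 0.4 ≤ √(n : ℝ) * L ^ 2 := by nlinarith
    have h4 : 0.4 * (3 * Real.log (N + 1)) ≤ √(n : ℝ) * L ^ 2 * (3 * Real.log (N + 1)) := by
      gcongr
    have h5 : 0 ≤ 3 * Real.log (N + 1) * W := by positivity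
    nlinarith
  · push Not at hnb
    rcases le_total (1 / (n : ℝ)) δ with h | h
    · refine (partA_mid hn h hδ0).trans (Real.exp_le_exp.mpr ?_)
      rw [← hW, ← hL]
      have h5 : 0 ≤ 3 * Real.log (N + 1) * W := by positivity
      have h6 : 0 ≤ 3 * Real.log (N + 1) * (√n * L ^ 2) := by positivity
      linarith
    · have h1 : (famA n δ).ncard ≤ (famA n (1 / n)).ncard := by
        apply Set.ncard_le_ncard _ (finite_famA n (by positivity))
        rintro f ⟨h1, h2, h3, h4⟩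
        exact ⟨h1, h2, h3, by linarith⟩
      have h2 : ((famA n δ).ncard : ℝ) ≤ (famA n (1 / n)).ncard := by exact_mod_cast h1
      refine h2.trans ((partA_mid hn le_rfl (by
        rw [div_le_div_iff₀ hn0 (by norm_num)]; linarith)).trans (Real.exp_le_exp.mpr ?_))
      rw [← hL, one_div_one_div, ← hL]
      have h3 : (n : ℝ) * (1 / n) ^ 2 * L ≤ 1 * L := by
        gcongr
        rw [div_pow, one_pow, mul_one_div, div_le_one (by positivity)]
        nlinarith
      have h4 : 3686400 * L ≤ (3686400 - 660) * (√n * L ^ 2) := by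
        have h7 : (120 : ℝ) ≤ √n := by
          apply Real.le_sqrt_of_sq_le
          linarith
        have h8 : 120 * (0.69 * L) ≤ √n * L ^ 2 := by
          rw [sq]; gcongr
        linarith
      have h5 : 0 ≤ 3 * Real.log (N + 1) * W := by positivity
      have h6 : 0 ≤ 3 * Real.log (N + 1) * (√n * L ^ 2) := by positivity
      have h7 : 0 ≤ 3686400 * W := by positivity
      linarith

end Pool.Agent.Helper79.LC
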