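import Pool.Agent.Helper79.LC.HiFam
import Pool.Agent.Helper79.LC.PartA

/-!
A crude exponential bound for the number of irreducible polynomials of bounded Mahler measure,
from congruences modulo five.
-/

open Finset

namespace Pool.Agent.Helper79.LC

/-- Energy between two disjoint root sets with very large resultant. -/
lemma EE_disjoint' {r : ℝ} (hr0 : 0 < r) (hr1 : r < 1) {S S' : Finset ℂ} {R : ℝ} (hR : 0 < R)
    (hd : ∀ a ∈ S, ∀ b ∈ S', a ≠ b) (hres : R ≤ ∏ a ∈ S, ∏ b ∈ S', ‖a - b‖) :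
    EE r S S' ≤ #S * #S' * Real.log (2 / (1 + r)) + #S' * LM S + #S * LM S' - Real.log R := by
  have h1 : EE r S S' ≤ ∑ a ∈ S, ∑ b ∈ S', (Real.log (2 / (1 + r)) - Real.log ‖a - b‖
      + Real.log (max 1 ‖a‖) + Real.log (max 1 ‖b‖)) :=
    sum_le_sum fun a ha => sum_le_sum fun b hb => kernel hr0 hr1 (hd a ha b hb)
  have h2 : ∑ a ∈ S, ∑ b ∈ S', Real.log ‖a - b‖ = Real.log (∏ a ∈ S, ∏ b ∈ S', ‖a - b‖) := by
    rw [Real.log_prod]
    · refine sum_congr rfl fun a ha => ?_
      rw [Real.log_prod]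
      intro b hb
      exact (norm_pos_iff.mpr (sub_ne_zero.mpr (hd a ha b hb))).ne'
    · intro a ha
      apply prod_ne_zero_iff.mpr
      intro b hb
      exact (norm_pos_iff.mpr (sub_ne_zero.mpr (hd a ha b hb))).ne'
  have h3 : Real.log R ≤ Real.log (∏ a ∈ S, ∏ b ∈ S', ‖a - b‖) := Real.log_le_log hR hres
  have h4 : ∑ a ∈ S, ∑ b ∈ S', (Real.log (2 / (1 + r)) - Real.log ‖a - b‖
      + Real.log (max 1 ‖a‖) + Real.log (max 1 ‖b‖)) =
      #S * #S' * Real.log (2 / (1 + r)) - ∑ a ∈ S, ∑ b ∈ S', Real.log ‖a - b‖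
      + #S' * LM S + #S * LM S' := by
    simp only [sum_add_distrib, sum_sub_distrib, sum_const, nsmul_eq_mul, LM, mul_sum]
    ring
  rw [h4, h2] at h1
  linarith

variable {f g : Polynomial ℤ}

lemma res_ge_mod (hm : f.Monic) (hf : Irreducible f) (hm' : g.Monic) (hg : Irreducible g)
    (hne : f ≠ g) {p : ℕ} {h : Polynomial ℤ} (hfg : g = f + Polynomial.C (p : ℤ) * h) :
    (p : ℝ) ^ f.natDegree ≤ ∏ a ∈ rt f, ∏ b ∈ rt g, ‖a - b‖ := by
  have hco := coprime_of_ne hm hf hm' hg hne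
  have hco' : IsCoprime (f.map (Int.castRingHom ℚ)) (h.map (Int.castRingHom ℚ)) := by
    rw [(map_irr hm hf).coprime_iff_not_dvd] at hco ⊢
    intro hd
    apply hco
    rw [hfg, Polynomial.map_add, Polynomial.map_mul]
    exact dvd_add dvd_rfl (hd.mul_left _)
  have h1 := prod_roots_eval hm hf h hco'
  have h2 : ∀ a ∈ rt f, ∏ b ∈ rt g, ‖a - b‖ = p * ‖(h.map (Int.castRingHom ℂ)).eval a‖ := by
    intro a ha
    have e1 : ∏ b ∈ rt g, ‖a - b‖ = ‖(g.map (Int.castRingHom ℂ)).eval a‖ := by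
      rw [(IsAlgClosed.splits (g.map (Int.castRingHom ℂ))).eval_eq_prod_roots_of_monic
        (hm'.map _), ← norm_prod, Finset.prod, rt_val hm' hg]
    have ha' : (f.map (Int.castRingHom ℂ)).eval a = 0 := by
      have h3 : a ∈ (f.map (Int.castRingHom ℂ)).roots := Multiset.mem_toFinset.mp ha
      exact (Polynomial.mem_roots'.mp h3).2
    rw [e1, hfg, Polynomial.map_add, Polynomial.map_mul, Polynomial.eval_add, ha',
      Polynomial.eval_mul, zero_add, norm_mul]
    simp
  rw [prod_congr rfl h2, prod_mul_distrib, prod_const, card_rt hm hf]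
  exact le_mul_of_one_le_right (by positivity) h1

/-- The crude bound. -/
theorem crude_count {n : ℕ} (hn : 2 ≤ n) {δ : ℝ} (hδ0 : 0 ≤ δ) (hδ : δ ≤ 1 / 2) :
    ((famA n δ).ncard : ℝ) ≤ Real.exp (20 * n) := by
  classical
  have hn0 : (0 : ℝ) < n := by positivity
  have hn2 : (2 : ℝ) ≤ n := by exact_mod_cast hn
  set L : ℝ := Real.log n with hL
  have hlog2 : 0.69 < Real.log 2 ∧ Real.log 2 < 0.7 :=
    ⟨lt_trans (by norm_num) Real.log_two_gt_d9, lt_trans Real.log_two_lt_d9 (by norm_num)⟩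
  have hL2 : 0.69 ≤ L := by
    have h2 := Real.log_le_log (by norm_num) hn2
    rw [← hL] at h2
    linarith [hlog2.1]
  set F : Finset (Polynomial ℤ) := (finite_famA n hδ0).toFinset with hF
  have hmem : ∀ f ∈ F, f.Monic ∧ Irreducible f ∧ f.natDegree = n ∧ MM f ≤ 1 + δ := by
    intro f hf
    rw [hF, Set.Finite.mem_toFinset] at hf
    exact hf
  have hncard : (famA n δ).ncard = #F := by
    rw [hF, Set.ncard_eq_toFinset_card _ (finite_famA n hδ0)]
  set r : ℝ := 1 - 1 / (8 * n) with hr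
  have h8n : 1 / (8 * (n : ℝ)) ≤ 1 / 16 := by
    rw [div_le_div_iff₀ (by positivity) (by norm_num)]; linarith
  have hr0 : 0 < r := by rw [hr]; linarith
  have hr1 : r < 1 := by
    have : 0 < 1 / (8 * (n : ℝ)) := by positivity
    rw [hr]; linarith
  have h1r : 1 - r = 1 / (8 * n) := by rw [hr]; ring
  have hlogM : ∀ f ∈ F, Real.log (MM f) ≤ 1 / 2 := by
    intro f hf
    obtain ⟨h1, h2, h3, h4⟩ := hmem f hf
    have h7 := Real.log_le_sub_one_of_pos (show 0 < MM f by linarith [one_le_MM h1 h2])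
    linarith
  have hself : ∀ f ∈ F, EE r (rt f) (rt f) ≤ 6 * n * L := by
    intro f hf
    obtain ⟨h1, h2, h3, h4⟩ := hmem f hf
    have h6 := EE_self_poly h1 h2 hr0 hr1
    have h7 := hlogM f hf
    rw [h3, h1r] at h6
    have h8 : Real.log (1 / (8 * (n : ℝ))) = - (3 * Real.log 2 + L) := by
      rw [one_div, Real.log_inv, Real.log_mul (by norm_num) hn0.ne',
        show (8 : ℝ) = 2 ^ 3 by norm_num, Real.log_pow]
      push_cast; ring
    have h9 : (n : ℝ) ^ 2 * (1 / (8 * n)) = n / 8 := by field_simp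
    rw [h8, h9] at h6
    have h10 : 2 * (n : ℝ) * Real.log (MM f) ≤ 2 * n * (1 / 2) := by gcongr
    have h11 : (n : ℝ) * (3 * Real.log 2 + L) + n / 8 + 2 * n * (1 / 2) ≤ n * (6 * L) := by
      have : (3 * Real.log 2 + L) + 1 / 8 + 1 ≤ 6 * L := by linarith [hlog2.2]
      have := mul_le_mul_of_nonneg_left this hn0.le
      linarith
    linarith
  -- classes modulo five
  set φ : Polynomial ℤ → (Fin n → ZMod 5) := fun f i => ((f.coeff i : ℤ) : ZMod 5) with hφ
  have hcong : ∀ f ∈ F, ∀ g ∈ F, φ f = φ g → ∃ h : Polynomial ℤ, g = f + Polynomial.C ((5 : ℕ) : ℤ) * h := by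
    intro f hf g hg hfg
    obtain ⟨f1, f2, f3, f4⟩ := hmem f hf
    obtain ⟨g1, g2, g3, g4⟩ := hmem g hg
    have : Polynomial.C ((5 : ℕ) : ℤ) ∣ g - f := by
      rw [Polynomial.C_dvd_iff_dvd_coeff]
      intro i
      rw [Polynomial.coeff_sub]
      rcases lt_trichotomy i n with hi | hi | hi
      · have := congrFun hfg ⟨i, hi⟩
        simp only [hφ] at this
        rw [ZMod.intCast_eq_intCast_iff_dvd_sub] at this
        exact this
      · rw [hi]
        have h1 : f.coeff n = 1 := by rw [← f3]; exact f1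
        have h2 : g.coeff n = 1 := by rw [← g3]; exact g1
        rw [h1, h2]; simp
      · rw [Polynomial.coeff_eq_zero_of_natDegree_lt (by omega),
          Polynomial.coeff_eq_zero_of_natDegree_lt (by omega)]
        simp
    obtain ⟨h, hh⟩ := this
    exact ⟨h, by rw [← hh]; ring⟩
  have hcross : ∀ f ∈ F, ∀ g ∈ F, φ f = φ g → f ≠ g → EE r (rt f) (rt g) ≤ - (n / 5) := by
    intro f hf g hg hfg hne
    obtain ⟨f1, f2, f3, f4⟩ := hmem f hf
    obtain ⟨g1, g2, g3, g4⟩ := hmem g hg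
    obtain ⟨h, hh⟩ := hcong f hf g hg hfg
    have h1 := EE_disjoint' hr0 hr1 (R := ((5 : ℕ) : ℝ) ^ f.natDegree) (by positivity)
      (rt_ne f1 f2 g1 g2 hne) (res_ge_mod f1 f2 g1 g2 hne hh)
    rw [card_rt f1 f2, card_rt g1 g2, LM_eq f1 f2, LM_eq g1 g2, f3, g3, Real.log_pow] at h1
    have h2 := log_r hr0 hr1
    rw [h1r] at h2
    have h3 : (n : ℝ) * n * Real.log (2 / (1 + r)) ≤ n * n * (1 / (8 * n)) := by gcongr
    have h4 : (n : ℝ) * n * (1 / (8 * n)) = n / 8 := by field_simp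
    have h5 : (1.38 : ℝ) ≤ Real.log ((5 : ℕ) : ℝ) := by
      have : Real.log (2 ^ 2) ≤ Real.log ((5 : ℕ) : ℝ) :=
        Real.log_le_log (by norm_num) (by norm_num)
      rw [Real.log_pow] at this
      push_cast at this ⊢
      linarith [hlog2.1]
    have h6 := mul_le_mul_of_nonneg_left h5 hn0.le
    have h7 := mul_le_mul_of_nonneg_left (hlogM f hf) hn0.le
    have h8 := mul_le_mul_of_nonneg_left (hlogM g hg) hn0.le
    linarith
  have hfib : ∀ c, (#(F.filter fun f => φ f = c) : ℝ) ≤ 32 * L := by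
    intro c
    set J := F.filter fun f => φ f = c with hJ
    have hJF : J ⊆ F := filter_subset _ _
    have h1 := family_energy hr0 hr1 0 J (fun f => rt f)
    have h2 : (0 : ℝ) ≤ ∑ i : Fin 0 × Bool, (∑ g ∈ J, xv r 0 (rt g) i) ^ 2 :=
      sum_nonneg fun _ _ => sq_nonneg _
    have h3 : ∑ f ∈ J, ∑ g ∈ J, EE r (rt f) (rt g) ≤
        ∑ f ∈ J, ∑ g ∈ J, ((if g = f then 6 * n * L + n / 5 else 0) + - ((n : ℝ) / 5)) := by
      refine sum_le_sum fun f hf => sum_le_sum fun g hg => ?_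
      split_ifs with h
      · subst h
        have := hself g (hJF hg)
        linarith
      · have := hcross f (hJF hf) g (hJF hg)
          ((mem_filter.mp hf).2.trans (mem_filter.mp hg).2.symm) (Ne.symm h)
        linarith
    have h4 : ∑ f ∈ J, ∑ g ∈ J, ((if g = f then 6 * n * L + n / 5 else 0) + - ((n : ℝ) / 5)) =
        #J * (6 * n * L + n / 5) - (#J : ℝ) ^ 2 * (n / 5) := by
      have : ∀ f ∈ J, ∑ g ∈ J, ((if g = f then 6 * n * L + n / 5 else 0) + - ((n : ℝ) / 5)) =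
          6 * n * L + n / 5 - #J * (n / 5) := by
        intro f hf
        rw [sum_add_distrib, sum_ite_eq' J f, if_pos hf, sum_const, nsmul_eq_mul]
        ring
      rw [sum_congr rfl this, sum_const, nsmul_eq_mul]; ring
    by_contra hc
    push Not at hc
    have hJ0 : (0 : ℝ) < #J := by linarith
    have h5 : (#J : ℝ) * ((n : ℝ) / 5 * (30 * L + 1 - #J)) ≥ 0 := by nlinarith
    have h6 : (n : ℝ) / 5 * (30 * L + 1 - #J) < 0 := by
      apply mul_neg_of_pos_of_neg (by positivity)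
      linarith
    have h7 := mul_neg_of_pos_of_neg hJ0 h6
    linarith
  have hcardF : (#F : ℝ) ≤ 5 ^ n * (32 * L) := by
    have h1 : #F = ∑ c : Fin n → ZMod 5, #(F.filter fun f => φ f = c) :=
      card_eq_sum_card_fiberwise (fun f _ => mem_univ _)
    rw [h1, Nat.cast_sum]
    refine (sum_le_sum fun c _ => hfib c).trans ?_
    rw [sum_const, card_univ, nsmul_eq_mul, Fintype.card_fun, Fintype.card_fin, ZMod.card]
    push_cast
    rfl
  rw [hncard]
  refine hcardF.trans ?_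
  have h1 : (5 : ℝ) ^ n ≤ Real.exp (2 * n) := by
    rw [show (2 : ℝ) * n = n * 2 by ring, Real.exp_nat_mul]
    gcongr
    have h2 := Real.add_one_le_exp (1 : ℝ)
    have h3 : Real.exp 2 = Real.exp 1 * Real.exp 1 := by rw [← Real.exp_add]; norm_num
    have h4 := Real.exp_one_gt_d9
    rw [h3]; nlinarith
  have h2 : 32 * L ≤ Real.exp (18 * n) := by
    have h3 : L ≤ n := (Real.log_le_sub_one_of_pos hn0).trans (by linarith)
    have h4 : 2 * (n : ℝ) ≤ Real.exp (2 * n) := by
      have := Real.add_one_le_exp (2 * (n : ℝ)); linarith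
    have h5 : (16 : ℝ) ≤ Real.exp (16 * n) := by
      have := Real.add_one_le_exp (16 * (n : ℝ)); linarith
    calc 32 * L ≤ 16 * (2 * n) := by linarith
      _ ≤ Real.exp (16 * n) * Real.exp (2 * n) := by gcongr
      _ = Real.exp (18 * n) := by rw [← Real.exp_add]; ring_nf
  calc (5 : ℝ) ^ n * (32 * L) ≤ Real.exp (2 * n) * Real.exp (18 * n) := by gcongr
    _ = Real.exp (20 * n) := by rw [← Real.exp_add]; ring_nf

end Pool.Agent.Helper79.LC
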