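import Pool.Agent.Helper79.LC.Ineq

/-!
Energies of finite root sets.
-/

open PowerSeries Finset

namespace Pool.Agent.Helper79.LC

/-- the reflected power sums, as complex numbers -/
noncomputable def ww (m : Multiset ℂ) (k : ℕ) : ℂ := coeff k (PW (m.map refl))

lemma wn_eq (m : Multiset ℂ) (k : ℕ) : wn m k = ‖ww m k‖ := rfl

lemma ww_val (S : Finset ℂ) {k : ℕ} (hk : k ≠ 0) : ww S.val k = ∑ a ∈ S, refl a ^ k := by
  simp only [ww, PW, coeff_mk, if_neg hk, Multiset.map_map]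
  rfl

lemma refl_norm_le (a : ℂ) : ‖refl a‖ ≤ 1 := by
  rw [refl]
  split_ifs with h
  · rw [norm_inv, RCLike.norm_conj]
    exact inv_le_one_of_one_le₀ h.le
  · exact not_lt.mp h

/-- logarithmic energy between two finite sets -/
noncomputable def EE (r : ℝ) (S S' : Finset ℂ) : ℝ :=
  ∑ a ∈ S, ∑ b ∈ S', - Real.log ‖1 - r * (refl a * starRingEnd ℂ (refl b))‖

lemma hasSum_EE {r : ℝ} (hr0 : 0 < r) (hr1 : r < 1) (S S' : Finset ℂ) :
    HasSum (fun k : ℕ => r ^ k / k * (ww S.val k * starRingEnd ℂ (ww S'.val k)).re) (EE r S S') := by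
  have h1 : ∀ a ∈ S, ∀ b ∈ S', HasSum (fun k : ℕ =>
      (((r : ℂ) * (refl a * starRingEnd ℂ (refl b))) ^ k / k).re)
      (- Real.log ‖1 - r * (refl a * starRingEnd ℂ (refl b))‖) := by
    intro a _ b _
    have h2 : ‖(r : ℂ) * (refl a * starRingEnd ℂ (refl b))‖ < 1 := by
      rw [norm_mul, norm_mul, RCLike.norm_conj, Complex.norm_real, Real.norm_of_nonneg hr0.le]
      have := refl_norm_le a
      have := refl_norm_le b
      calc r * (‖refl a‖ * ‖refl b‖) ≤ r * (1 * 1) := by gcongr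
        _ < 1 := by linarith
    have h3 := Complex.hasSum_re (Complex.hasSum_taylorSeries_neg_log h2)
    rwa [Complex.neg_re, Complex.log_re] at h3
  have h4 := hasSum_sum (fun a ha => hasSum_sum (h1 a ha))
  rw [EE]
  refine h4.congr_fun ?_ |> fun h => h
  intro k
  rcases Nat.eq_zero_or_pos k with h | h
  · subst h; simp
  · rw [ww_val S (by omega), ww_val S' (by omega)]
    have h5 : ∀ x : ℂ, ∀ y : ℂ, (((r : ℂ) * (x * y)) ^ k / k).re = r ^ k / k * (x ^ k * y ^ k).re := by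
      intro x y
      have : ((r : ℂ) * (x * y)) ^ k / k = ((r ^ k / k : ℝ) : ℂ) * (x ^ k * y ^ k) := by
        push_cast; ring
      rw [this, Complex.re_ofReal_mul]
    simp only [h5]
    rw [map_sum]
    simp only [map_pow]
    rw [sum_mul_sum, Complex.re_sum, mul_sum]
    refine sum_congr rfl fun a _ => ?_
    rw [Complex.re_sum, mul_sum]

lemma kernel1 {r : ℝ} (hr0 : 0 < r) (hr1 : r < 1) {z : ℂ} (hz : ‖z‖ ≤ 1) :
    ‖1 - z‖ ≤ 2 / (1 + r) * ‖1 - r * z‖ := by
  have h1 : (1 + r) * ‖1 - z‖ ≤ 2 * ‖1 - r * z‖ := by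
    apply le_of_sq_le_sq _ (by positivity)
    rw [mul_pow, mul_pow]
    have hz2 : z.re ^ 2 + z.im ^ 2 ≤ 1 := by
      have : ‖z‖ ^ 2 ≤ 1 := by nlinarith [norm_nonneg z]
      rwa [Complex.sq_norm, Complex.normSq_apply, ← sq, ← sq] at this
    simp only [Complex.sq_norm, Complex.normSq_apply, Complex.sub_re, Complex.sub_im,
      Complex.mul_re, Complex.mul_im, Complex.one_re, Complex.one_im, Complex.ofReal_re,
      Complex.ofReal_im]
    have h2 : z.re ^ 2 ≤ 1 := by nlinarith [sq_nonneg z.im]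
    have h3 : -1 ≤ z.re := by nlinarith
    have h4 : z.re ≤ 1 := by nlinarith
    -- reduce to `(1-r) * (...) ≥ 0`
    have h5 : 0 ≤ (1 - r) * ((3 + r) + 2 * (1 - r) * z.re - (1 + 3 * r) * (z.re ^ 2 + z.im ^ 2)) := by
      apply mul_nonneg (by linarith)
      have hs : 0 ≤ z.re ^ 2 + z.im ^ 2 := by positivity
      -- `z.re ≥ -√(re²+im²) ≥ ...`
      have h6 : (3 + r) + 2 * (1 - r) * z.re - (1 + 3 * r) * (z.re ^ 2 + z.im ^ 2) ≥ 0 := by
        by_cases hre : 0 ≤ z.re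
        · nlinarith
        · push_neg at hre
          -- with t² = re²+im², re ≥ -t
          set t := √(z.re ^ 2 + z.im ^ 2) with ht
          have ht0 : 0 ≤ t := Real.sqrt_nonneg _
          have ht2 : t ^ 2 = z.re ^ 2 + z.im ^ 2 := Real.sq_sqrt hs
          have ht1 : t ≤ 1 := by nlinarith
          have htr : -t ≤ z.re := by
            have : |z.re| ≤ t := Real.abs_le_sqrt (by nlinarith [sq_nonneg z.im])
            exact (abs_le.mp this).1
          rw [← ht2]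
          nlinarith [mul_nonneg (sub_nonneg.mpr ht1) ht0]
      exact h6
    nlinarith
  rw [div_mul_eq_mul_div, le_div_iff₀ (by linarith)]
  linarith

lemma kernel2 (a b : ℂ) :
    ‖a - b‖ ≤ ‖1 - refl a * starRingEnd ℂ (refl b)‖ * (max 1 ‖a‖ * max 1 ‖b‖) := by
  have key : ∀ x y : ℂ, ‖1 - x * starRingEnd ℂ y‖ ^ 2 - ‖x - y‖ ^ 2
      = (1 - ‖x‖ ^ 2) * (1 - ‖y‖ ^ 2) := by
    intro x y
    simp only [Complex.sq_norm, Complex.normSq_apply, Complex.sub_re, Complex.sub_im,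
      Complex.mul_re, Complex.mul_im, Complex.one_re, Complex.one_im, Complex.conj_re,
      Complex.conj_im]
    ring
  by_cases ha : 1 < ‖a‖ <;> by_cases hb : 1 < ‖b‖
  · have ha0 : a ≠ 0 := by rintro rfl; simp at ha; linarith
    have hb0 : b ≠ 0 := by rintro rfl; simp at hb; linarith
    have ha1 : starRingEnd ℂ a ≠ 0 := by simpa using ha0
    rw [refl, refl, if_pos ha, if_pos hb, max_eq_right ha.le, max_eq_right hb.le]
    have h1 : ‖1 - (starRingEnd ℂ a)⁻¹ * starRingEnd ℂ ((starRingEnd ℂ b)⁻¹)‖ * (‖a‖ * ‖b‖)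
        = ‖1 - a * starRingEnd ℂ b‖ := by
      have e1 : ‖a‖ * ‖b‖ = ‖starRingEnd ℂ a * b‖ := by rw [norm_mul, RCLike.norm_conj]
      rw [e1, ← norm_mul]
      have e2 : (1 - (starRingEnd ℂ a)⁻¹ * starRingEnd ℂ ((starRingEnd ℂ b)⁻¹)) *
          (starRingEnd ℂ a * b) = - (starRingEnd ℂ (1 - a * starRingEnd ℂ b)) := by
        simp only [map_inv₀, map_sub, map_one, map_mul, Complex.conj_conj]
        field_simp
        ring
      rw [e2, norm_neg, RCLike.norm_conj]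
    rw [h1]
    apply le_of_sq_le_sq _ (norm_nonneg _)
    have := key a b
    have h2 : 0 ≤ (1 - ‖a‖ ^ 2) * (1 - ‖b‖ ^ 2) := by
      have : 1 ≤ ‖a‖ ^ 2 := by nlinarith
      have : 1 ≤ ‖b‖ ^ 2 := by nlinarith
      nlinarith
    linarith
  · have ha0 : a ≠ 0 := by rintro rfl; simp at ha; linarith
    have ha1 : starRingEnd ℂ a ≠ 0 := by simpa using ha0
    rw [refl, refl, if_pos ha, if_neg hb, max_eq_right ha.le, max_eq_left (not_lt.mp hb), mul_one]
    apply le_of_eq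
    have e1 : ‖a‖ = ‖starRingEnd ℂ a‖ := by rw [RCLike.norm_conj]
    rw [e1, ← norm_mul]
    have e2 : (1 - (starRingEnd ℂ a)⁻¹ * starRingEnd ℂ b) * starRingEnd ℂ a
        = starRingEnd ℂ (a - b) := by
      rw [map_sub]
      field_simp
    rw [e2, RCLike.norm_conj]
  · have hb0 : b ≠ 0 := by rintro rfl; simp at hb; linarith
    rw [refl, refl, if_neg ha, if_pos hb, max_eq_right hb.le, max_eq_left (not_lt.mp ha), one_mul]
    apply le_of_eq
    rw [← norm_mul]
    have e2 : (1 - a * starRingEnd ℂ ((starRingEnd ℂ b)⁻¹)) * b = - (a - b) := by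
      simp only [map_inv₀, Complex.conj_conj]
      field_simp
      ring
    rw [e2, norm_neg]
  · rw [refl, refl, if_neg ha, if_neg hb, max_eq_left (not_lt.mp hb), max_eq_left (not_lt.mp ha),
      one_mul, mul_one]
    apply le_of_sq_le_sq _ (norm_nonneg _)
    have := key a b
    have h2 : 0 ≤ (1 - ‖a‖ ^ 2) * (1 - ‖b‖ ^ 2) := by
      have h3 := not_lt.mp ha
      have h4 := not_lt.mp hb
      have : ‖a‖ ^ 2 ≤ 1 := by nlinarith [norm_nonneg a]
      have : ‖b‖ ^ 2 ≤ 1 := by nlinarith [norm_nonneg b]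
      apply mul_nonneg <;> linarith
    linarith

lemma kernel {r : ℝ} (hr0 : 0 < r) (hr1 : r < 1) {a b : ℂ} (hab : a ≠ b) :
    - Real.log ‖1 - r * (refl a * starRingEnd ℂ (refl b))‖ ≤
      Real.log (2 / (1 + r)) - Real.log ‖a - b‖ + Real.log (max 1 ‖a‖) + Real.log (max 1 ‖b‖) := by
  have hz : ‖refl a * starRingEnd ℂ (refl b)‖ ≤ 1 := by
    rw [norm_mul, RCLike.norm_conj]
    have := refl_norm_le a
    have := refl_norm_le b
    calc ‖refl a‖ * ‖refl b‖ ≤ 1 * 1 := by gcongr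
      _ = 1 := by ring
  have h1 := kernel1 hr0 hr1 hz
  have h2 := kernel2 a b
  have hpos : 0 < ‖a - b‖ := norm_pos_iff.mpr (sub_ne_zero.mpr hab)
  have hM : 0 < max 1 ‖a‖ * max 1 ‖b‖ := by positivity
  have h3 : 0 < ‖1 - refl a * starRingEnd ℂ (refl b)‖ := by
    by_contra hc
    push_neg at hc
    have : ‖1 - refl a * starRingEnd ℂ (refl b)‖ = 0 := le_antisymm hc (norm_nonneg _)
    rw [this, zero_mul] at h2
    linarith
  have h4 : 0 < ‖1 - r * (refl a * starRingEnd ℂ (refl b))‖ := by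
    by_contra hc
    push_neg at hc
    have : ‖1 - r * (refl a * starRingEnd ℂ (refl b))‖ = 0 := le_antisymm hc (norm_nonneg _)
    rw [this, mul_zero] at h1
    linarith
  have h5 : ‖a - b‖ ≤ 2 / (1 + r) * ‖1 - r * (refl a * starRingEnd ℂ (refl b))‖ *
      (max 1 ‖a‖ * max 1 ‖b‖) := h2.trans (by gcongr)
  have h6 := Real.log_le_log hpos h5
  rw [Real.log_mul (by positivity) (by positivity), Real.log_mul (by positivity) (by positivity),
    Real.log_mul (by positivity) (by positivity)] at h6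
  linarith

lemma diag_kernel {r : ℝ} (hr0 : 0 < r) (hr1 : r < 1) (a : ℂ) :
    - Real.log ‖1 - r * (refl a * starRingEnd ℂ (refl a))‖ ≤ - Real.log (1 - r) := by
  have h1 : 1 - r ≤ ‖1 - r * (refl a * starRingEnd ℂ (refl a))‖ := by
    have h2 : ‖(r : ℂ) * (refl a * starRingEnd ℂ (refl a))‖ ≤ r := by
      rw [norm_mul, norm_mul, RCLike.norm_conj, Complex.norm_real, Real.norm_of_nonneg hr0.le]
      have := refl_norm_le a
      calc r * (‖refl a‖ * ‖refl a‖) ≤ r * (1 * 1) := by gcongr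
        _ = r := by ring
    have h3 := norm_sub_norm_le (1 : ℂ) ((r : ℂ) * (refl a * starRingEnd ℂ (refl a)))
    rw [norm_one] at h3
    linarith
  have := Real.log_le_log (by linarith) h1
  linarith

/-- logarithm of the Mahler measure of a root set -/
noncomputable def LM (S : Finset ℂ) : ℝ := ∑ a ∈ S, Real.log (max 1 ‖a‖)

lemma LM_nonneg (S : Finset ℂ) : 0 ≤ LM S :=
  sum_nonneg fun _ _ => Real.log_nonneg (le_max_left _ _)

/-- Energy between two disjoint root sets with large resultant. -/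
lemma EE_disjoint {r : ℝ} (hr0 : 0 < r) (hr1 : r < 1) {S S' : Finset ℂ}
    (hd : ∀ a ∈ S, ∀ b ∈ S', a ≠ b) (hres : 1 ≤ ∏ a ∈ S, ∏ b ∈ S', ‖a - b‖) :
    EE r S S' ≤ #S * #S' * Real.log (2 / (1 + r)) + #S' * LM S + #S * LM S' := by
  have h1 : EE r S S' ≤ ∑ a ∈ S, ∑ b ∈ S', (Real.log (2 / (1 + r)) - Real.log ‖a - b‖
      + Real.log (max 1 ‖a‖) + Real.log (max 1 ‖b‖)) :=
    sum_le_sum fun a ha => sum_le_sum fun b hb => kernel hr0 hr1 (hd a ha b hb)
  have h2 : ∑ a ∈ S, ∑ b ∈ S', Real.log ‖a - b‖ = Real.log (∏ a ∈ S, ∏ b ∈ S', ‖a - b‖) := by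
    rw [Real.log_prod]
    · refine sum_congr rfl fun a ha => ?_
      rw [Real.log_prod]
      intro b hb
      exact (norm_pos_iff.mpr (sub_ne_zero.mpr (hd a ha b hb))).ne'
    · intro a ha
      apply prod_ne_zero_iff.mpr
      intro b hb
      exact (norm_pos_iff.mpr (sub_ne_zero.mpr (hd a ha b hb))).ne'
  have h3 : 0 ≤ Real.log (∏ a ∈ S, ∏ b ∈ S', ‖a - b‖) := Real.log_nonneg hres
  have h4 : ∑ a ∈ S, ∑ b ∈ S', (Real.log (2 / (1 + r)) - Real.log ‖a - b‖
      + Real.log (max 1 ‖a‖) + Real.log (max 1 ‖b‖)) =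
      #S * #S' * Real.log (2 / (1 + r)) - ∑ a ∈ S, ∑ b ∈ S', Real.log ‖a - b‖
      + #S' * LM S + #S * LM S' := by
    simp only [sum_add_distrib, sum_sub_distrib, sum_const, nsmul_eq_mul, LM, mul_sum]
    ring
  rw [h4, h2] at h1
  linarith

/-- Self-energy of a root set with large discriminant. -/
lemma EE_self {r : ℝ} (hr0 : 0 < r) (hr1 : r < 1) {S : Finset ℂ}
    (hres : 1 ≤ ∏ a ∈ S, ∏ b ∈ S.erase a, ‖a - b‖) :
    EE r S S ≤ - #S * Real.log (1 - r) + #S * #S * Real.log (2 / (1 + r)) + 2 * #S * LM S := by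
  classical
  have hlog : 0 ≤ Real.log (2 / (1 + r)) := by
    apply Real.log_nonneg
    rw [le_div_iff₀ (by linarith)]; linarith
  have h1 : EE r S S ≤ ∑ a ∈ S, (- Real.log (1 - r) + ∑ b ∈ S.erase a, (Real.log (2 / (1 + r))
      - Real.log ‖a - b‖ + Real.log (max 1 ‖a‖) + Real.log (max 1 ‖b‖))) := by
    refine sum_le_sum fun a ha => ?_
    rw [← add_sum_erase S _ ha]
    refine add_le_add (diag_kernel hr0 hr1 a) (sum_le_sum fun b hb => ?_)
    exact kernel hr0 hr1 (ne_of_mem_erase hb).symm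
  have h2 : ∑ a ∈ S, ∑ b ∈ S.erase a, Real.log ‖a - b‖
      = Real.log (∏ a ∈ S, ∏ b ∈ S.erase a, ‖a - b‖) := by
    have hne : ∀ a ∈ S, ∀ b ∈ S.erase a, ‖a - b‖ ≠ 0 := fun a _ b hb =>
      (norm_pos_iff.mpr (sub_ne_zero.mpr (ne_of_mem_erase hb).symm)).ne'
    rw [Real.log_prod]
    · refine sum_congr rfl fun a ha => ?_
      rw [Real.log_prod]
      exact hne a ha
    · intro a ha
      exact prod_ne_zero_iff.mpr (hne a ha)
  have h3 : 0 ≤ Real.log (∏ a ∈ S, ∏ b ∈ S.erase a, ‖a - b‖) := Real.log_nonneg hres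
  have h4 : ∀ a ∈ S, ∑ b ∈ S.erase a, (Real.log (2 / (1 + r))
      - Real.log ‖a - b‖ + Real.log (max 1 ‖a‖) + Real.log (max 1 ‖b‖)) ≤
      #S * Real.log (2 / (1 + r)) - ∑ b ∈ S.erase a, Real.log ‖a - b‖ + #S * Real.log (max 1 ‖a‖)
        + LM S := by
    intro a ha
    simp only [sum_add_distrib, sum_sub_distrib, sum_const, nsmul_eq_mul]
    have hc : (#(S.erase a) : ℝ) ≤ #S := by exact_mod_cast card_le_card (erase_subset a S)
    have hl : 0 ≤ Real.log (max 1 ‖a‖) := Real.log_nonneg (le_max_left _ _)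
    have h5 : ∑ b ∈ S.erase a, Real.log (max 1 ‖b‖) ≤ LM S :=
      sum_le_sum_of_subset_of_nonneg (erase_subset a S)
        (fun _ _ _ => Real.log_nonneg (le_max_left _ _))
    have h6 : (#(S.erase a) : ℝ) * Real.log (2 / (1 + r)) ≤ #S * Real.log (2 / (1 + r)) := by gcongr
    have h7 : (#(S.erase a) : ℝ) * Real.log (max 1 ‖a‖) ≤ #S * Real.log (max 1 ‖a‖) := by gcongr
    linarith
  have h5 : ∑ a ∈ S, (- Real.log (1 - r) + ∑ b ∈ S.erase a, (Real.log (2 / (1 + r))
      - Real.log ‖a - b‖ + Real.log (max 1 ‖a‖) + Real.log (max 1 ‖b‖))) ≤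
      ∑ a ∈ S, (- Real.log (1 - r) + (#S * Real.log (2 / (1 + r))
        - ∑ b ∈ S.erase a, Real.log ‖a - b‖ + #S * Real.log (max 1 ‖a‖) + LM S)) := by
    refine sum_le_sum fun a ha => ?_
    have := h4 a ha
    linarith
  have h6 : ∑ a ∈ S, (- Real.log (1 - r) + (#S * Real.log (2 / (1 + r))
        - ∑ b ∈ S.erase a, Real.log ‖a - b‖ + #S * Real.log (max 1 ‖a‖) + LM S)) =
      - #S * Real.log (1 - r) + #S * #S * Real.log (2 / (1 + r))
        - ∑ a ∈ S, ∑ b ∈ S.erase a, Real.log ‖a - b‖ + 2 * #S * LM S := by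
    simp only [sum_add_distrib, sum_sub_distrib, sum_const, nsmul_eq_mul, ← mul_sum]
    have : ∑ a ∈ S, Real.log (max 1 ‖a‖) = LM S := rfl
    rw [this]
    ring
  rw [h6, h2] at h5
  linarith

end Pool.Agent.Helper79.LC
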