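import Pool.Agent.Helper79.LC.Crude

/-!
The count of irreducible polynomials of Mahler measure close to one, final form.
-/

open Finset

namespace Pool.Agent.Helper79.LC

theorem partA_monic' : ∃ C : ℝ, 0 < C ∧ ∀ (n : ℕ) (δ : ℝ), 2 ≤ n → 0 < δ → δ ≤ 1 / 2 →
    ((famA n δ).ncard : ℝ) ≤
      Real.exp (C * (n * δ ^ 2 * Real.log (1 / δ) + √n * Real.log n ^ 2)) := by
  obtain ⟨C, hC, h⟩ := partA_monic
  refine ⟨C + 20 * 14400 ^ 2 * 2, by positivity, ?_⟩
  intro n δ hn hδ hδ2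
  have hn0 : (0 : ℝ) < n := by positivity
  have hl0 : 0 ≤ Real.log (1 / δ) := by
    apply Real.log_nonneg
    rw [le_div_iff₀ hδ]; linarith
  set W : ℝ := n * δ ^ 2 * Real.log (1 / δ) with hW
  have hW0 : 0 ≤ W := by positivity
  have hQ0 : 0 ≤ √(n : ℝ) * Real.log n ^ 2 := by positivity
  rcases le_total δ (1 / 14400) with h1 | h1
  · refine (h n δ hn hδ h1).trans (Real.exp_le_exp.mpr ?_)
    rw [← hW]
    gcongr
    linarith
  · refine (crude_count hn hδ.le hδ2).trans (Real.exp_le_exp.mpr ?_)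
    have h2 : 1 / 2 ≤ Real.log (1 / δ) := by
      have h3 : Real.log 2 ≤ Real.log (1 / δ) := by
        apply Real.log_le_log (by norm_num)
        rw [le_div_iff₀ hδ]; linarith
      have := Real.log_two_gt_d9
      linarith
    have h3 : (n : ℝ) * (1 / 14400) ^ 2 * (1 / 2) ≤ W := by
      rw [hW]
      gcongr
    have h4 : 0 ≤ C * (W + √(n : ℝ) * Real.log n ^ 2) := by positivity
    have h5 : 0 ≤ 20 * 14400 ^ 2 * 2 * (√(n : ℝ) * Real.log n ^ 2) := by positivity
    have h6 : 20 * (n : ℝ) ≤ 20 * 14400 ^ 2 * 2 * W := by nlinarith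
    rw [add_mul, mul_add (20 * 14400 ^ 2 * 2)]
    linarith

lemma MM_neg (f : Polynomial ℤ) : MM (-f) = MM f := by
  rw [MM, MM, show -f = Polynomial.C (-1) * f by simp, Polynomial.map_mul,
    Polynomial.mahlerMeasure_mul, Polynomial.map_C, Polynomial.mahlerMeasure_const]
  simp

lemma monic_or {f : Polynomial ℤ} (hf : f ≠ 0) (h : MM f < 2) : f.Monic ∨ (-f).Monic := by
  have h1 := Polynomial.leadingCoeff_le_mahlerMeasure (f.map (Int.castRingHom ℂ))
  have h2 : (f.map (Int.castRingHom ℂ)).leadingCoeff = (f.leadingCoeff : ℂ) := by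
    rw [Polynomial.leadingCoeff_map_of_injective (RingHom.injective_int _)]
    rfl
  rw [h2, Complex.norm_intCast] at h1
  have h3 : |f.leadingCoeff| < 2 := by
    have : |(f.leadingCoeff : ℝ)| < 2 := lt_of_le_of_lt h1 h
    exact_mod_cast this
  have h4 : f.leadingCoeff ≠ 0 := Polynomial.leadingCoeff_ne_zero.mpr hf
  rw [abs_lt] at h3
  have h5 : f.leadingCoeff = 1 ∨ f.leadingCoeff = -1 := by omega
  rcases h5 with h5 | h5
  · exact Or.inl h5
  · right
    rw [Polynomial.Monic, Polynomial.leadingCoeff_neg, h5]; rfl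

/-- Irreducible integer polynomials of degree `n` and Mahler measure at most `1 + δ`. -/
def famI (n : ℕ) (δ : ℝ) : Set (Polynomial ℤ) :=
  {f | Irreducible f ∧ f.natDegree = n ∧ MM f ≤ 1 + δ}

lemma finite_famI (n : ℕ) {δ : ℝ} (hδ : 0 ≤ δ) : (famI n δ).Finite := by
  refine (finite_MM n (1 + δ) (by linarith)).subset ?_
  rintro f ⟨_, h1, h2⟩
  exact ⟨h1.le, h2⟩

lemma famI_card (n : ℕ) {δ : ℝ} (hδ : 0 ≤ δ) (hδ2 : δ ≤ 1 / 2) :
    (famI n δ).ncard ≤ 2 * (famA n δ).ncard := by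
  have h1 : famI n δ ⊆ famA n δ ∪ (fun f => -f) '' famA n δ := by
    rintro f ⟨h1, h2, h3⟩
    rcases monic_or h1.ne_zero (by linarith) with h4 | h4
    · exact Or.inl ⟨h4, h1, h2, h3⟩
    · refine Or.inr ⟨-f, ⟨h4, ?_, ?_, ?_⟩, neg_neg f⟩
      · exact (Associated.irreducible_iff ⟨-1, by simp⟩).mp h1
      · rw [Polynomial.natDegree_neg, h2]
      · rw [MM_neg]; exact h3
  have h2 := Set.ncard_le_ncard h1 ((finite_famA n hδ).union ((finite_famA n hδ).image _))
  refine h2.trans ((Set.ncard_union_le _ _).trans ?_)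
  have h3 := Set.ncard_image_le (f := fun f : Polynomial ℤ => -f) (finite_famA n hδ)
  omega

theorem partA_final : ∃ C : ℝ, 0 < C ∧ ∀ (n : ℕ) (δ : ℝ), 2 ≤ n → 0 < δ → δ ≤ 1 / 2 →
    ((famI n δ).ncard : ℝ) ≤
      Real.exp (C * (n * δ ^ 2 * Real.log (1 / δ) + √n * Real.log n ^ 2)) := by
  obtain ⟨C, hC, h⟩ := partA_monic'
  refine ⟨C + 3, by positivity, ?_⟩
  intro n δ hn hδ hδ2
  have hn0 : (0 : ℝ) < n := by positivity
  have hn2 : (2 : ℝ) ≤ n := by exact_mod_cast hn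
  have hl0 : 0 ≤ Real.log (1 / δ) := by
    apply Real.log_nonneg
    rw [le_div_iff₀ hδ]; linarith
  set W : ℝ := n * δ ^ 2 * Real.log (1 / δ) with hW
  have hW0 : 0 ≤ W := by positivity
  have hL2 : 0.69 ≤ Real.log n := by
    have h1 := Real.log_two_gt_d9
    have h2 := Real.log_le_log (by norm_num) hn2
    linarith
  have hsn : 1 ≤ √(n : ℝ) := by
    apply Real.le_sqrt_of_sq_le
    linarith
  have hQ : 0.4 ≤ √(n : ℝ) * Real.log n ^ 2 := by nlinarith
  have h1 : ((famI n δ).ncard : ℝ) ≤ 2 * (famA n δ).ncard := by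
    exact_mod_cast famI_card n hδ.le hδ2
  have h2 : (2 : ℝ) ≤ Real.exp 1 := by
    have := Real.add_one_le_exp (1 : ℝ); linarith
  calc ((famI n δ).ncard : ℝ) ≤ 2 * (famA n δ).ncard := h1
    _ ≤ Real.exp 1 * Real.exp (C * (W + √n * Real.log n ^ 2)) := by
        gcongr
        exact h n δ hn hδ hδ2
    _ = Real.exp (1 + C * (W + √n * Real.log n ^ 2)) := by rw [Real.exp_add]
    _ ≤ _ := by
        apply Real.exp_le_exp.mpr
        rw [add_mul]
        linarith

end Pool.Agent.Helper79.LC
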