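import Pool.Agent.Helper79.LC.Bounds
import Pool.Agent.Helper79.LC.Code

/-!
Families of irreducible polynomials of small Mahler measure with large low-frequency energy.
-/

open Finset

namespace Pool.Agent.Helper79.LC

/-- coordinates of the low part of the reflected power sums -/
noncomputable def xv (r : ℝ) (κ : ℕ) (S : Finset ℂ) (i : Fin κ × Bool) : ℝ :=
  √(r ^ ((i.1 : ℕ) + 1) / ((i.1 : ℕ) + 1 : ℕ)) *
    (if i.2 then (ww S.val ((i.1 : ℕ) + 1)).re else (ww S.val ((i.1 : ℕ) + 1)).im)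

lemma sum_xv {r : ℝ} (hr : 0 ≤ r) (κ : ℕ) {γ : Type*} (J : Finset γ) (S : γ → Finset ℂ) :
    ∑ i, (∑ g ∈ J, xv r κ (S g) i) ^ 2 =
      ∑ j ∈ range κ, r ^ (j + 1) / (j + 1 : ℕ) * ‖∑ g ∈ J, ww (S g).val (j + 1)‖ ^ 2 := by
  rw [Fintype.sum_prod_type, ← Fin.sum_univ_eq_sum_range
    (fun j => r ^ (j + 1) / (j + 1 : ℕ) * ‖∑ g ∈ J, ww (S g).val (j + 1)‖ ^ 2)]
  refine sum_congr rfl fun j _ => ?_
  rw [Fintype.sum_bool]
  simp only [xv, if_true, Bool.false_eq_true, if_false]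
  rw [← mul_sum, ← mul_sum, mul_pow, mul_pow, Real.sq_sqrt (by positivity), ← mul_add,
    Complex.sq_norm, Complex.normSq_apply, Complex.re_sum, Complex.im_sum]
  ring

lemma xv_self {r : ℝ} (hr : 0 ≤ r) (κ : ℕ) (S : Finset ℂ) :
    ∑ i, xv r κ S i * xv r κ S i = ∑ j ∈ range (κ + 1), r ^ j / j * wn S.val j ^ 2 := by
  have h1 := sum_xv hr κ {()} (fun _ => S)
  simp only [sum_singleton] at h1
  rw [sum_range_succ' (n := κ)]
  simp only [CharP.cast_eq_zero, div_zero, zero_mul, add_zero]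
  rw [show ∑ i, xv r κ S i * xv r κ S i = ∑ i, xv r κ S i ^ 2 from
    sum_congr rfl fun _ _ => (sq _).symm, h1]
  rfl

/-- finite sums of the energy of a family -/
lemma family_energy {r : ℝ} (hr0 : 0 < r) (hr1 : r < 1) (κ : ℕ) {γ : Type*} (J : Finset γ)
    (S : γ → Finset ℂ) :
    ∑ i, (∑ g ∈ J, xv r κ (S g) i) ^ 2 ≤ ∑ f ∈ J, ∑ g ∈ J, EE r (S f) (S g) := by
  have h1 : HasSum (fun k : ℕ => ∑ f ∈ J, ∑ g ∈ J, r ^ k / k *
      (ww (S f).val k * starRingEnd ℂ (ww (S g).val k)).re) (∑ f ∈ J, ∑ g ∈ J, EE r (S f) (S g)) :=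
    hasSum_sum fun f _ => hasSum_sum fun g _ => hasSum_EE hr0 hr1 (S f) (S g)
  have h2 : ∀ k : ℕ, ∑ f ∈ J, ∑ g ∈ J, r ^ k / k *
      (ww (S f).val k * starRingEnd ℂ (ww (S g).val k)).re =
      r ^ k / k * ‖∑ g ∈ J, ww (S g).val k‖ ^ 2 := by
    intro k
    have e1 : (‖∑ g ∈ J, ww (S g).val k‖ ^ 2 : ℝ) =
        ((∑ g ∈ J, ww (S g).val k) * starRingEnd ℂ (∑ g ∈ J, ww (S g).val k)).re := by
      rw [Complex.mul_conj, Complex.ofReal_re, Complex.normSq_eq_norm_sq]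
    rw [e1, map_sum, sum_mul_sum, Complex.re_sum, mul_sum]
    refine sum_congr rfl fun f _ => ?_
    rw [Complex.re_sum, mul_sum]
  simp_rw [h2] at h1
  rw [sum_xv hr0.le]
  have h3 := sum_le_hasSum (range (κ + 1)) (fun k _ => by positivity) h1
  rw [sum_range_succ'] at h3
  simpa using h3

variable {f g : Polynomial ℤ}

/-- The count of polynomials with large low-frequency energy. -/
theorem hi_count {n κ m : ℕ} {δ Bκ : ℝ} (hn : 1 ≤ n) (hκ : κ ≤ n) (hm : 1 ≤ m) (hδ : 0 < δ)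
    (hδ1 : δ ≤ 1 / 2) (hB : 0 < Bκ) (F : Finset (Polynomial ℤ))
    (hF : ∀ f ∈ F, f.Monic ∧ Irreducible f ∧ f.natDegree = n ∧ MM f ≤ 1 + δ ∧
      Bκ ≤ AA (rt f).val κ)
    (hR : (#((univ : Finset (Fin κ × Bool)).sym m) : ℝ) * √(8 * n * δ / Bκ) ^ (2 * m - 1) ≤ 1 / 4) :
    (#F : ℝ) ≤ 4 * #((univ : Finset (Fin κ × Bool)).sym m) *
      ((Real.log (n / δ) + 3 * δ) / δ) := by
  classical
  have hn0 : (0 : ℝ) < n := by exact_mod_cast hn
  have hn1 : (1 : ℝ) ≤ n := by exact_mod_cast hn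
  have hx0 : 0 < δ / n := by positivity
  have hx1 : δ / n ≤ 1 / 2 := (div_le_self hδ.le hn1).trans hδ1
  set r : ℝ := 1 - δ / n with hr
  have hr0 : 0 < r := by rw [hr]; linarith
  have hr1 : r < 1 := by rw [hr]; linarith
  have hrn : 1 / 2 ≤ r ^ n := by
    apply pow_ge n (by linarith)
    have : (n : ℝ) * (δ / n) = δ := by field_simp
    rw [this]; exact hδ1
  have h1r : 1 - r = δ / n := by rw [hr]; ring
  have hlogδ : ∀ f ∈ F, Real.log (MM f) ≤ δ := by
    intro f hf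
    obtain ⟨h1, h2, h3, h4, h5⟩ := hF f hf
    have h6 := Real.log_le_log (by linarith [one_le_MM h1 h2]) h4
    have h7 := Real.log_le_sub_one_of_pos (show 0 < 1 + δ by linarith)
    linarith
  set P : ℝ := n * Real.log (n / δ) + 3 * n * δ with hP
  have hlog0 : 0 ≤ Real.log (n / δ) := by
    apply Real.log_nonneg
    rw [le_div_iff₀ hδ]; linarith
  have hP0 : 0 ≤ P := by positivity
  have hself : ∀ f ∈ F, EE r (rt f) (rt f) ≤ P := by
    intro f hf
    obtain ⟨h1, h2, h3, h4, h5⟩ := hF f hf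
    have h6 := EE_self_poly h1 h2 hr0 hr1
    have h7 := hlogδ f hf
    rw [h3, h1r] at h6
    have h8 : Real.log (δ / n) = - Real.log (n / δ) := by
      rw [← Real.log_inv, inv_div]
    have h9 : (n : ℝ) ^ 2 * (δ / n) = n * δ := by field_simp
    rw [h8, h9] at h6
    rw [hP]
    nlinarith
  have hcross : ∀ f ∈ F, ∀ g ∈ F, f ≠ g → EE r (rt f) (rt g) ≤ 3 * n * δ := by
    intro f hf g hg hne
    obtain ⟨h1, h2, h3, h4, h5⟩ := hF f hf
    obtain ⟨g1, g2, g3, g4, g5⟩ := hF g hg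
    have h6 := EE_ne_poly h1 h2 g1 g2 hne (by rw [h3, g3]) hr0 hr1
    have h7 := hlogδ f hf
    have h8 := hlogδ g hg
    rw [h3, h1r] at h6
    have h9 : (n : ℝ) ^ 2 * (δ / n) = n * δ := by field_simp
    rw [h9] at h6
    nlinarith
  have key := code_bound (ι := Fin κ × Bool) F (fun f => xv r κ (rt f)) m hm
    (Δ := Bκ / 2) (P := P) (τ := 3 * n * δ) (θ := n * δ) (by positivity) hP0 (by positivity)
    (by positivity) ?_ ?_ ?_
  · refine key.trans (le_of_eq ?_)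
    rw [hP]
    field_simp
  · intro f hf
    obtain ⟨h1, h2, h3, h4, h5⟩ := hF f hf
    rw [xv_self hr0.le]
    have h6 := AA_le_EE hr0 hr1 (rt f) n hrn hκ
    linarith
  · intro J hJ
    refine (family_energy hr0 hr1 κ J (fun f => rt f)).trans ?_
    calc ∑ f ∈ J, ∑ g ∈ J, EE r (rt f) (rt g)
        ≤ ∑ f ∈ J, ∑ g ∈ J, ((if g = f then P else 0) + 3 * n * δ) := by
          refine sum_le_sum fun f hf => sum_le_sum fun g hg => ?_
          have h3nd : 0 ≤ 3 * n * δ := by positivity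
          split_ifs with h
          · subst h
            have := hself g (hJ hg)
            linarith
          · have := hcross f (hJ hf) g (hJ hg) (Ne.symm h)
            linarith
      _ = ∑ f ∈ J, (P + #J * (3 * n * δ)) := by
          refine sum_congr rfl fun f hf => ?_
          rw [sum_add_distrib, sum_ite_eq' J f, if_pos hf, sum_const, nsmul_eq_mul]
      _ = #J * P + (#J : ℝ) ^ 2 * (3 * n * δ) := by
          rw [sum_const, nsmul_eq_mul]; ring
  · have : (3 * n * δ + n * δ) / (Bκ / 2) = 8 * n * δ / Bκ := by field_simp; ring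
    rw [this]
    exact hR

end Pool.Agent.Helper79.LC
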