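import Pool.Agent.Helper79.LC.Branch

/-!
Real inequalities deduced from the branching identity.
-/

open PowerSeries Finset

namespace Pool.Agent.Helper79.LC

/-- absolute values of the reflected power sums -/
noncomputable def wn (m : Multiset ℂ) (k : ℕ) : ℝ := ‖coeff k (PW (m.map refl))‖

/-- truncated energy -/
noncomputable def AA (m : Multiset ℂ) (k : ℕ) : ℝ := ∑ j ∈ range (k + 1), wn m j ^ 2 / j

/-- weighted local energy -/
noncomputable def VV (s : ℝ) (m : Multiset ℂ) (k : ℕ) : ℝ :=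
  ∑ i ∈ range (k / 2 + 1), wn m (k - i) ^ 2 / (1 + i / s)

lemma wn_nonneg (m : Multiset ℂ) (k : ℕ) : 0 ≤ wn m k := norm_nonneg _

lemma AA_nonneg (m : Multiset ℂ) (k : ℕ) : 0 ≤ AA m k :=
  sum_nonneg fun _ _ => by positivity

lemma AA_mono (m : Multiset ℂ) {k l : ℕ} (h : k ≤ l) : AA m k ≤ AA m l := by
  apply sum_le_sum_of_subset_of_nonneg
  · intro x; simp; omega
  · intros; positivity

lemma VV_nonneg {s : ℝ} (hs : 0 < s) (m : Multiset ℂ) (k : ℕ) : 0 ≤ VV s m k :=
  sum_nonneg fun _ _ => by positivity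

lemma wn_zero (m : Multiset ℂ) : wn m 0 = 0 := by simp [wn, PW]

/-- difference of the reflected power sums -/
noncomputable def un (m m' : Multiset ℂ) (k : ℕ) : ℝ :=
  ‖coeff k (PW (m.map refl) - PW (m'.map refl))‖

lemma un_le (m m' : Multiset ℂ) (k : ℕ) : un m m' k ≤ wn m k + wn m' k := by
  rw [un, map_sub]; exact norm_sub_le _ _

lemma un_nonneg (m m' : Multiset ℂ) (k : ℕ) : 0 ≤ un m m' k := norm_nonneg _

lemma un_zero (m m' : Multiset ℂ) : un m m' 0 = 0 := by simp [un, PW]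

lemma un_sq_le (m m' : Multiset ℂ) (k : ℕ) :
    un m m' k ^ 2 ≤ 2 * wn m k ^ 2 + 2 * wn m' k ^ 2 := by
  have h1 := un_le m m' k
  have h2 := un_nonneg m m' k
  nlinarith [sq_nonneg (wn m k - wn m' k), wn_nonneg m k, wn_nonneg m' k]

/-- The branching identity, in absolute values. -/
lemma branch_abs (m m' : Multiset ℂ) (k : ℕ)
    (h : ∀ j < k, coeff j (HH m) = coeff j (HH m')) :
    (k : ℝ) * ‖coeff k (HH m) - coeff k (HH m')‖ ≤
      ∑ i ∈ range (k + 1), |(i : ℝ) - (k - i : ℕ)| *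
        (‖coeff i (BQ (out m))‖ * ‖coeff (k - i) (BQ (out m'))‖)
      + ∑ i ∈ range (k + 1), ‖coeff i (BQ (out m + out m'))‖ * un m m' (k - i) := by
  have h1 := branch m m' k h
  have h2 : (k : ℝ) * ‖coeff k (HH m) - coeff k (HH m')‖
      = ‖(k : ℂ) * (coeff k (HH m) - coeff k (HH m'))‖ := by
    rw [norm_mul, Complex.norm_natCast]
  rw [h2, h1]
  refine (norm_sub_le _ _).trans (add_le_add ?_ ?_)
  · rw [Finset.Nat.sum_antidiagonal_eq_sum_range_succ
      (f := fun a b => ((a : ℂ) - b) * (coeff a (BQ (out m)) * coeff b (BQ (out m'))))]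
    refine (norm_sum_le _ _).trans (le_of_eq (sum_congr rfl fun i _ => ?_))
    rw [norm_mul, norm_mul]
    congr 1
    have : ((i : ℂ) - ((k - i : ℕ) : ℂ)) = (((i : ℝ) - ((k - i : ℕ) : ℝ) : ℝ) : ℂ) := by push_cast; ring
    rw [this, Complex.norm_real, Real.norm_eq_abs]
  · rw [Finset.Nat.sum_antidiagonal_eq_sum_range_succ
      (f := fun a b => coeff a (BQ (out m + out m')) * coeff b
        (PW (m.map refl) - PW (m'.map refl)))]
    refine (norm_sum_le _ _).trans (le_of_eq (sum_congr rfl fun i _ => ?_))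
    rw [norm_mul, un]

lemma out_gt (m : Multiset ℂ) : ∀ a ∈ out m, 1 < ‖a‖ := by
  intro a ha
  exact (Multiset.mem_filter.mp ha).2

lemma out_add_gt (m m' : Multiset ℂ) : ∀ a ∈ out m + out m', 1 < ‖a‖ := by
  intro a ha
  rcases Multiset.mem_add.mp ha with h | h
  · exact out_gt m a h
  · exact out_gt m' a h

lemma sum_reflect (f : ℕ → ℝ) (k : ℕ) :
    ∑ i ∈ range (k + 1), f (k - i) = ∑ i ∈ range (k + 1), f i := by
  have := sum_range_reflect f (k + 1)
  simpa using this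

/-- The energy of the difference. -/
lemma sum_un_le (m m' : Multiset ℂ) (k : ℕ) :
    ∑ i ∈ range (k + 1), un m m' (k - i) ^ 2 / ((k - i : ℕ) : ℝ) ≤ 2 * AA m k + 2 * AA m' k := by
  rw [sum_reflect (fun j => un m m' j ^ 2 / (j : ℝ)) k, AA, AA, mul_sum, mul_sum,
    ← sum_add_distrib]
  refine sum_le_sum fun j _ => ?_
  rw [← mul_div_assoc, ← mul_div_assoc, ← add_div]
  exact div_le_div_of_nonneg_right (un_sq_le m m' j) (by positivity)

lemma un_sq_le_mul (m m' : Multiset ℂ) (k i : ℕ) (c : ℝ) (hc : ((k - i : ℕ) : ℝ) ≤ c) :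
    un m m' (k - i) ^ 2 ≤ c * (un m m' (k - i) ^ 2 / ((k - i : ℕ) : ℝ)) := by
  rcases Nat.eq_zero_or_pos (k - i) with h | h
  · rw [h, un_zero]; simp
  · have : (0 : ℝ) < ((k - i : ℕ) : ℝ) := by exact_mod_cast h
    rw [← mul_div_assoc, le_div_iff₀ this, mul_comm]
    gcongr

/-- Branching inequality when both Mahler measures are close to one. -/
theorem branchA {m m' : Multiset ℂ} {η : ℝ} (hη : 0 ≤ η) (hη1 : η ≤ 1)
    (hm : mm (out m) ^ 2 ≤ 1 + η) (hm' : mm (out m') ^ 2 ≤ 1 + η) {k : ℕ} (hk : 1 ≤ k)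
    (h : ∀ j < k, coeff j (HH m) = coeff j (HH m')) :
    (k : ℝ) * ‖coeff k (HH m) - coeff k (HH m')‖ ≤
      k * (2 * √η + η) + (wn m k + wn m' k) + √(3 * η) * √(2 * k * (AA m k + AA m' k)) := by
  refine (branch_abs m m' k h).trans ?_
  have hN : ∀ l : Multiset ℂ, (∀ a ∈ l, 1 < ‖a‖) → ∀ B : ℝ, mm l ^ 2 ≤ 1 + B →
      ∑ i ∈ Ico 1 (k + 1), ‖coeff i (BQ l)‖ ^ 2 ≤ B := by
    intro l hl B hB
    have h1 := NN_BQ' k l hl
    rw [NN, ← sum_range_add_sum_Ico _ (show 1 ≤ k + 1 by omega)] at h1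
    simp only [range_one, sum_singleton, coeff_zero_BQ, norm_one, one_pow] at h1
    linarith
  have hq := hN _ (out_gt m) η hm
  have hq' := hN _ (out_gt m') η hm'
  have hφ : ∑ i ∈ Ico 1 (k + 1), ‖coeff i (BQ (out m + out m'))‖ ^ 2 ≤ 3 * η := by
    apply hN _ (out_add_gt m m')
    rw [mm_add, mul_pow]
    have h0 : 0 ≤ mm (out m) ^ 2 := by positivity
    calc mm (out m) ^ 2 * mm (out m') ^ 2 ≤ (1 + η) * (1 + η) := by gcongr
      _ ≤ 1 + 3 * η := by nlinarith
  -- single coefficients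
  have hsingle : ∀ l : Multiset ℂ, ∑ i ∈ Ico 1 (k + 1), ‖coeff i (BQ l)‖ ^ 2 ≤ η →
      ‖coeff k (BQ l)‖ ≤ √η := by
    intro l hl
    apply Real.le_sqrt_of_sq_le
    refine le_trans ?_ hl
    exact single_le_sum (f := fun i => ‖coeff i (BQ l)‖ ^ 2) (fun i _ => by positivity)
      (by simp; omega)
  have hb1 := hsingle _ hq
  have hb2 := hsingle _ hq'
  have hβ : ∑ i ∈ range (k + 1), |(i : ℝ) - (k - i : ℕ)| *
        (‖coeff i (BQ (out m))‖ * ‖coeff (k - i) (BQ (out m'))‖) ≤ k * (2 * √η + η) := by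
    obtain ⟨l, rfl⟩ : ∃ l, k = l + 1 := ⟨k - 1, by omega⟩
    rw [sum_range_succ, sum_range_succ']
    have e1 : ∑ i ∈ range l, |((i + 1 : ℕ) : ℝ) - ((l + 1 - (i + 1) : ℕ) : ℝ)| *
        (‖coeff (i + 1) (BQ (out m))‖ * ‖coeff (l + 1 - (i + 1)) (BQ (out m'))‖)
        ≤ ((l + 1 : ℕ) : ℝ) * η := by
      have e2 : ∀ i ∈ range l, |((i + 1 : ℕ) : ℝ) - ((l + 1 - (i + 1) : ℕ) : ℝ)| *
        (‖coeff (i + 1) (BQ (out m))‖ * ‖coeff (l + 1 - (i + 1)) (BQ (out m'))‖) ≤
        ((l + 1 : ℕ) : ℝ) * (‖coeff (i + 1) (BQ (out m))‖ * ‖coeff (l - i) (BQ (out m'))‖) := by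
        intro i hi
        rw [mem_range] at hi
        have : l + 1 - (i + 1) = l - i := by omega
        rw [this]
        gcongr
        rw [abs_le]
        have h3 : ((l - i : ℕ) : ℝ) = l - i := by push_cast [Nat.cast_sub hi.le]; ring
        rw [h3]
        have : (i : ℝ) < l := by exact_mod_cast hi
        push_cast
        constructor <;> linarith [show (0:ℝ) ≤ i by positivity]
      refine (sum_le_sum e2).trans ?_
      rw [← mul_sum]
      gcongr
      refine (Real.sum_mul_le_sqrt_mul_sqrt _ _ _).trans ?_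
      have e3 : ∑ i ∈ range l, ‖coeff (i + 1) (BQ (out m))‖ ^ 2 ≤ η := by
        refine le_trans ?_ hq
        rw [sum_Ico_eq_sum_range]
        have : l + 1 + 1 - 1 = l + 1 := by omega
        rw [this, sum_range_succ]
        have : ∀ i ∈ range l, ‖coeff (i + 1) (BQ (out m))‖ ^ 2 = ‖coeff (1 + i) (BQ (out m))‖ ^ 2 := by
          intro i _; rw [add_comm]
        rw [sum_congr rfl this]
        have : 0 ≤ ‖coeff (1 + l) (BQ (out m))‖ ^ 2 := by positivity
        linarith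
      have e4 : ∑ i ∈ range l, ‖coeff (l - i) (BQ (out m'))‖ ^ 2 ≤ η := by
        refine le_trans ?_ hq'
        rw [sum_Ico_eq_sum_range]
        have : l + 1 + 1 - 1 = l + 1 := by omega
        rw [this, sum_range_succ]
        have h5 := sum_range_reflect (fun j => ‖coeff (1 + j) (BQ (out m'))‖ ^ 2) l
        have : ∀ i ∈ range l, ‖coeff (l - i) (BQ (out m'))‖ ^ 2
            = (fun j => ‖coeff (1 + j) (BQ (out m'))‖ ^ 2) (l - 1 - i) := by
          intro i hi
          rw [mem_range] at hi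
          have : l - i = 1 + (l - 1 - i) := by omega
          simp only []
          rw [this]
        rw [sum_congr rfl this, h5]
        have : 0 ≤ ‖coeff (1 + l) (BQ (out m'))‖ ^ 2 := by positivity
        linarith
      calc √(∑ i ∈ range l, ‖coeff (i + 1) (BQ (out m))‖ ^ 2) *
            √(∑ i ∈ range l, ‖coeff (l - i) (BQ (out m'))‖ ^ 2) ≤ √η * √η := by gcongr
        _ = η := Real.mul_self_sqrt hη
    have e5 : |((l + 1 : ℕ) : ℝ) - ((l + 1 - (l + 1) : ℕ) : ℝ)| *
        (‖coeff (l + 1) (BQ (out m))‖ * ‖coeff (l + 1 - (l + 1)) (BQ (out m'))‖)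
        ≤ ((l + 1 : ℕ) : ℝ) * √η := by
      rw [Nat.sub_self, coeff_zero_BQ, norm_one, mul_one]
      simp only [CharP.cast_eq_zero, sub_zero]
      rw [abs_of_nonneg (by positivity)]
      gcongr
    have e6 : |((0 : ℕ) : ℝ) - ((l + 1 - 0 : ℕ) : ℝ)| *
        (‖coeff 0 (BQ (out m))‖ * ‖coeff (l + 1 - 0) (BQ (out m'))‖)
        ≤ ((l + 1 : ℕ) : ℝ) * √η := by
      rw [Nat.sub_zero, coeff_zero_BQ, norm_one, one_mul]
      simp only [CharP.cast_eq_zero, zero_sub, abs_neg]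
      rw [abs_of_nonneg (by positivity)]
      gcongr
    linarith
  have hu : ∑ i ∈ range (k + 1), ‖coeff i (BQ (out m + out m'))‖ * un m m' (k - i) ≤
      (wn m k + wn m' k) + √(3 * η) * √(2 * k * (AA m k + AA m' k)) := by
    rw [← sum_range_add_sum_Ico _ (show 1 ≤ k + 1 by omega)]
    simp only [range_one, sum_singleton, coeff_zero_BQ, norm_one, one_mul, Nat.sub_zero]
    refine add_le_add (un_le m m' k) ?_
    refine (Real.sum_mul_le_sqrt_mul_sqrt _ _ _).trans ?_
    gcongr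
    calc ∑ i ∈ Ico 1 (k + 1), un m m' (k - i) ^ 2
        ≤ ∑ i ∈ Ico 1 (k + 1), (k : ℝ) * (un m m' (k - i) ^ 2 / ((k - i : ℕ) : ℝ)) := by
          refine sum_le_sum fun i _ => un_sq_le_mul m m' k i k ?_
          exact_mod_cast Nat.sub_le k i
      _ ≤ ∑ i ∈ range (k + 1), (k : ℝ) * (un m m' (k - i) ^ 2 / ((k - i : ℕ) : ℝ)) := by
          apply sum_le_sum_of_subset_of_nonneg
          · intro x; simp
          · intros; positivity
      _ = (k : ℝ) * ∑ i ∈ range (k + 1), (un m m' (k - i) ^ 2 / ((k - i : ℕ) : ℝ)) := by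
          rw [mul_sum]
      _ ≤ k * (2 * AA m k + 2 * AA m' k) := by
          gcongr
          exact sum_un_le m m' k
      _ = 2 * k * (AA m k + AA m' k) := by ring
  linarith

lemma abs_weights (k i : ℕ) (hi : i ≤ k) : |(i : ℝ) - (k - i : ℕ)| ≤ i + (k - i : ℕ) := by
  rw [abs_le]
  have h1 : (0 : ℝ) ≤ i := by positivity
  have h2 : (0 : ℝ) ≤ ((k - i : ℕ) : ℝ) := by positivity
  constructor <;> linarith

/-- first term in the branching inequality, for general Mahler measures -/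
lemma beta_bound {l l' : Multiset ℂ} (hl : ∀ a ∈ l, 1 < ‖a‖) (hl' : ∀ a ∈ l', 1 < ‖a‖)
    {T s : ℝ} (hT : 0 ≤ T) (hm : mm l ≤ T) (hm' : mm l' ≤ T)
    (hs : (Multiset.card l : ℝ) ≤ s) (hs' : (Multiset.card l' : ℝ) ≤ s) (k : ℕ) :
    ∑ i ∈ range (k + 1), |(i : ℝ) - (k - i : ℕ)| *
        (‖coeff i (BQ l)‖ * ‖coeff (k - i) (BQ l')‖) ≤ 2 * T ^ 2 * √(s * k) := by
  have hs0 : 0 ≤ s := le_trans (by positivity) hs
  have hpos : ∀ l : Multiset ℂ, (∀ a ∈ l, 1 < ‖a‖) → 0 ≤ mm l := fun l hl =>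
    zero_le_one.trans (mm_pos l hl)
  have hN : ∀ l : Multiset ℂ, (∀ a ∈ l, 1 < ‖a‖) → mm l ≤ T → NN k (BQ l) ≤ T ^ 2 := by
    intro l hl hm
    refine (NN_BQ' k l hl).trans ?_
    have := hpos l hl
    gcongr
  have hW : ∀ l : Multiset ℂ, (∀ a ∈ l, 1 < ‖a‖) → mm l ≤ T → (Multiset.card l : ℝ) ≤ s →
      WN k (BQ l) ≤ T ^ 2 * s := by
    intro l hl hm hs
    refine (WN_BQ k l hl).trans ?_
    have := hpos l hl
    gcongr
  have key : ∀ l l' : Multiset ℂ, (∀ a ∈ l, 1 < ‖a‖) → (∀ a ∈ l', 1 < ‖a‖) → mm l ≤ T →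
      mm l' ≤ T → (Multiset.card l : ℝ) ≤ s →
      ∑ i ∈ range (k + 1), (i : ℝ) * (‖coeff i (BQ l)‖ * ‖coeff (k - i) (BQ l')‖)
        ≤ T ^ 2 * √(s * k) := by
    intro l l' hl hl' hm hm' hs
    have e1 : ∀ i ∈ range (k + 1), (i : ℝ) * (‖coeff i (BQ l)‖ * ‖coeff (k - i) (BQ l')‖)
        = (√i * ‖coeff i (BQ l)‖) * (√i * ‖coeff (k - i) (BQ l')‖) := by
      intro i _
      have : √(i : ℝ) * √(i : ℝ) = i := Real.mul_self_sqrt (by positivity)
      calc (i : ℝ) * (‖coeff i (BQ l)‖ * ‖coeff (k - i) (BQ l')‖)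
          = (√(i : ℝ) * √(i : ℝ)) * (‖coeff i (BQ l)‖ * ‖coeff (k - i) (BQ l')‖) := by rw [this]
        _ = _ := by ring
    rw [sum_congr rfl e1]
    refine (Real.sum_mul_le_sqrt_mul_sqrt _ _ _).trans ?_
    have e2 : ∑ i ∈ range (k + 1), (√(i : ℝ) * ‖coeff i (BQ l)‖) ^ 2 ≤ T ^ 2 * s := by
      refine le_trans (le_of_eq ?_) (hW l hl hm hs)
      rw [WN]
      refine sum_congr rfl fun i _ => ?_
      rw [mul_pow, Real.sq_sqrt (by positivity)]
    have e3 : ∑ i ∈ range (k + 1), (√(i : ℝ) * ‖coeff (k - i) (BQ l')‖) ^ 2 ≤ k * T ^ 2 := by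
      calc ∑ i ∈ range (k + 1), (√(i : ℝ) * ‖coeff (k - i) (BQ l')‖) ^ 2
          ≤ ∑ i ∈ range (k + 1), (k : ℝ) * ‖coeff (k - i) (BQ l')‖ ^ 2 := by
            refine sum_le_sum fun i hi => ?_
            rw [mul_pow, Real.sq_sqrt (by positivity)]
            have : (i : ℝ) ≤ k := by
              rw [mem_range] at hi; exact_mod_cast Nat.lt_succ_iff.mp hi
            gcongr
        _ = k * NN k (BQ l') := by
            rw [← mul_sum, sum_reflect (fun j => ‖coeff j (BQ l')‖ ^ 2) k, NN]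
        _ ≤ k * T ^ 2 := by
            gcongr
            exact hN l' hl' hm'
    calc √(∑ i ∈ range (k + 1), (√(i : ℝ) * ‖coeff i (BQ l)‖) ^ 2) *
          √(∑ i ∈ range (k + 1), (√(i : ℝ) * ‖coeff (k - i) (BQ l')‖) ^ 2)
        ≤ √(T ^ 2 * s) * √(k * T ^ 2) := by gcongr
      _ = √((T ^ 2) ^ 2 * (s * k)) := by
          rw [← Real.sqrt_mul (by positivity)]; congr 1; ring
      _ = T ^ 2 * √(s * k) := by
          rw [Real.sqrt_mul (by positivity), Real.sqrt_sq (by positivity)]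
  have h1 := key l l' hl hl' hm hm' hs
  have h2 := key l' l hl' hl hm' hm hs'
  rw [← sum_reflect] at h2
  have h3 : ∑ i ∈ range (k + 1), ((k - i : ℕ) : ℝ) *
      (‖coeff (k - i) (BQ l')‖ * ‖coeff (k - (k - i)) (BQ l)‖) =
      ∑ i ∈ range (k + 1), ((k - i : ℕ) : ℝ) *
      (‖coeff i (BQ l)‖ * ‖coeff (k - i) (BQ l')‖) := by
    refine sum_congr rfl fun i hi => ?_
    rw [mem_range] at hi
    rw [show k - (k - i) = i by omega]
    ring
  rw [h3] at h2
  calc _ ≤ ∑ i ∈ range (k + 1), ((i : ℝ) * (‖coeff i (BQ l)‖ * ‖coeff (k - i) (BQ l')‖) +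
        ((k - i : ℕ) : ℝ) * (‖coeff i (BQ l)‖ * ‖coeff (k - i) (BQ l')‖)) := by
        refine sum_le_sum fun i hi => ?_
        rw [mem_range] at hi
        rw [← add_mul]
        gcongr
        exact abs_weights k i (by omega)
    _ ≤ _ := by
        rw [sum_add_distrib]
        linarith

/-- Branching inequality for polynomials with few roots outside the unit disc. -/
theorem branchB {m m' : Multiset ℂ} {T s E : ℝ} (hT : 1 ≤ T) (hm : mm (out m) ≤ T)
    (hm' : mm (out m') ≤ T) (hs1 : 1 ≤ s) (hs : (Multiset.card (out m) : ℝ) ≤ s)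
    (hs' : (Multiset.card (out m') : ℝ) ≤ s) {k : ℕ} (hk : 1 ≤ k)
    (hE : AA m k ≤ E) (hE' : AA m' k ≤ E) (hV : VV s m' k ≤ VV s m k)
    (h : ∀ j < k, coeff j (HH m) = coeff j (HH m')) :
    (k : ℝ) * ‖coeff k (HH m) - coeff k (HH m')‖ ≤
      2 * T ^ 2 * √(s * k) + T ^ 2 * √(8 * s * E) + 4 * T ^ 2 * √(VV s m k) := by
  refine (branch_abs m m' k h).trans ?_
  have hT0 : (0 : ℝ) ≤ T := by linarith
  have hs0 : (0 : ℝ) < s := by linarith
  have hk0 : (0 : ℝ) < k := by exact_mod_cast hk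
  have hβ := beta_bound (out_gt m) (out_gt m') hT0 hm hm' hs hs' k
  set φ := BQ (out m + out m') with hφ
  have hmm : mm (out m + out m') ^ 2 ≤ T ^ 4 := by
    rw [mm_add]
    have h1 : 0 ≤ mm (out m) := zero_le_one.trans (mm_pos _ (out_gt m))
    have h2 : 0 ≤ mm (out m') := zero_le_one.trans (mm_pos _ (out_gt m'))
    calc (mm (out m) * mm (out m')) ^ 2 ≤ (T * T) ^ 2 := by gcongr
      _ = T ^ 4 := by ring
  have hN : NN k φ ≤ T ^ 4 := (NN_BQ' k _ (out_add_gt m m')).trans hmm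
  have hW : WN k φ ≤ T ^ 4 * (2 * s) := by
    refine (WN_BQ k _ (out_add_gt m m')).trans ?_
    have h3 : (Multiset.card (out m + out m') : ℝ) ≤ 2 * s := by
      rw [Multiset.card_add]; push_cast; linarith
    gcongr
  have hA0 := AA_nonneg m k
  have hE0 : 0 ≤ E := hA0.trans hE
  have hu : ∑ i ∈ range (k + 1), ‖coeff i φ‖ * un m m' (k - i) ≤
      T ^ 2 * √(8 * s * E) + 4 * T ^ 2 * √(VV s m k) := by
    rw [← sum_range_add_sum_Ico _ (show k / 2 + 1 ≤ k + 1 by omega)]
    -- near part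
    have e1 : ∑ i ∈ range (k / 2 + 1), ‖coeff i φ‖ * un m m' (k - i) ≤
        4 * T ^ 2 * √(VV s m k) := by
      have f1 : ∀ i ∈ range (k / 2 + 1), ‖coeff i φ‖ * un m m' (k - i) =
          (√(1 + i / s) * ‖coeff i φ‖) * (un m m' (k - i) / √(1 + i / s)) := by
        intro i _
        have : √(1 + (i : ℝ) / s) ≠ 0 := by positivity
        field_simp
      rw [sum_congr rfl f1]
      refine (Real.sum_mul_le_sqrt_mul_sqrt _ _ _).trans ?_
      have f2 : ∑ i ∈ range (k / 2 + 1), (√(1 + (i : ℝ) / s) * ‖coeff i φ‖) ^ 2 ≤ 3 * T ^ 4 := by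
        calc ∑ i ∈ range (k / 2 + 1), (√(1 + (i : ℝ) / s) * ‖coeff i φ‖) ^ 2
            = ∑ i ∈ range (k / 2 + 1), (‖coeff i φ‖ ^ 2 + (i * ‖coeff i φ‖ ^ 2) / s) := by
              refine sum_congr rfl fun i _ => ?_
              rw [mul_pow, Real.sq_sqrt (by positivity)]
              ring
          _ ≤ ∑ i ∈ range (k + 1), (‖coeff i φ‖ ^ 2 + (i * ‖coeff i φ‖ ^ 2) / s) := by
              apply sum_le_sum_of_subset_of_nonneg
              · intro x; simp; omega
              · intros; positivity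
          _ = NN k φ + WN k φ / s := by
              rw [sum_add_distrib, NN, WN, sum_div]
          _ ≤ T ^ 4 + T ^ 4 * (2 * s) / s := by gcongr
          _ = 3 * T ^ 4 := by field_simp; ring
      have f3 : ∑ i ∈ range (k / 2 + 1), (un m m' (k - i) / √(1 + (i : ℝ) / s)) ^ 2
          ≤ 4 * VV s m k := by
        calc ∑ i ∈ range (k / 2 + 1), (un m m' (k - i) / √(1 + (i : ℝ) / s)) ^ 2
            ≤ ∑ i ∈ range (k / 2 + 1), (2 * (wn m (k - i) ^ 2 / (1 + i / s))
              + 2 * (wn m' (k - i) ^ 2 / (1 + i / s))) := by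
              refine sum_le_sum fun i _ => ?_
              rw [div_pow, Real.sq_sqrt (by positivity), ← mul_div_assoc, ← mul_div_assoc,
                ← add_div]
              exact div_le_div_of_nonneg_right (un_sq_le m m' (k - i)) (by positivity)
          _ = 2 * VV s m k + 2 * VV s m' k := by
              rw [sum_add_distrib, ← mul_sum, ← mul_sum, VV, VV]
          _ ≤ 4 * VV s m k := by linarith
      have hVn := VV_nonneg hs0 m k
      calc √(∑ i ∈ range (k / 2 + 1), (√(1 + (i : ℝ) / s) * ‖coeff i φ‖) ^ 2) *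
            √(∑ i ∈ range (k / 2 + 1), (un m m' (k - i) / √(1 + (i : ℝ) / s)) ^ 2)
          ≤ √(3 * T ^ 4) * √(4 * VV s m k) := by gcongr
        _ ≤ √(4 * T ^ 4) * √(4 * VV s m k) := by
            gcongr
            norm_num
        _ = 4 * T ^ 2 * √(VV s m k) := by
            rw [show (4 : ℝ) * T ^ 4 = (2 * T ^ 2) ^ 2 by ring, Real.sqrt_sq (by positivity),
              Real.sqrt_mul (by norm_num), show (4 : ℝ) = 2 ^ 2 by norm_num,
              Real.sqrt_sq (by norm_num)]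
            ring
    -- far part
    have e2 : ∑ i ∈ Ico (k / 2 + 1) (k + 1), ‖coeff i φ‖ * un m m' (k - i) ≤
        T ^ 2 * √(8 * s * E) := by
      refine (Real.sum_mul_le_sqrt_mul_sqrt _ _ _).trans ?_
      have f1 : ∑ i ∈ Ico (k / 2 + 1) (k + 1), ‖coeff i φ‖ ^ 2 ≤ 2 / k * (T ^ 4 * (2 * s)) := by
        calc ∑ i ∈ Ico (k / 2 + 1) (k + 1), ‖coeff i φ‖ ^ 2
            ≤ ∑ i ∈ Ico (k / 2 + 1) (k + 1), 2 / (k : ℝ) * (i * ‖coeff i φ‖ ^ 2) := by
              refine sum_le_sum fun i hi => ?_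
              rw [mem_Ico] at hi
              have h1 : (1 : ℝ) ≤ 2 / k * i := by
                rw [div_mul_eq_mul_div, le_div_iff₀ hk0, one_mul]
                have : k ≤ 2 * i := by omega
                exact_mod_cast this
              have h2 : 0 ≤ ‖coeff i φ‖ ^ 2 := by positivity
              nlinarith
          _ ≤ ∑ i ∈ range (k + 1), 2 / (k : ℝ) * (i * ‖coeff i φ‖ ^ 2) := by
              apply sum_le_sum_of_subset_of_nonneg
              · intro x; simp
              · intros; positivity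
          _ = 2 / k * WN k φ := by rw [WN, mul_sum]
          _ ≤ _ := by gcongr
      have f2 : ∑ i ∈ Ico (k / 2 + 1) (k + 1), un m m' (k - i) ^ 2 ≤ k / 2 * (4 * E) := by
        calc ∑ i ∈ Ico (k / 2 + 1) (k + 1), un m m' (k - i) ^ 2
            ≤ ∑ i ∈ Ico (k / 2 + 1) (k + 1),
              (k / 2 : ℝ) * (un m m' (k - i) ^ 2 / ((k - i : ℕ) : ℝ)) := by
              refine sum_le_sum fun i hi => un_sq_le_mul m m' k i (k / 2) ?_
              rw [mem_Ico] at hi
              rw [le_div_iff₀ (by norm_num)]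
              have : (k - i) * 2 ≤ k := by omega
              exact_mod_cast this
          _ ≤ ∑ i ∈ range (k + 1), (k / 2 : ℝ) * (un m m' (k - i) ^ 2 / ((k - i : ℕ) : ℝ)) := by
              apply sum_le_sum_of_subset_of_nonneg
              · intro x; simp
              · intros; positivity
          _ = (k / 2 : ℝ) * ∑ i ∈ range (k + 1), (un m m' (k - i) ^ 2 / ((k - i : ℕ) : ℝ)) := by
              rw [mul_sum]
          _ ≤ k / 2 * (2 * AA m k + 2 * AA m' k) := by
              gcongr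
              exact sum_un_le m m' k
          _ ≤ k / 2 * (4 * E) := by
              gcongr
              linarith
      calc √(∑ i ∈ Ico (k / 2 + 1) (k + 1), ‖coeff i φ‖ ^ 2) *
            √(∑ i ∈ Ico (k / 2 + 1) (k + 1), un m m' (k - i) ^ 2)
          ≤ √(2 / k * (T ^ 4 * (2 * s))) * √(k / 2 * (4 * E)) := by gcongr
        _ = √((T ^ 2) ^ 2 * (8 * s * E)) := by
            rw [← Real.sqrt_mul (by positivity)]
            congr 1
            field_simp
            ring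
        _ = T ^ 2 * √(8 * s * E) := by
            rw [Real.sqrt_mul (by positivity), Real.sqrt_sq (by positivity)]
    linarith
  linarith

end Pool.Agent.Helper79.LC
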