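import Pool.Agent.Helper79.LC.Prep

/-!
Counting the polynomials of small Mahler measure with no excess of low-frequency energy.
-/

open Finset

namespace Pool.Agent.Helper79.LC

lemma wn_sq_le (m : Multiset ℂ) (k : ℕ) : wn m k ^ 2 ≤ k * AA m k := by
  rcases Nat.eq_zero_or_pos k with h | h
  · subst h; rw [wn_zero]; simp
  · have hk : (0 : ℝ) < k := by exact_mod_cast h
    have h1 : wn m k ^ 2 / k ≤ AA m k := by
      rw [AA]
      exact single_le_sum (f := fun j : ℕ => wn m j ^ 2 / (j : ℝ)) (fun j _ => by positivity)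
        (mem_range.mpr (Nat.lt_succ_self k))
    rw [div_le_iff₀ hk] at h1
    linarith

lemma bad_count' {m : Multiset ℂ} {K n x : ℕ} (hx : 1 ≤ x) :
    (#((Ioc K n).filter fun k : ℕ => (k : ℝ) ≤ 4 * wn m k) : ℝ) ≤ x + 16 / x * AA m n := by
  have hx0 : (0 : ℝ) < x := by exact_mod_cast hx
  set T := (Ioc K n).filter fun k : ℕ => (k : ℝ) ≤ 4 * wn m k with hT
  have h1 : (#T : ℝ) ≤ ∑ k ∈ T, ((if k ≤ x then 1 else 0) + 16 / x * (wn m k ^ 2 / k)) := by
    rw [card_eq_sum_ones, Nat.cast_sum]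
    refine sum_le_sum fun k hk => ?_
    obtain ⟨hk1, hk2⟩ := mem_filter.mp hk
    rw [mem_Ioc] at hk1
    have hk0 : (0 : ℝ) < k := by
      have : 0 < k := by omega
      exact_mod_cast this
    split_ifs with h
    · have : 0 ≤ 16 / x * (wn m k ^ 2 / k) := by positivity
      push_cast; linarith
    · push_cast
      rw [zero_add, div_mul_div_comm, le_div_iff₀ (by positivity)]
      have h2 : (x : ℝ) ≤ k := by exact_mod_cast (not_le.mp h).le
      nlinarith [mul_le_mul hk2 hk2 hk0.le (mul_nonneg (by norm_num) (wn_nonneg m k))]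
  rw [sum_add_distrib] at h1
  have h2 : ∑ k ∈ T, (if k ≤ x then (1 : ℝ) else 0) ≤ x := by
    rw [← sum_filter, sum_const, nsmul_eq_mul, mul_one]
    have : #(T.filter fun k => k ≤ x) ≤ #(Icc 1 x) := by
      apply card_le_card
      intro k hk
      obtain ⟨hk1, hk2⟩ := mem_filter.mp hk
      have := (mem_filter.mp hk1).1
      rw [mem_Ioc] at this
      rw [mem_Icc]
      omega
    rw [Nat.card_Icc] at this
    exact_mod_cast (by omega : #(T.filter fun k => k ≤ x) ≤ x)
  have h3 : ∑ k ∈ T, 16 / x * (wn m k ^ 2 / k) ≤ 16 / x * AA m n := by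
    rw [← mul_sum, AA]
    gcongr
    intro k hk
    have := (mem_filter.mp hk).1
    rw [mem_Ioc] at this
    rw [mem_range]; omega
  linarith

theorem lo_final {n : ℕ} {δ : ℝ} (hn : 2 ≤ n) (hδn : 1 / n ≤ δ)
    (hδ0 : δ ≤ 1 / 14400) (F : Finset (Polynomial ℤ))
    (hF : ∀ f ∈ F, f.Monic ∧ Irreducible f ∧ f.natDegree = n ∧ MM f ≤ 1 + δ ∧
      ∀ κ, 1 ≤ κ → κ ≤ n → AA (rt f).val κ < max (κ / (2304 * δ)) (400 * n * δ)) :
    (#F : ℝ) ≤ Real.exp (921601 * (n * δ ^ 2 * Real.log (1 / δ)) + 640 * √n * Real.log n ^ 2) := by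
  classical
  have hn0 : (0 : ℝ) < n := by positivity
  have hn2 : (2 : ℝ) ≤ n := by exact_mod_cast hn
  have hδ : 0 < δ := lt_of_lt_of_le (by positivity) hδn
  have hδinv : 1 / δ ≤ n := by
    rw [div_le_iff₀ hδ]
    rw [div_le_iff₀ hn0] at hδn
    linarith
  set L : ℝ := Real.log n with hL
  have hL2 : 0.69 ≤ L := by
    have h1 := Real.log_two_gt_d9
    have h2 := Real.log_le_log (by norm_num) hn2
    rw [← hL] at h2
    linarith
  have hL0 : 0 < L := by linarith
  set l : ℝ := Real.log (1 / δ) with hl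
  have hl1 : 1 ≤ l := by
    rw [hl, Real.le_log_iff_exp_le (by positivity)]
    have := Real.exp_one_lt_d9
    rw [le_div_iff₀ hδ]; nlinarith
  set K : ℕ := ⌊921600 * (n * δ ^ 2)⌋₊ with hK
  have hKle : (K : ℝ) ≤ 921600 * (n * δ ^ 2) := Nat.floor_le (by positivity)
  have hKlt : 921600 * (n * δ ^ 2) < (K : ℝ) + 1 := Nat.lt_floor_add_one _
  set Z : ℝ := √(n * L) with hZ
  have hZ0 : 0 < Z := Real.sqrt_pos.mpr (by positivity)
  have hZ2 : Z ^ 2 = n * L := Real.sq_sqrt (by positivity)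
  have hZ1 : 1 ≤ Z := by
    apply Real.le_sqrt_of_sq_le
    nlinarith
  set x : ℕ := ⌈Z⌉₊ with hx
  have hxZ : Z ≤ x := Nat.le_ceil _
  have hxZ' : (x : ℝ) ≤ Z + 1 := (Nat.ceil_lt_add_one hZ0.le).le
  have hx1 : 1 ≤ x := by
    have : (0 : ℝ) < x := by linarith
    exact_mod_cast this
  have hx0 : (0 : ℝ) < x := by linarith
  set β : ℕ := ⌊130 * Z⌋₊ with hβ
  have hβle : (β : ℝ) ≤ 130 * Z := Nat.floor_le (by positivity)
  -- energy
  have hAE : ∀ f ∈ F, AA (rt f).val n ≤ 8 * n * L := by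
    intro f hf
    obtain ⟨h1, h2, h3, h4, _⟩ := hF f hf
    have h5 := AA_poly h1 h2 (by omega)
    rw [h3, ← hL] at h5
    refine h5.trans ?_
    have h6 : Real.log (MM f) ≤ δ :=
      (Real.log_le_sub_one_of_pos (by linarith [one_le_MM h1 h2])).trans (by linarith)
    have h7 : L + 2 * Real.log (MM f) + 2 ≤ 4 * L := by linarith
    calc 2 * (n : ℝ) * (L + 2 * Real.log (MM f) + 2) ≤ 2 * n * (4 * L) := by
          gcongr
      _ = _ := by ring
  have hsqη : 2 * √(3 * δ) + 3 * δ ≤ 1 / 4 := by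
    have : √(3 * δ) ≤ 1 / 9 := by
      rw [Real.sqrt_le_iff]
      refine ⟨by norm_num, by linarith⟩
    linarith
  -- branching
  have hbr : ∀ f ∈ F, ∀ g ∈ F, ∀ k, 1 ≤ k → k ≤ n → (∀ j, 1 ≤ j → j < k → ac n g j = ac n f j) →
      wn (rt g).val k ≤ wn (rt f).val k →
      (k : ℝ) * ((|ac n f k - ac n g k| : ℤ) : ℝ) ≤
        k / 4 + 2 * wn (rt f).val k +
          √(9 * δ) * √(2 * k * (AA (rt f).val k + AA (rt g).val k)) := by
    intro f hf g hg k hk1 hkn hj hV
    obtain ⟨f1, f2, f3, f4, f5⟩ := hF f hf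
    obtain ⟨g1, g2, g3, g4, g5⟩ := hF g hg
    rw [← norm_HH_sub f1 f2 g1 g2 f3 g3 hkn]
    have h1 := branchA (m := (rt f).val) (m' := (rt g).val) (η := 3 * δ) (by positivity)
      (by linarith) (by
        rw [mm_out_rt f1 f2]
        have := one_le_MM f1 f2
        nlinarith) (by
        rw [mm_out_rt g1 g2]
        have := one_le_MM g1 g2
        nlinarith) hk1 (top_HH f1 f2 g1 g2 f3 g3 hkn hj)
    rw [show 3 * (3 * δ) = 9 * δ by ring] at h1
    have h2 : (k : ℝ) * (2 * √(3 * δ) + 3 * δ) ≤ k * (1 / 4) := by gcongr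
    linarith
  -- low frequencies
  have hlow : ∀ f ∈ F, ∀ g ∈ F, ∀ k, 1 ≤ k → k ≤ n → k ≤ K →
      (∀ j, 1 ≤ j → j < k → ac n g j = ac n f j) →
      wn (rt g).val k ≤ wn (rt f).val k →
      |ac n f k - ac n g k| ≤ (⌊2.5 * √(400 * n * δ / k)⌋₊ : ℕ) := by
    intro f hf g hg k hk1 hkn hkK hj hV
    have h1 := hbr f hf g hg k hk1 hkn hj hV
    have hk0 : (0 : ℝ) < k := by exact_mod_cast hk1
    have hkK' : (k : ℝ) ≤ 921600 * (n * δ ^ 2) := le_trans (by exact_mod_cast hkK) hKle
    have hmax : max (k / (2304 * δ)) (400 * n * δ) = 400 * n * δ := by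
      apply max_eq_right
      rw [div_le_iff₀ (by positivity)]
      linarith
    have hAf : AA (rt f).val k ≤ 400 * n * δ := by
      have := (hF f hf).2.2.2.2 k hk1 hkn
      rw [hmax] at this; exact this.le
    have hAg : AA (rt g).val k ≤ 400 * n * δ := by
      have := (hF g hg).2.2.2.2 k hk1 hkn
      rw [hmax] at this; exact this.le
    set S : ℝ := √(400 * n * δ / k) with hS
    have hS2 : S ^ 2 = 400 * n * δ / k := Real.sq_sqrt (by positivity)
    have hS0 : 0 ≤ S := Real.sqrt_nonneg _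
    have hS1 : 2.5 ≤ S := by
      apply Real.le_sqrt_of_sq_le
      rw [le_div_iff₀ hk0]
      nlinarith
    have h2 : wn (rt f).val k ≤ k * S := by
      apply le_of_sq_le_sq _ (by positivity)
      rw [mul_pow, hS2]
      calc wn (rt f).val k ^ 2 ≤ k * AA (rt f).val k := wn_sq_le _ _
        _ ≤ k * (400 * n * δ) := by gcongr
        _ = _ := by field_simp
    have h3 : √(9 * δ) * √(2 * k * (AA (rt f).val k + AA (rt g).val k)) ≤ k * (S / 20) := by
      rw [← Real.sqrt_mul (by positivity)]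
      rw [Real.sqrt_le_iff]
      refine ⟨by positivity, ?_⟩
      rw [mul_pow, div_pow, hS2]
      calc 9 * δ * (2 * k * (AA (rt f).val k + AA (rt g).val k))
          ≤ 9 * δ * (2 * k * (400 * n * δ + 400 * n * δ)) := by gcongr
        _ = (14400 * δ) * (k * n * δ) := by ring
        _ ≤ 1 * (k * n * δ) := by
            gcongr
            linarith
        _ = _ := by field_simp; norm_num
    have h4 : (k : ℝ) * ((|ac n f k - ac n g k| : ℤ) : ℝ) ≤ k * (2.5 * S) := by nlinarith
    have h5 : ((|ac n f k - ac n g k| : ℤ) : ℝ) ≤ 2.5 * S := le_of_mul_le_mul_left h4 hk0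
    have h6 : |ac n f k - ac n g k| ≤ ⌊2.5 * S⌋ := Int.le_floor.mpr h5
    rwa [← Int.natCast_floor_eq_floor (by positivity)] at h6
  -- high frequencies
  have hhigh : ∀ f ∈ F, ∀ g ∈ F, ∀ k, 1 ≤ k → k ≤ n → K < k →
      (∀ j, 1 ≤ j → j < k → ac n g j = ac n f j) →
      wn (rt g).val k ≤ wn (rt f).val k →
      (k : ℝ) * ((|ac n f k - ac n g k| : ℤ) : ℝ) ≤ k / 4 + 2 * wn (rt f).val k + k / 8 := by
    intro f hf g hg k hk1 hkn hKk hj hV
    have h1 := hbr f hf g hg k hk1 hkn hj hV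
    have hk0 : (0 : ℝ) < k := by exact_mod_cast hk1
    have hkK' : 921600 * (n * δ ^ 2) ≤ k := by
      have : (K : ℝ) + 1 ≤ k := by exact_mod_cast hKk
      linarith
    have hmax : max (k / (2304 * δ)) (400 * n * δ) = k / (2304 * δ) := by
      apply max_eq_left
      rw [le_div_iff₀ (by positivity)]
      linarith
    have hAf : AA (rt f).val k ≤ k / (2304 * δ) := by
      have := (hF f hf).2.2.2.2 k hk1 hkn
      rw [hmax] at this; exact this.le
    have hAg : AA (rt g).val k ≤ k / (2304 * δ) := by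
      have := (hF g hg).2.2.2.2 k hk1 hkn
      rw [hmax] at this; exact this.le
    have h3 : √(9 * δ) * √(2 * k * (AA (rt f).val k + AA (rt g).val k)) ≤ k / 8 := by
      rw [← Real.sqrt_mul (by positivity)]
      rw [Real.sqrt_le_iff]
      refine ⟨by positivity, ?_⟩
      calc 9 * δ * (2 * k * (AA (rt f).val k + AA (rt g).val k))
          ≤ 9 * δ * (2 * k * (k / (2304 * δ) + k / (2304 * δ))) := by gcongr
        _ = _ := by field_simp; norm_num
    linarith
  have hB : ∀ f ∈ F, ∀ g ∈ F, ∀ k, 1 ≤ k → k ≤ n → K < k →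
      (∀ j, 1 ≤ j → j < k → ac n g j = ac n f j) →
      wn (rt g).val k ≤ wn (rt f).val k → |ac n f k - ac n g k| ≤ n := by
    intro f hf g hg k hk1 hkn hKk hj hV
    have h1 := hhigh f hf g hg k hk1 hkn hKk hj hV
    have hk0 : (0 : ℝ) < k := by exact_mod_cast hk1
    have hkK' : 921600 * (n * δ ^ 2) ≤ k := by
      have : (K : ℝ) + 1 ≤ k := by exact_mod_cast hKk
      linarith
    have hmax : max (k / (2304 * δ)) (400 * n * δ) = k / (2304 * δ) := by
      apply max_eq_left
      rw [le_div_iff₀ (by positivity)]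
      linarith
    have hAf : AA (rt f).val k ≤ k / (2304 * δ) := by
      have := (hF f hf).2.2.2.2 k hk1 hkn
      rw [hmax] at this; exact this.le
    have h2 : wn (rt f).val k ≤ k * (1 / (48 * δ)) := by
      apply le_of_sq_le_sq _ (by positivity)
      calc wn (rt f).val k ^ 2 ≤ k * AA (rt f).val k := wn_sq_le _ _
        _ ≤ k * (k / (2304 * δ)) := by gcongr
        _ ≤ k * (k / (2304 * (δ * δ))) := by
            gcongr
            nlinarith
        _ = _ := by field_simp; norm_num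
    have h4 : (k : ℝ) * ((|ac n f k - ac n g k| : ℤ) : ℝ) ≤ k * n := by
      have h5 : (1 : ℝ) ≤ 1 / δ := by
        rw [le_div_iff₀ hδ]; linarith
      have h6 : 1 / (48 * δ) = (1 / 48) * (1 / δ) := by
        field_simp
      rw [h6] at h2
      have h7 : (k : ℝ) * (1 / δ) ≤ k * n := by gcongr
      have h8 : (k : ℝ) * 1 ≤ k * (1 / δ) := by gcongr
      nlinarith
    have h5 : ((|ac n f k - ac n g k| : ℤ) : ℝ) ≤ n := le_of_mul_le_mul_left h4 hk0
    exact_mod_cast h5
  have hgood : ∀ f ∈ F, ∀ g ∈ F, ∀ k, 1 ≤ k → k ≤ n → K < k →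
      (∀ j, 1 ≤ j → j < k → ac n g j = ac n f j) →
      wn (rt g).val k ≤ wn (rt f).val k →
      k ∉ (Ioc K n).filter (fun k : ℕ => (k : ℝ) ≤ 4 * wn (rt f).val k) →
      ac n f k = ac n g k := by
    intro f hf g hg k hk1 hkn hKk hj hV hbad
    have h1 := hhigh f hf g hg k hk1 hkn hKk hj hV
    have hk0 : (0 : ℝ) < k := by exact_mod_cast hk1
    have h2 : 4 * wn (rt f).val k < k := by
      by_contra hc
      exact hbad (mem_filter.mpr ⟨mem_Ioc.mpr ⟨hKk, hkn⟩, not_lt.mp hc⟩)
    have h6 : (k : ℝ) * ((|ac n f k - ac n g k| : ℤ) : ℝ) < k * 1 := by linarith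
    have h7 : ((|ac n f k - ac n g k| : ℤ) : ℝ) < 1 := lt_of_mul_lt_mul_left h6 hk0.le
    have h8 : |ac n f k - ac n g k| < 1 := by exact_mod_cast h7
    have h9 := Int.abs_lt_one_iff.mp h8
    linarith
  have hbadc : ∀ f ∈ F, #((Ioc K n).filter
      (fun k : ℕ => (k : ℝ) ≤ 4 * wn (rt f).val k)) ≤ β := by
    intro f hf
    have h1 := bad_count' (m := (rt f).val) (K := K) (n := n) hx1
    rw [hβ]
    apply Nat.le_floor
    refine h1.trans ?_
    have h2 : 16 / (x : ℝ) * AA (rt f).val n ≤ 128 * Z := by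
      calc 16 / (x : ℝ) * AA (rt f).val n ≤ 16 / (x : ℝ) * (8 * n * L) := by
            gcongr
            exact hAE f hf
        _ = 128 * Z ^ 2 / x := by rw [hZ2]; ring
        _ ≤ 128 * Z := by
            rw [div_le_iff₀ hx0]
            nlinarith
    linarith
  have hcount := tree_count F (ac n) (fun f k => wn (rt f).val k) n K n β
    (fun k => ⌊2.5 * √(400 * n * δ / k)⌋₊)
    (by
      intro f hf g hg h
      obtain ⟨f1, f2, f3, _, _⟩ := hF f hf
      obtain ⟨g1, g2, g3, _, _⟩ := hF g hg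
      exact ac_inj f1 g1 f3 g3 h)
    hlow hB
    (fun f => (Ioc K n).filter (fun k : ℕ => (k : ℝ) ≤ 4 * wn (rt f).val k))
    hbadc hgood
  have hcount' : (#F : ℝ) ≤
      (∏ k ∈ range K, (2 * (⌊2.5 * √(400 * n * δ / (k + 1 : ℕ))⌋₊ : ℝ) + 1)) *
        (((n : ℝ) + 1) * (2 * n + 1)) ^ β := by
    exact_mod_cast hcount
  refine hcount'.trans ?_
  rw [Real.exp_add]
  have hP0 : 0 ≤ ∏ k ∈ range K, (2 * (⌊2.5 * √(400 * n * δ / (k + 1 : ℕ))⌋₊ : ℝ) + 1) :=
    prod_nonneg fun _ _ => by positivity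
  apply mul_le_mul _ _ (by positivity) (Real.exp_pos _).le
  · apply le_of_sq_le_sq _ (Real.exp_pos _).le
    rw [← prod_pow]
    calc ∏ k ∈ range K, (2 * (⌊2.5 * √(400 * n * δ / (k + 1 : ℕ))⌋₊ : ℝ) + 1) ^ 2
        ≤ ∏ k ∈ range K, (n : ℝ) / ((k + 1 : ℕ) : ℝ) := by
          refine prod_le_prod (fun _ _ => by positivity) fun k hk => ?_
          rw [mem_range] at hk
          have hk0 : (0 : ℝ) < ((k + 1 : ℕ) : ℝ) := by positivity
          have hkK : (((k + 1 : ℕ) : ℝ)) ≤ 921600 * (n * δ ^ 2) :=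
            le_trans (by exact_mod_cast hk) hKle
          set S : ℝ := √(400 * n * δ / (k + 1 : ℕ)) with hS
          have hS2 : S ^ 2 = 400 * n * δ / (k + 1 : ℕ) := Real.sq_sqrt (by positivity)
          have hS0 : 0 ≤ S := Real.sqrt_nonneg _
          have hS1 : 1 ≤ S := by
            apply Real.le_sqrt_of_sq_le
            rw [le_div_iff₀ hk0]
            nlinarith
          have h1 : (⌊2.5 * S⌋₊ : ℝ) ≤ 2.5 * S := Nat.floor_le (by positivity)
          calc (2 * (⌊2.5 * S⌋₊ : ℝ) + 1) ^ 2 ≤ (6 * S) ^ 2 := by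
                gcongr
                linarith
            _ = (14400 * δ) * (n / (k + 1 : ℕ)) := by rw [mul_pow, hS2]; ring
            _ ≤ 1 * (n / (k + 1 : ℕ)) := by
                gcongr
                linarith
            _ = _ := one_mul _
      _ = (1 / δ ^ 2) ^ K * ((n * δ ^ 2) ^ K / (K.factorial : ℝ)) := by
          rw [prod_div_distrib, prod_const, card_range, ← Nat.cast_prod,
            prod_range_add_one_eq_factorial, mul_pow, mul_div_assoc', ← mul_assoc,
            div_pow, one_pow, one_div, mul_comm (((δ ^ 2) ^ K)⁻¹), mul_assoc (_ ^ K),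
            inv_mul_cancel₀ (by positivity), mul_one]
      _ ≤ Real.exp (2 * l * K) * Real.exp (n * δ ^ 2) := by
          gcongr
          · apply le_of_eq
            rw [show 2 * l * K = K * (2 * l) by ring, Real.exp_nat_mul]
            congr 1
            rw [hl, show 2 * Real.log (1 / δ) = Real.log ((1 / δ) ^ 2) by
              rw [Real.log_pow]; norm_num, Real.exp_log (by positivity), div_pow, one_pow]
          · exact Real.pow_div_factorial_le_exp _ (by positivity) _
      _ = Real.exp (2 * l * K + n * δ ^ 2) := by rw [Real.exp_add]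
      _ ≤ Real.exp (921601 * (n * δ ^ 2 * l)) ^ 2 := by
          rw [← Real.exp_nat_mul]
          apply Real.exp_le_exp.mpr
          push_cast
          have hnd : 0 ≤ (n : ℝ) * δ ^ 2 := by positivity
          have h1 : 2 * l * K ≤ 2 * l * (921600 * (n * δ ^ 2)) := by gcongr
          nlinarith
  · have h1 : ((n : ℝ) + 1) * (2 * n + 1) ≤ n ^ 4 := by
      have h0 : (4 : ℝ) ≤ (n : ℝ) ^ 2 := by nlinarith
      have : 4 * (n : ℝ) ^ 2 ≤ n ^ 4 := by
        calc 4 * (n : ℝ) ^ 2 ≤ (n : ℝ) ^ 2 * (n : ℝ) ^ 2 := by gcongr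
          _ = (n : ℝ) ^ 4 := by ring
      nlinarith
    calc (((n : ℝ) + 1) * (2 * n + 1)) ^ β ≤ ((n : ℝ) ^ 4) ^ β := by gcongr
      _ = Real.exp (4 * L * β) := by
          rw [show 4 * L * β = ((4 * β : ℕ) : ℝ) * L by push_cast; ring, Real.exp_nat_mul, hL,
            Real.exp_log hn0, ← pow_mul]
      _ ≤ _ := by
          apply Real.exp_le_exp.mpr
          have h2 : Z ≤ √n * (1.21 * L) := by
            apply le_of_sq_le_sq _ (by positivity)
            rw [hZ2, mul_pow, Real.sq_sqrt hn0.le]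
            have : L ≤ (1.21 * L) ^ 2 := by nlinarith
            gcongr
          calc 4 * L * β ≤ 4 * L * (130 * (√n * (1.21 * L))) := by
                gcongr
                exact hβle.trans (by gcongr)
            _ ≤ _ := by
                have : 0 ≤ √n * L ^ 2 := by positivity
                nlinarith

end Pool.Agent.Helper79.LC
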