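import Mathlib

/-!
Truncated norms of power series and the factors `(1 - a x) / (1 - x / conj a)`.
-/

open PowerSeries Finset

namespace Pool.Agent.Helper79.LC

/-- The geometric series `1 / (1 - c x)`. -/
noncomputable def geo (c : ℂ) : ℂ⟦X⟧ := PowerSeries.mk fun n => c ^ n

lemma coeff_geo (c : ℂ) (n : ℕ) : coeff n (geo c) = c ^ n := by simp [geo]

lemma coeff_zero_lin (c : ℂ) (E : ℂ⟦X⟧) :
    coeff 0 ((1 - C c * X) * E) = coeff 0 E := by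
  have : (1 - C c * X) * E = E - C c * (X * E) := by ring
  rw [this, map_sub, coeff_C_mul, coeff_zero_X_mul]
  simp

lemma coeff_succ_lin (c : ℂ) (E : ℂ⟦X⟧) (n : ℕ) :
    coeff (n + 1) ((1 - C c * X) * E) = coeff (n + 1) E - c * coeff n E := by
  have : (1 - C c * X) * E = E - C c * (X * E) := by ring
  rw [this, map_sub, coeff_C_mul, coeff_succ_X_mul]

lemma lin_mul_geo (c : ℂ) : (1 - C c * X) * geo c = 1 := by
  ext n
  cases n with
  | zero => rw [coeff_zero_lin, coeff_geo]; simp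
  | succ n =>
    rw [coeff_succ_lin, coeff_geo, coeff_geo, coeff_one]
    simp [pow_succ, mul_comm]

/-- truncated square norm -/
noncomputable def NN (k : ℕ) (F : ℂ⟦X⟧) : ℝ := ∑ i ∈ range (k + 1), ‖coeff i F‖ ^ 2

/-- truncated weighted square norm -/
noncomputable def WN (k : ℕ) (F : ℂ⟦X⟧) : ℝ := ∑ i ∈ range (k + 1), (i : ℝ) * ‖coeff i F‖ ^ 2

lemma NN_nonneg (k : ℕ) (F : ℂ⟦X⟧) : 0 ≤ NN k F := sum_nonneg fun _ _ => by positivity

lemma WN_nonneg (k : ℕ) (F : ℂ⟦X⟧) : 0 ≤ WN k F := sum_nonneg fun _ _ => by positivity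

lemma key_id (a x y : ℂ) (ha : a ≠ 0) :
    ‖a‖ ^ 2 * ‖x - (starRingEnd ℂ a)⁻¹ * y‖ ^ 2 - ‖x - a * y‖ ^ 2
      = (‖a‖ ^ 2 - 1) * (‖x‖ ^ 2 - ‖y‖ ^ 2) := by
  have ha' : starRingEnd ℂ a ≠ 0 := by simpa using ha
  have h1 : ‖a‖ ^ 2 * ‖x - (starRingEnd ℂ a)⁻¹ * y‖ ^ 2 = ‖(starRingEnd ℂ a) * x - y‖ ^ 2 := by
    have : (starRingEnd ℂ a) * x - y = (starRingEnd ℂ a) * (x - (starRingEnd ℂ a)⁻¹ * y) := by
      field_simp
    rw [this, norm_mul, mul_pow, RCLike.norm_conj]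
  rw [h1]
  simp only [Complex.sq_norm, Complex.normSq_apply, Complex.sub_re, Complex.sub_im,
    Complex.mul_re, Complex.mul_im, Complex.conj_re, Complex.conj_im]
  ring

lemma NN_step (k : ℕ) (a : ℂ) (ha : a ≠ 0) (E : ℂ⟦X⟧) :
    ‖a‖ ^ 2 * NN k ((1 - C (starRingEnd ℂ a)⁻¹ * X) * E) - NN k ((1 - C a * X) * E)
      = (‖a‖ ^ 2 - 1) * ‖coeff k E‖ ^ 2 := by
  induction k with
  | zero =>
    simp only [NN, zero_add, range_one, sum_singleton, coeff_zero_lin]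
    ring
  | succ k ih =>
    have h1 : ∀ F : ℂ⟦X⟧, NN (k + 1) F = NN k F + ‖coeff (k + 1) F‖ ^ 2 := by
      intro F; rw [NN, sum_range_succ]; rfl
    rw [h1, h1, coeff_succ_lin, coeff_succ_lin]
    have := key_id a (coeff (k + 1) E) (coeff k E) ha
    linarith

lemma WN_step (k : ℕ) (a : ℂ) (ha : a ≠ 0) (E : ℂ⟦X⟧) :
    ‖a‖ ^ 2 * WN k ((1 - C (starRingEnd ℂ a)⁻¹ * X) * E) - WN k ((1 - C a * X) * E)
      = (‖a‖ ^ 2 - 1) * (k * ‖coeff k E‖ ^ 2 - ∑ i ∈ range k, ‖coeff i E‖ ^ 2) := by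
  induction k with
  | zero => simp [WN]
  | succ k ih =>
    have h1 : ∀ F : ℂ⟦X⟧, WN (k + 1) F = WN k F + ((k + 1 : ℕ) : ℝ) * ‖coeff (k + 1) F‖ ^ 2 := by
      intro F; rw [WN, sum_range_succ]; rfl
    rw [h1, h1, coeff_succ_lin, coeff_succ_lin, sum_range_succ]
    have := key_id a (coeff (k + 1) E) (coeff k E) ha
    push_cast
    linear_combination ih + ((k : ℝ) + 1) * this

/-- The factor `(1 - a x) / (1 - x / conj a)`. -/
noncomputable def bl (a : ℂ) : ℂ⟦X⟧ := (1 - C a * X) * geo (starRingEnd ℂ a)⁻¹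

/-- product of the factors -/
noncomputable def BQ (m : Multiset ℂ) : ℂ⟦X⟧ := (m.map bl).prod

lemma BQ_zero : BQ 0 = 1 := by simp [BQ]

lemma BQ_cons (a : ℂ) (m : Multiset ℂ) : BQ (a ::ₘ m) = bl a * BQ m := by simp [BQ]

lemma BQ_add (m m' : Multiset ℂ) : BQ (m + m') = BQ m * BQ m' := by simp [BQ]

/-- product of absolute values -/
noncomputable def mm (m : Multiset ℂ) : ℝ := (m.map fun a => ‖a‖).prod

lemma mm_cons (a : ℂ) (m : Multiset ℂ) : mm (a ::ₘ m) = ‖a‖ * mm m := by simp [mm]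

lemma mm_add (m m' : Multiset ℂ) : mm (m + m') = mm m * mm m' := by simp [mm]

lemma mm_pos (m : Multiset ℂ) (h : ∀ a ∈ m, 1 < ‖a‖) : 1 ≤ mm m := by
  induction m using Multiset.induction_on with
  | empty => simp [mm]
  | cons a m ih =>
    rw [mm_cons]
    have h1 := h a (by simp)
    have h2 := ih (fun b hb => h b (by simp [hb]))
    nlinarith

lemma NN_bl (k : ℕ) (a : ℂ) (ha : 1 < ‖a‖) (G : ℂ⟦X⟧) :
    NN k (bl a * G) ≤ ‖a‖ ^ 2 * NN k G := by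
  have ha0 : a ≠ 0 := by
    rintro rfl; simp at ha; linarith
  set E := geo (starRingEnd ℂ a)⁻¹ * G with hE
  have h1 : bl a * G = (1 - C a * X) * E := by rw [bl, hE, mul_assoc]
  have h2 : (1 - C (starRingEnd ℂ a)⁻¹ * X) * E = G := by
    rw [hE, ← mul_assoc, lin_mul_geo, one_mul]
  have h3 := NN_step k a ha0 E
  rw [h2, ← h1] at h3
  have : 0 ≤ (‖a‖ ^ 2 - 1) * ‖coeff k E‖ ^ 2 := by
    apply mul_nonneg _ (by positivity)
    nlinarith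
  linarith

lemma NN_BQ (k : ℕ) (m : Multiset ℂ) (hm : ∀ a ∈ m, 1 < ‖a‖) (G : ℂ⟦X⟧) :
    NN k (BQ m * G) ≤ mm m ^ 2 * NN k G := by
  induction m using Multiset.induction_on with
  | empty => simp [BQ_zero, mm]
  | cons a m ih =>
    have h1 := NN_bl k a (hm a (by simp)) (BQ m * G)
    have h2 := ih (fun b hb => hm b (by simp [hb]))
    rw [BQ_cons, mm_cons, mul_assoc, mul_pow]
    calc NN k (bl a * (BQ m * G)) ≤ ‖a‖ ^ 2 * NN k (BQ m * G) := h1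
      _ ≤ ‖a‖ ^ 2 * (mm m ^ 2 * NN k G) := by gcongr
      _ = _ := by ring

lemma NN_one (k : ℕ) : NN k (1 : ℂ⟦X⟧) = 1 := by
  rw [NN, sum_range_succ']
  simp [coeff_one]

lemma NN_BQ' (k : ℕ) (m : Multiset ℂ) (hm : ∀ a ∈ m, 1 < ‖a‖) : NN k (BQ m) ≤ mm m ^ 2 := by
  have := NN_BQ k m hm 1
  rwa [mul_one, NN_one, mul_one] at this

lemma NN_geo (k : ℕ) (c : ℂ) (hc : ‖c‖ < 1) : NN k (geo c) ≤ 1 / (1 - ‖c‖ ^ 2) := by
  have h0 : ‖c‖ ^ 2 < 1 := by nlinarith [norm_nonneg c]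
  have h1 : NN k (geo c) = ∑ i ∈ range (k + 1), (‖c‖ ^ 2) ^ i := by
    rw [NN]
    refine sum_congr rfl fun i _ => ?_
    rw [coeff_geo, norm_pow, ← pow_mul, ← pow_mul, mul_comm]
  rw [h1, one_div]
  have := (summable_geometric_of_lt_one (by positivity) h0).sum_le_tsum (range (k + 1))
    (fun i _ => by positivity)
  rwa [tsum_geometric_of_lt_one (by positivity) h0] at this

lemma WN_bl (k : ℕ) (a : ℂ) (ha : 1 < ‖a‖) (G : ℂ⟦X⟧) :
    WN k (bl a * G) ≤ ‖a‖ ^ 2 * WN k G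
      + (‖a‖ ^ 2 - 1) * NN k (geo (starRingEnd ℂ a)⁻¹ * G) := by
  have ha0 : a ≠ 0 := by
    rintro rfl; simp at ha; linarith
  set E := geo (starRingEnd ℂ a)⁻¹ * G with hE
  have h1 : bl a * G = (1 - C a * X) * E := by rw [bl, hE, mul_assoc]
  have h2 : (1 - C (starRingEnd ℂ a)⁻¹ * X) * E = G := by
    rw [hE, ← mul_assoc, lin_mul_geo, one_mul]
  have h3 := WN_step k a ha0 E
  rw [h2, ← h1] at h3
  have h4 : ∑ i ∈ range k, ‖coeff i E‖ ^ 2 ≤ NN k E := by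
    rw [NN, sum_range_succ]
    have : 0 ≤ ‖coeff k E‖ ^ 2 := by positivity
    linarith
  have h5 : 0 ≤ ‖a‖ ^ 2 - 1 := by nlinarith
  have h6 : (‖a‖ ^ 2 - 1) * (k * ‖coeff k E‖ ^ 2 - ∑ i ∈ range k, ‖coeff i E‖ ^ 2)
      ≥ - ((‖a‖ ^ 2 - 1) * NN k E) := by
    have : (k : ℝ) * ‖coeff k E‖ ^ 2 ≥ 0 := by positivity
    nlinarith
  linarith

lemma WN_BQ (k : ℕ) (m : Multiset ℂ) (hm : ∀ a ∈ m, 1 < ‖a‖) :
    WN k (BQ m) ≤ mm m ^ 2 * (Multiset.card m) := by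
  induction m using Multiset.induction_on with
  | empty =>
    have : WN k (1 : ℂ⟦X⟧) = 0 := by
      rw [WN]
      refine sum_eq_zero fun i _ => ?_
      rw [coeff_one]
      by_cases h : i = 0 <;> simp [h]
    simp [BQ_zero, this]
  | cons a m ih =>
    have hm' : ∀ b ∈ m, 1 < ‖b‖ := fun b hb => hm b (by simp [hb])
    have ha : 1 < ‖a‖ := hm a (by simp)
    have h1 := WN_bl k a ha (BQ m)
    have h2 := ih hm'
    have hc : ‖(starRingEnd ℂ a)⁻¹‖ < 1 := by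
      rw [norm_inv, RCLike.norm_conj]
      exact inv_lt_one_of_one_lt₀ ha
    have h3 : NN k (geo (starRingEnd ℂ a)⁻¹ * BQ m) ≤ mm m ^ 2 * (1 / (1 - (‖a‖ ^ 2)⁻¹)) := by
      rw [mul_comm]
      refine (NN_BQ k m hm' _).trans ?_
      gcongr
      refine (NN_geo k _ hc).trans (le_of_eq ?_)
      rw [norm_inv, RCLike.norm_conj, inv_pow]
    have h4 : 0 < ‖a‖ ^ 2 - 1 := by nlinarith
    have h5 : (‖a‖ ^ 2 - 1) * (mm m ^ 2 * (1 / (1 - (‖a‖ ^ 2)⁻¹))) = ‖a‖ ^ 2 * mm m ^ 2 := by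
      have : ‖a‖ ^ 2 ≠ 0 := by positivity
      field_simp
    have h6 : (‖a‖ ^ 2 - 1) * NN k (geo (starRingEnd ℂ a)⁻¹ * BQ m) ≤ ‖a‖ ^ 2 * mm m ^ 2 := by
      rw [← h5]; gcongr
    rw [BQ_cons, mm_cons, Multiset.card_cons]
    push_cast
    calc WN k (bl a * BQ m) ≤ ‖a‖ ^ 2 * (mm m ^ 2 * (Multiset.card m)) + ‖a‖ ^ 2 * mm m ^ 2 := by
          have : ‖a‖ ^ 2 * WN k (BQ m) ≤ ‖a‖ ^ 2 * (mm m ^ 2 * (Multiset.card m)) := by gcongr
          linarith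
      _ = _ := by ring

end Pool.Agent.Helper79.LC
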