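import Pool.Agent.Helper79.LC.Prep

/-!
Counting irreducible polynomials of bounded Mahler measure with few roots outside the unit disc.
-/

open Finset

namespace Pool.Agent.Helper79.LC

/-- Irreducible monic polynomials of degree `n`, Mahler measure at most `T` and at most `s` roots
outside the closed unit disc. -/
def famB (n : ℕ) (T : ℝ) (s : ℕ) : Set (Polynomial ℤ) :=
  {f | f.Monic ∧ Irreducible f ∧ f.natDegree = n ∧ MM f ≤ T ∧
    Multiset.card ((f.map (Int.castRingHom ℂ)).roots.filter fun a => 1 < ‖a‖) ≤ s}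

lemma finite_famB (n : ℕ) (T : ℝ) (hT : 0 ≤ T) (s : ℕ) : (famB n T s).Finite := by
  refine (finite_MM n T hT).subset ?_
  rintro f ⟨_, _, h1, h2, _⟩
  exact ⟨h1.le, h2⟩

theorem partB (T : ℝ) (hT : 1 ≤ T) : ∃ C : ℝ, 0 < C ∧ ∀ n s : ℕ, 2 ≤ n →
    ((famB n T s).ncard : ℝ) ≤ Real.exp (C * √((s + 1) * n) * (Real.log n) ^ 2) := by
  classical
  have hlT : 0 ≤ Real.log T := Real.log_nonneg hT
  have hT0 : 0 < T := by linarith
  have hT2 : 1 ≤ T ^ 2 := one_le_pow₀ hT
  have hT4 : 1 ≤ T ^ 4 := one_le_pow₀ hT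
  set cE : ℝ := 8 + 6 * Real.log T with hcE
  have hcE8 : 8 ≤ cE := by rw [hcE]; linarith
  set cK : ℝ := 1000 * T ^ 4 * cE with hcK
  have hcK0 : 8000 * T ^ 4 ≤ cK := by
    rw [hcK]
    nlinarith
  set C1 : ℝ := Real.log (50 * T ^ 2 * cE) with hC1
  have hC10 : 0 ≤ C1 := Real.log_nonneg (by nlinarith)
  have hcKpos : 0 < cK := by nlinarith
  refine ⟨(cK + 5) * (3 + 2 * C1), by positivity, ?_⟩
  intro n s hn
  have hn0 : (0 : ℝ) < n := by positivity
  have hn2 : (2 : ℝ) ≤ n := by exact_mod_cast hn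
  set L : ℝ := Real.log n with hL
  have hL2 : 0.69 ≤ L := by
    have h1 := Real.log_two_gt_d9
    have h2 := Real.log_le_log (by norm_num) hn2
    rw [← hL] at h2
    linarith
  have hL0 : 0 < L := by linarith
  have hLn : L ≤ n := (Real.log_le_sub_one_of_pos hn0).trans (by linarith)
  -- the number of outer roots
  set σn : ℕ := min s n + 1 with hσn
  set σ : ℝ := (σn : ℝ) with hσ
  have hσ1 : 1 ≤ σ := by
    rw [hσ]
    exact_mod_cast (show 1 ≤ σn by omega)
  have hσ0 : 0 < σ := by linarith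
  have hσn2 : σ ≤ 2 * n := by
    rw [hσ, hσn]; push_cast
    have : (min (s : ℝ) n) ≤ n := min_le_right _ _
    linarith
  have hσs : σ ≤ s + 1 := by
    rw [hσ, hσn]; push_cast
    have : (min (s : ℝ) n) ≤ s := min_le_left _ _
    linarith
  set R : ℝ := √(σ * n) * L with hR
  have hsq : √(σ * n) ^ 2 = σ * n := Real.sq_sqrt (by positivity)
  have hsqrt0 : 0 < √(σ * n) := Real.sqrt_pos.mpr (by positivity)
  have hsqσ : σ / 2 ≤ √(σ * n) := by
    apply Real.le_sqrt_of_sq_le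
    nlinarith
  have hsq1 : 1 ≤ √(σ * n) := by
    apply Real.le_sqrt_of_sq_le
    nlinarith
  have hR0 : 0 < R := by positivity
  have hRhalf : 1 / 2 ≤ R := by rw [hR]; nlinarith
  have hR2 : R ^ 2 = σ * n * L ^ 2 := by rw [hR, mul_pow, hsq]
  set X : ℝ := cK * R with hX
  have hX0 : 0 < X := by positivity
  set K : ℕ := ⌈X⌉₊ with hK
  set β : ℕ := ⌈R⌉₊ with hβ
  have hKX : X ≤ K := Nat.le_ceil X
  have hβR : R ≤ β := Nat.le_ceil R
  have hKX' : (K : ℝ) ≤ X + 1 := (Nat.ceil_lt_add_one hX0.le).le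
  have hβR' : (β : ℝ) ≤ R + 1 := (Nat.ceil_lt_add_one hR0.le).le
  set E : ℝ := cE * n * L with hE
  have hE0 : 0 < E := by positivity
  set B : ℕ := ⌈11 * T ^ 2 * cE * n ^ 2⌉₊ with hB
  have hBle : 11 * T ^ 2 * cE * n ^ 2 ≤ B := Nat.le_ceil _
  have hBle' : (B : ℝ) ≤ 11 * T ^ 2 * cE * n ^ 2 + 1 :=
    (Nat.ceil_lt_add_one (by positivity)).le
  -- the family
  set F : Finset (Polynomial ℤ) := (finite_famB n T hT0.le s).toFinset with hF
  have hmem : ∀ f ∈ F, f.Monic ∧ Irreducible f ∧ f.natDegree = n ∧ MM f ≤ T ∧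
    Multiset.card ((f.map (Int.castRingHom ℂ)).roots.filter fun a => 1 < ‖a‖) ≤ s := by
    intro f hf
    rw [hF, Set.Finite.mem_toFinset] at hf
    exact hf
  have hAE : ∀ f ∈ F, AA (rt f).val n ≤ E := by
    intro f hf
    obtain ⟨h1, h2, h3, h4, _⟩ := hmem f hf
    have h5 := AA_poly h1 h2 (by omega)
    rw [h3, ← hL] at h5
    refine h5.trans ?_
    have h6 : Real.log (MM f) ≤ Real.log T :=
      Real.log_le_log (by linarith [one_le_MM h1 h2]) h4
    rw [hE, hcE]
    have h7 : L + 2 * Real.log (MM f) + 2 ≤ (4 + 3 * Real.log T) * L := by nlinarith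
    calc 2 * (n : ℝ) * (L + 2 * Real.log (MM f) + 2) ≤ 2 * n * ((4 + 3 * Real.log T) * L) := by
          gcongr
      _ = _ := by ring
  have hout : ∀ f ∈ F, (Multiset.card (out (rt f).val) : ℝ) ≤ σ := by
    intro f hf
    obtain ⟨h1, h2, h3, h4, h5⟩ := hmem f hf
    have h6 : Multiset.card (out (rt f).val) ≤ σn := by
      have h7 : Multiset.card (out (rt f).val) ≤ s := by rw [card_out_rt h1 h2]; exact h5
      have h8 : Multiset.card (out (rt f).val) ≤ n := by
        rw [← h3, ← card_rt h1 h2]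
        exact Multiset.card_le_card (Multiset.filter_le _ _)
      omega
    rw [hσ]; exact_mod_cast h6
  have hbr : ∀ f ∈ F, ∀ g ∈ F, ∀ k, 1 ≤ k → k ≤ n → (∀ j, 1 ≤ j → j < k → ac n g j = ac n f j) →
      VV σ (rt g).val k ≤ VV σ (rt f).val k →
      (k : ℝ) * ((|ac n f k - ac n g k| : ℤ) : ℝ) ≤
        2 * T ^ 2 * √(σ * k) + T ^ 2 * √(8 * σ * E) + 4 * T ^ 2 * √(VV σ (rt f).val k) := by
    intro f hf g hg k hk1 hkn hj hV
    obtain ⟨f1, f2, f3, f4, f5⟩ := hmem f hf
    obtain ⟨g1, g2, g3, g4, g5⟩ := hmem g hg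
    rw [← norm_HH_sub f1 f2 g1 g2 f3 g3 hkn]
    refine branchB hT ?_ ?_ hσ1 (hout f hf) (hout g hg) hk1 ?_ ?_ hV
      (top_HH f1 f2 g1 g2 f3 g3 hkn hj)
    · rw [mm_out_rt f1 f2]; exact f4
    · rw [mm_out_rt g1 g2]; exact g4
    · exact (AA_mono _ hkn).trans (hAE f hf)
    · exact (AA_mono _ hkn).trans (hAE g hg)
  -- crude bound
  have hcrude : ∀ f ∈ F, ∀ g ∈ F, ∀ k, 1 ≤ k → k ≤ n →
      (∀ j, 1 ≤ j → j < k → ac n g j = ac n f j) →
      VV σ (rt g).val k ≤ VV σ (rt f).val k → |ac n f k - ac n g k| ≤ B := by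
    intro f hf g hg k hk1 hkn hj hV
    have h1 := hbr f hf g hg k hk1 hkn hj hV
    have hk1' : (1 : ℝ) ≤ k := by exact_mod_cast hk1
    have hkn' : (k : ℝ) ≤ n := by exact_mod_cast hkn
    have h2 : √(σ * k) ≤ 2 * n := by
      apply Real.sqrt_le_iff.mpr
      refine ⟨by positivity, ?_⟩
      calc σ * k ≤ 2 * n * n := by gcongr
        _ ≤ (2 * n) ^ 2 := by nlinarith
    have h3 : √(8 * σ * E) ≤ 4 * cE * n ^ 2 := by
      apply Real.sqrt_le_iff.mpr
      refine ⟨by positivity, ?_⟩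
      calc 8 * σ * E ≤ 8 * (2 * n) * (cE * n * n) := by rw [hE]; gcongr
        _ = 16 * (cE * 1) * (n ^ 3 * 1) := by ring
        _ ≤ 16 * (cE * cE) * (n ^ 3 * n) := by
            gcongr
            · linarith
            · linarith
        _ = _ := by ring
    have h4 : √(VV σ (rt f).val k) ≤ cE * n ^ 2 := by
      apply Real.sqrt_le_iff.mpr
      refine ⟨by positivity, ?_⟩
      calc VV σ (rt f).val k ≤ n * AA (rt f).val n := VV_le hσ0 hkn
        _ ≤ n * (cE * n * n) := by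
            have := hAE f hf
            rw [hE] at this
            gcongr
            refine this.trans ?_
            gcongr
        _ = (cE * 1) * (n ^ 3 * 1) := by ring
        _ ≤ (cE * cE) * (n ^ 3 * n) := by
            gcongr
            · linarith
            · linarith
        _ = _ := by ring
    have h5 : ((|ac n f k - ac n g k| : ℤ) : ℝ) ≤ k * ((|ac n f k - ac n g k| : ℤ) : ℝ) := by
      have : (0 : ℝ) ≤ ((|ac n f k - ac n g k| : ℤ) : ℝ) := by exact_mod_cast abs_nonneg _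
      nlinarith
    have h6 : ((|ac n f k - ac n g k| : ℤ) : ℝ) ≤ B := by
      refine h5.trans (h1.trans (le_trans ?_ hBle))
      calc 2 * T ^ 2 * √(σ * k) + T ^ 2 * √(8 * σ * E) + 4 * T ^ 2 * √(VV σ (rt f).val k)
          ≤ 2 * T ^ 2 * (2 * n) + T ^ 2 * (4 * cE * n ^ 2) + 4 * T ^ 2 * (cE * n ^ 2) := by gcongr
        _ ≤ 11 * T ^ 2 * cE * n ^ 2 := by
            have h7 : 4 * (n : ℝ) ≤ 3 * (cE * n ^ 2) := by
              have e1 : 8 * ((n : ℝ) * n) ≤ cE * n ^ 2 := by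
                rw [sq]; gcongr
              have e2 : 2 * (n : ℝ) ≤ n * n := by gcongr
              linarith
            have h8 := mul_le_mul_of_nonneg_left h7 (show 0 ≤ T ^ 2 by positivity)
            linarith
    exact_mod_cast h6
  -- good indices
  have hgood : ∀ f ∈ F, ∀ g ∈ F, ∀ k, 1 ≤ k → k ≤ n → K < k →
      (∀ j, 1 ≤ j → j < k → ac n g j = ac n f j) →
      VV σ (rt g).val k ≤ VV σ (rt f).val k →
      k ∉ (Ioc K n).filter (fun k : ℕ => (k : ℝ) ^ 2 ≤ (64 * T ^ 4) * VV σ (rt f).val k) →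
      ac n f k = ac n g k := by
    intro f hf g hg k hk1 hkn hKk hj hV hbad
    have h1 := hbr f hf g hg k hk1 hkn hj hV
    have hk0 : (0 : ℝ) < k := by positivity
    have hkX : X ≤ k := hKX.trans (by exact_mod_cast hKk.le)
    have h2 : 64 * T ^ 4 * VV σ (rt f).val k < (k : ℝ) ^ 2 := by
      by_contra hc
      exact hbad (mem_filter.mpr ⟨mem_Ioc.mpr ⟨hKk, hkn⟩, not_lt.mp hc⟩)
    have h3 : 8 * T ^ 2 * √(VV σ (rt f).val k) < k := by
      apply lt_of_pow_lt_pow_left₀ 2 hk0.le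
      rw [mul_pow, mul_pow, Real.sq_sqrt (VV_nonneg hσ0 _ _)]
      calc 8 ^ 2 * (T ^ 2) ^ 2 * VV σ (rt f).val k = 64 * T ^ 4 * VV σ (rt f).val k := by ring
        _ < _ := h2
    have h4 : 2 * T ^ 2 * √(σ * k) ≤ k / 4 := by
      have h5 : 64 * T ^ 4 * σ ≤ k := by
        refine le_trans ?_ hkX
        rw [hX, hR]
        calc 64 * T ^ 4 * σ ≤ (8000 * T ^ 4) * ((σ / 2) * 0.69) := by nlinarith
          _ ≤ cK * (√(σ * n) * L) := by gcongr
      have h6 : (2 * T ^ 2 * √(σ * k)) ^ 2 ≤ (k / 4) ^ 2 := by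
        rw [mul_pow, Real.sq_sqrt (by positivity)]
        nlinarith
      exact le_of_sq_le_sq h6 (by positivity)
    have h5 : T ^ 2 * √(8 * σ * E) ≤ k / 8 := by
      apply le_of_sq_le_sq _ (by positivity)
      rw [mul_pow, Real.sq_sqrt (by positivity)]
      have h6 : X ^ 2 ≤ (k : ℝ) ^ 2 := by gcongr
      have h7 : 64 * ((T ^ 2) ^ 2 * (8 * σ * E)) ≤ X ^ 2 := by
        rw [hX, mul_pow, hR2, hE]
        have h8 : 512 * T ^ 4 * cE ≤ cK ^ 2 * 0.69 := by
          rw [hcK]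
          have : (1000 * T ^ 4 * cE) ^ 2 * 0.69 = (690000 * (T ^ 4 * cE)) * (T ^ 4 * cE) := by ring
          rw [this]
          have h9 : 8 ≤ T ^ 4 * cE := by nlinarith
          nlinarith
        calc 64 * ((T ^ 2) ^ 2 * (8 * σ * (cE * n * L))) = (512 * T ^ 4 * cE) * (σ * n * L) := by
              ring
          _ ≤ (cK ^ 2 * 0.69) * (σ * n * L) := by gcongr
          _ ≤ (cK ^ 2 * L) * (σ * n * L) := by gcongr
          _ = _ := by ring
      have h8 : (k / 8 : ℝ) ^ 2 = k ^ 2 / 64 := by ring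
      rw [h8]
      linarith
    have h6 : (k : ℝ) * ((|ac n f k - ac n g k| : ℤ) : ℝ) < k * 1 := by
      have h9 : 4 * T ^ 2 * √(VV σ (rt f).val k) < k / 2 := by linarith
      linarith
    have h7 : ((|ac n f k - ac n g k| : ℤ) : ℝ) < 1 := lt_of_mul_lt_mul_left h6 hk0.le
    have h8 : |ac n f k - ac n g k| < 1 := by exact_mod_cast h7
    have h9 := Int.abs_lt_one_iff.mp h8
    linarith
  have hbadc : ∀ f ∈ F, #((Ioc K n).filter
      (fun k : ℕ => (k : ℝ) ^ 2 ≤ (64 * T ^ 4) * VV σ (rt f).val k)) ≤ β := by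
    intro f hf
    have h1 := bad_count (m := (rt f).val) hσ1 hX0 (show 0 < 64 * T ^ 4 by positivity)
      (show 1 ≤ n by omega) hKX
    have h2 : (64 * T ^ 4) / X * (σ * (2 + Real.log n)) * AA (rt f).val n ≤ R := by
      rw [← hL]
      calc (64 * T ^ 4) / X * (σ * (2 + L)) * AA (rt f).val n
          ≤ (64 * T ^ 4) / X * (σ * (4 * L)) * E := by
            have := hAE f hf
            have h3 : 2 + L ≤ 4 * L := by linarith
            have := AA_nonneg (rt f).val n
            gcongr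
        _ = (256 * T ^ 4 * cE) / (cK * R) * R ^ 2 := by
            rw [hR2, hE, hX]; ring
        _ = 0.256 * R := by
            rw [hcK]; field_simp; norm_num
        _ ≤ R := by linarith
    have h3 := (h1.trans h2).trans hβR
    exact_mod_cast h3
  have hcount := tree_count F (ac n) (fun f k => VV σ (rt f).val k) n K B β (fun _ => B)
    (by
      intro f hf g hg h
      obtain ⟨f1, f2, f3, _, _⟩ := hmem f hf
      obtain ⟨g1, g2, g3, _, _⟩ := hmem g hg
      exact ac_inj f1 g1 f3 g3 h)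
    (fun f hf g hg k h1 h2 _ h4 h5 => hcrude f hf g hg k h1 h2 h4 h5)
    (fun f hf g hg k h1 h2 _ h4 h5 => hcrude f hf g hg k h1 h2 h4 h5)
    (fun f => (Ioc K n).filter (fun k : ℕ => (k : ℝ) ^ 2 ≤ (64 * T ^ 4) * VV σ (rt f).val k))
    hbadc
    (fun f hf g hg k h1 h2 h3 h4 h5 h6 => hgood f hf g hg k h1 h2 h3 h4 h5 h6)
  have hncard : (famB n T s).ncard = #F := by
    rw [hF, Set.ncard_eq_toFinset_card _ (finite_famB n T hT0.le s)]
  rw [hncard]
  rw [prod_const, card_range] at hcount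
  have hc1 : ((#F : ℕ) : ℝ) ≤ (((n + 1) * (2 * B + 1) : ℕ) : ℝ) ^ (K + β) := by
    have h1 : #F ≤ ((n + 1) * (2 * B + 1)) ^ (K + β) := by
      refine hcount.trans ?_
      rw [pow_add]
      gcongr
      nlinarith
    exact_mod_cast h1
  refine hc1.trans ?_
  set Y : ℝ := (((n + 1) * (2 * B + 1) : ℕ) : ℝ) with hY
  have hY1 : 1 ≤ Y := by
    rw [hY]
    have : 1 ≤ (n + 1) * (2 * B + 1) := Nat.one_le_iff_ne_zero.mpr (by positivity)
    exact_mod_cast this
  have hYlog : Real.log Y ≤ (3 + 2 * C1) * L := by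
    have h1 : Y ≤ (50 * T ^ 2 * cE) * n ^ 3 := by
      rw [hY]; push_cast
      have h2 : 2 * (B : ℝ) + 1 ≤ 25 * T ^ 2 * cE * n ^ 2 := by
        have h3 : 1 ≤ T ^ 2 * cE * (n : ℝ) ^ 2 := by
          have : 1 ≤ T ^ 2 * cE := by nlinarith
          nlinarith
        nlinarith
      calc ((n : ℝ) + 1) * (2 * B + 1) ≤ (2 * n) * (25 * T ^ 2 * cE * n ^ 2) := by
            gcongr
            linarith
        _ = _ := by ring
    have h2 := Real.log_le_log (by linarith) h1
    rw [Real.log_mul (by positivity) (by positivity), Real.log_pow, ← hL, ← hC1] at h2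
    push_cast at h2
    nlinarith
  have hKβ : ((K + β : ℕ) : ℝ) ≤ (cK + 5) * R := by
    push_cast
    rw [hX] at hKX'
    linarith
  have hYlog0 : 0 ≤ Real.log Y := Real.log_nonneg hY1
  calc Y ^ (K + β) = Real.exp (((K + β : ℕ) : ℝ) * Real.log Y) := by
        rw [Real.exp_nat_mul, Real.exp_log (by linarith)]
    _ ≤ Real.exp ((cK + 5) * (3 + 2 * C1) * √((s + 1) * n) * L ^ 2) := by
        apply Real.exp_le_exp.mpr
        calc ((K + β : ℕ) : ℝ) * Real.log Y ≤ ((cK + 5) * R) * ((3 + 2 * C1) * L) := by gcongr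
          _ = (cK + 5) * (3 + 2 * C1) * √(σ * n) * L ^ 2 := by rw [hR]; ring
          _ ≤ _ := by gcongr

end Pool.Agent.Helper79.LC
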