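import Pool.Agent.Helper79.LC.Bounds

/-!
Top coefficients, and counting indices with large reflected power sums.
-/

open Finset

namespace Pool.Agent.Helper79.LC

/-- top coefficients -/
noncomputable def ac (n : ℕ) (f : Polynomial ℤ) (k : ℕ) : ℤ := f.coeff (n - k)

lemma ac_inj {n : ℕ} {f g : Polynomial ℤ} (hm : f.Monic) (hm' : g.Monic) (hf : f.natDegree = n)
    (hg : g.natDegree = n) (h : ∀ k, 1 ≤ k → k ≤ n → ac n f k = ac n g k) : f = g := by
  ext j
  rcases lt_trichotomy j n with hj | hj | hj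
  · have := h (n - j) (by omega) (by omega)
    simp only [ac] at this
    rwa [show n - (n - j) = j by omega] at this
  · subst hj
    have h1 : f.coeff j = 1 := by rw [← hf]; exact hm
    have h2 : g.coeff j = 1 := by rw [← hg]; exact hm'
    rw [h1, h2]
  · rw [Polynomial.coeff_eq_zero_of_natDegree_lt (by omega),
      Polynomial.coeff_eq_zero_of_natDegree_lt (by omega)]

lemma top_HH {n : ℕ} {f g : Polynomial ℤ} (hm : f.Monic) (hf : Irreducible f)
    (hm' : g.Monic) (hg : Irreducible g) (hfn : f.natDegree = n) (hgn : g.natDegree = n)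
    {k : ℕ} (hk : k ≤ n) (h : ∀ j, 1 ≤ j → j < k → ac n g j = ac n f j) :
    ∀ j < k, PowerSeries.coeff j (HH (rt f).val) = PowerSeries.coeff j (HH (rt g).val) := by
  intro j hj
  rcases Nat.eq_zero_or_pos j with h0 | h0
  · subst h0; rw [constantCoeff_HH, constantCoeff_HH]
  · rw [coeff_HH hm hf (by omega), coeff_HH hm' hg (by omega), hfn, hgn]
    have := h j h0 hj
    simp only [ac] at this
    rw [this]

lemma norm_HH_sub {n : ℕ} {f g : Polynomial ℤ} (hm : f.Monic) (hf : Irreducible f)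
    (hm' : g.Monic) (hg : Irreducible g) (hfn : f.natDegree = n) (hgn : g.natDegree = n)
    {k : ℕ} (hk : k ≤ n) :
    ‖PowerSeries.coeff k (HH (rt f).val) - PowerSeries.coeff k (HH (rt g).val)‖ =
      ((|ac n f k - ac n g k| : ℤ) : ℝ) := by
  rw [coeff_HH hm hf (by omega), coeff_HH hm' hg (by omega), hfn, hgn, ← Int.cast_sub,
    Complex.norm_intCast]
  simp [ac]

/-- swapping sums -/
lemma sum_swap (h g : ℕ → ℝ) (n : ℕ) (hh : ∀ i, 0 ≤ h i) (hg : ∀ i, 0 ≤ g i) :
    ∑ k ∈ range (n + 1), ∑ i ∈ range (k + 1), h i * g (k - i) ≤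
      (∑ i ∈ range (n + 1), h i) * ∑ j ∈ range (n + 1), g j := by
  rw [sum_comm' (t' := range (n + 1)) (s' := fun i => Ico i (n + 1))]
  · rw [sum_mul]
    refine sum_le_sum fun i hi => ?_
    rw [← mul_sum]
    refine mul_le_mul_of_nonneg_left ?_ (hh i)
    rw [sum_Ico_eq_sum_range]
    have h1 : ∀ j ∈ range (n + 1 - i), g (i + j - i) = g j := by
      intro j _; congr 1; omega
    rw [sum_congr rfl h1]
    apply sum_le_sum_of_subset_of_nonneg
    · intro x; simp; omega
    · intros; exact hg _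
  · intro x y
    simp only [mem_range, mem_Ico]
    omega

lemma sum_weights {σ : ℝ} (hσ : 1 ≤ σ) (n : ℕ) :
    ∑ i ∈ range (n + 1), 1 / (1 + (i : ℝ) / σ) ≤ σ * (2 + Real.log n) := by
  rw [sum_range_succ']
  have h1 : ∑ i ∈ range n, 1 / (1 + ((i + 1 : ℕ) : ℝ) / σ) ≤ σ * (1 + Real.log n) := by
    calc ∑ i ∈ range n, 1 / (1 + ((i + 1 : ℕ) : ℝ) / σ)
        ≤ ∑ i ∈ range n, σ * ((i : ℝ) + 1)⁻¹ := by
          refine sum_le_sum fun i _ => ?_
          rw [← div_eq_mul_inv, div_le_div_iff₀ (by positivity) (by positivity)]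
          push_cast
          have : σ * (1 + ((i : ℝ) + 1) / σ) = σ + (i + 1) := by field_simp
          rw [this]
          linarith
      _ = σ * ∑ i ∈ range n, ((i : ℝ) + 1)⁻¹ := by rw [mul_sum]
      _ ≤ σ * (1 + Real.log n) := by
          gcongr
          have := harmonic_le_one_add_log n
          rw [harmonic] at this
          push_cast at this
          exact this
  have h2 : (1 : ℝ) / (1 + ((0 : ℕ) : ℝ) / σ) = 1 := by simp
  rw [h2]
  linarith

/-- counting the bad indices -/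
lemma bad_count {m : Multiset ℂ} {σ X c : ℝ} (hσ : 1 ≤ σ) (hX : 0 < X) (hc : 0 < c) {n : ℕ}
    (hn : 1 ≤ n) {K : ℕ} (hK : X ≤ K) :
    (#((Ioc K n).filter fun k : ℕ => (k : ℝ) ^ 2 ≤ c * VV σ m k) : ℝ) ≤
      c / X * (σ * (2 + Real.log n)) * AA m n := by
  have hσ0 : 0 < σ := by linarith
  set T := (Ioc K n).filter fun k : ℕ => (k : ℝ) ^ 2 ≤ c * VV σ m k with hT
  have h1 : (#T : ℝ) ≤ ∑ k ∈ T, c * VV σ m k / (k : ℝ) ^ 2 := by
    rw [card_eq_sum_ones, Nat.cast_sum]
    refine sum_le_sum fun k hk => ?_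
    obtain ⟨hk1, hk2⟩ := mem_filter.mp hk
    rw [mem_Ioc] at hk1
    have : (0 : ℝ) < k := by
      have : 0 < k := by omega
      exact_mod_cast this
    rw [le_div_iff₀ (by positivity)]
    simpa using hk2
  have h2 : ∀ k ∈ T, c * VV σ m k / (k : ℝ) ^ 2 ≤
      c / X * ∑ i ∈ range (k + 1), 1 / (1 + (i : ℝ) / σ) *
        (wn m (k - i) ^ 2 / ((k - i : ℕ) : ℝ)) := by
    intro k hk
    have hk1 := (mem_filter.mp hk).1
    rw [mem_Ioc] at hk1
    have hk0 : (0 : ℝ) < k := by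
      have : 0 < k := by omega
      exact_mod_cast this
    have hkX : X ≤ k := by
      have : (K : ℝ) ≤ k := by exact_mod_cast hk1.1.le
      linarith
    suffices hmain : VV σ m k / (k : ℝ) ^ 2 ≤ (∑ i ∈ range (k + 1), 1 / (1 + (i : ℝ) / σ) *
        (wn m (k - i) ^ 2 / ((k - i : ℕ) : ℝ))) / X by
      calc c * VV σ m k / (k : ℝ) ^ 2 = c * (VV σ m k / (k : ℝ) ^ 2) := by ring
        _ ≤ c * ((∑ i ∈ range (k + 1), 1 / (1 + (i : ℝ) / σ) *
            (wn m (k - i) ^ 2 / ((k - i : ℕ) : ℝ))) / X) := mul_le_mul_of_nonneg_left hmain hc.le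
        _ = _ := by ring
    rw [VV, sum_div, sum_div]
    calc ∑ i ∈ range (k / 2 + 1), wn m (k - i) ^ 2 / (1 + (i : ℝ) / σ) / (k : ℝ) ^ 2
        ≤ ∑ i ∈ range (k / 2 + 1), 1 / (1 + (i : ℝ) / σ) *
          (wn m (k - i) ^ 2 / ((k - i : ℕ) : ℝ)) / X := by
          refine sum_le_sum fun i hi => ?_
          rw [mem_range] at hi
          have hp : 0 < k - i := by omega
          have hp' : (0 : ℝ) < ((k - i : ℕ) : ℝ) := by exact_mod_cast hp
          have hple : ((k - i : ℕ) : ℝ) ≤ k := by exact_mod_cast Nat.sub_le k i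
          rw [div_div, one_div_mul_eq_div, div_div, div_div]
          apply div_le_div_of_nonneg_left (by positivity) (by positivity)
          have h3 : ((k - i : ℕ) : ℝ) * X ≤ (k : ℝ) ^ 2 := by
            rw [sq]; gcongr
          have h4 : (0 : ℝ) < 1 + (i : ℝ) / σ := by positivity
          calc ((k - i : ℕ) : ℝ) * ((1 + (i : ℝ) / σ) * X)
              = (1 + (i : ℝ) / σ) * (((k - i : ℕ) : ℝ) * X) := by ring
            _ ≤ (1 + (i : ℝ) / σ) * (k : ℝ) ^ 2 := by gcongr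
      _ ≤ ∑ i ∈ range (k + 1), 1 / (1 + (i : ℝ) / σ) *
          (wn m (k - i) ^ 2 / ((k - i : ℕ) : ℝ)) / X := by
          apply sum_le_sum_of_subset_of_nonneg
          · intro x; simp; omega
          · intros; positivity
  have h3 : ∑ k ∈ T, c * VV σ m k / (k : ℝ) ^ 2 ≤ c / X *
      ∑ k ∈ range (n + 1), ∑ i ∈ range (k + 1), 1 / (1 + (i : ℝ) / σ) *
        (wn m (k - i) ^ 2 / ((k - i : ℕ) : ℝ)) := by
    refine (sum_le_sum h2).trans ?_
    rw [← mul_sum]
    gcongr
    intro x hx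
    have := (mem_filter.mp hx).1
    rw [mem_Ioc] at this
    rw [mem_range]; omega
  have h4 := sum_swap (fun i : ℕ => 1 / (1 + (i : ℝ) / σ)) (fun j : ℕ => wn m j ^ 2 / (j : ℝ)) n
    (fun i => by positivity) (fun j => by positivity)
  have h5 := sum_weights hσ n
  have hA := AA_nonneg m n
  calc (#T : ℝ) ≤ _ := h1
    _ ≤ _ := h3
    _ ≤ c / X * ((∑ i ∈ range (n + 1), 1 / (1 + (i : ℝ) / σ)) *
        ∑ j ∈ range (n + 1), wn m j ^ 2 / (j : ℝ)) := by gcongr
    _ ≤ c / X * ((σ * (2 + Real.log n)) * AA m n) := by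
        rw [AA] at *
        gcongr
    _ = _ := by ring

lemma VV_le {m : Multiset ℂ} {σ : ℝ} (hσ : 0 < σ) {k n : ℕ} (hk : k ≤ n) :
    VV σ m k ≤ n * AA m n := by
  rw [VV]
  calc ∑ i ∈ range (k / 2 + 1), wn m (k - i) ^ 2 / (1 + (i : ℝ) / σ)
      ≤ ∑ i ∈ range (k / 2 + 1), (n : ℝ) * (wn m (k - i) ^ 2 / ((k - i : ℕ) : ℝ)) := by
        refine sum_le_sum fun i hi => ?_
        have h1 : wn m (k - i) ^ 2 / (1 + (i : ℝ) / σ) ≤ wn m (k - i) ^ 2 := by
          apply div_le_self (by positivity)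
          have : 0 ≤ (i : ℝ) / σ := by positivity
          linarith
        refine h1.trans ?_
        rcases Nat.eq_zero_or_pos (k - i) with h | h
        · rw [h, wn_zero]; simp
        · have h2 : (0 : ℝ) < ((k - i : ℕ) : ℝ) := by exact_mod_cast h
          have h3 : ((k - i : ℕ) : ℝ) ≤ n := by exact_mod_cast (Nat.sub_le k i).trans hk
          rw [← mul_div_assoc, le_div_iff₀ h2, mul_comm]
          gcongr
    _ ≤ ∑ i ∈ range (k + 1), (n : ℝ) * (wn m (k - i) ^ 2 / ((k - i : ℕ) : ℝ)) := by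
        apply sum_le_sum_of_subset_of_nonneg
        · intro x; simp; omega
        · intros; positivity
    _ = n * AA m k := by
        rw [← mul_sum, sum_reflect (fun j => wn m j ^ 2 / (j : ℝ)) k, AA]
    _ ≤ n * AA m n := by
        gcongr
        exact AA_mono m hk

lemma finite_MM (n : ℕ) (T : ℝ) (hT : 0 ≤ T) :
    {f : Polynomial ℤ | f.natDegree ≤ n ∧ MM f ≤ T}.Finite :=
  Polynomial.finite_mahlerMeasure_le n ⟨T, hT⟩

end Pool.Agent.Helper79.LC
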