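import Pool.Agent.Helper79.LC.Energy

/-!
Root sets of monic irreducible integer polynomials.
-/

open Finset

namespace Pool.Agent.Helper79.LC

/-- the complex roots of an integer polynomial -/
noncomputable def rt (f : Polynomial ℤ) : Finset ℂ := (f.map (Int.castRingHom ℂ)).roots.toFinset

open Polynomial in
lemma HH_eq_reverse (m : Multiset ℂ) :
    HH m = (((m.map fun a => (X - C a : ℂ[X])).prod.reverse : ℂ[X]) : PowerSeries ℂ) := by
  induction m using Multiset.induction_on with
  | empty =>
    have : (1 : ℂ[X]).reverse = 1 := by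
      have := reverse_C (1 : ℂ)
      simpa using this
    simp [HH, this]
  | cons a m ih =>
    rw [HH_cons, ih, Multiset.map_cons, Multiset.prod_cons, reverse_mul_of_domain,
      Polynomial.coe_mul]
    congr 1
    ext k
    rw [Polynomial.coeff_coe, coeff_reverse, natDegree_X_sub_C]
    match k with
    | 0 => simp
    | 1 => simp [PowerSeries.coeff_one]
    | k + 2 =>
      rw [revAt_eq_self_of_lt (by omega)]
      simp [PowerSeries.coeff_one, Polynomial.coeff_X]

variable {f g : Polynomial ℤ}

lemma map_irr (hm : f.Monic) (hf : Irreducible f) :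
    Irreducible (f.map (Int.castRingHom ℚ)) :=
  (Polynomial.IsPrimitive.Int.irreducible_iff_irreducible_map_cast hm.isPrimitive).mp hf

lemma map_map_C (f : Polynomial ℤ) :
    (f.map (Int.castRingHom ℚ)).map (algebraMap ℚ ℂ) = f.map (Int.castRingHom ℂ) := by
  rw [Polynomial.map_map]
  congr 1

lemma sep (hm : f.Monic) (hf : Irreducible f) : (f.map (Int.castRingHom ℂ)).Separable := by
  rw [← map_map_C]
  exact (map_irr hm hf).separable.map

lemma nodup (hm : f.Monic) (hf : Irreducible f) : (f.map (Int.castRingHom ℂ)).roots.Nodup :=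
  Polynomial.nodup_roots (sep hm hf)

lemma rt_val (hm : f.Monic) (hf : Irreducible f) :
    (rt f).val = (f.map (Int.castRingHom ℂ)).roots := by
  rw [rt, Multiset.toFinset_val, (nodup hm hf).dedup]

lemma card_rt (hm : f.Monic) (hf : Irreducible f) : #(rt f) = f.natDegree := by
  have h1 : #(rt f) = Multiset.card (rt f).val := rfl
  rw [h1, rt_val hm hf, ← (IsAlgClosed.splits _).natDegree_eq_card_roots, hm.natDegree_map]

lemma coeff_HH (hm : f.Monic) (hf : Irreducible f) {k : ℕ} (hk : k ≤ f.natDegree) :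
    PowerSeries.coeff k (HH (rt f).val) = ((f.coeff (f.natDegree - k) : ℤ) : ℂ) := by
  rw [rt_val hm hf, HH_eq_reverse,
    ← (IsAlgClosed.splits _).eq_prod_roots_of_monic (hm.map _), Polynomial.coeff_coe,
    Polynomial.coeff_reverse, hm.natDegree_map, Polynomial.revAt_le hk, Polynomial.coeff_map]
  simp

lemma one_le_of_int {z : ℤ} {w : ℂ} (h : (z : ℂ) = w) (hw : w ≠ 0) : 1 ≤ ‖w‖ := by
  rw [← h, Complex.norm_intCast]
  have : z ≠ 0 := by rintro rfl; apply hw; rw [← h]; simp
  exact_mod_cast Int.one_le_abs this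

lemma prod_roots_eval (hm : f.Monic) (hf : Irreducible f) (G : Polynomial ℤ)
    (hco : IsCoprime (f.map (Int.castRingHom ℚ)) (G.map (Int.castRingHom ℚ))) :
    1 ≤ ∏ a ∈ rt f, ‖(G.map (Int.castRingHom ℂ)).eval a‖ := by
  have h1 := Polynomial.resultant_eq_prod_eval (f.map (Int.castRingHom ℂ))
    (G.map (Int.castRingHom ℂ)) G.natDegree (Polynomial.natDegree_map_le) (IsAlgClosed.splits _)
  rw [(hm.map _).leadingCoeff, one_pow, one_mul, hm.natDegree_map, Polynomial.resultant_map_map]
    at h1
  have h2 : f.resultant G f.natDegree G.natDegree ≠ 0 := by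
    have h3 := Polynomial.resultant_ne_zero _ _ hco
    have h4 : (f.map (Int.castRingHom ℚ)).natDegree = f.natDegree := hm.natDegree_map _
    have h5 : (G.map (Int.castRingHom ℚ)).natDegree = G.natDegree :=
      Polynomial.natDegree_map_eq_of_injective (RingHom.injective_int _) _
    rw [h4, h5, Polynomial.resultant_map_map] at h3
    intro h; apply h3; rw [h]; simp
  have h6 : ∏ a ∈ rt f, ‖(G.map (Int.castRingHom ℂ)).eval a‖ =
      ‖(Multiset.map (fun x => Polynomial.eval x (G.map (Int.castRingHom ℂ)))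
        (f.map (Int.castRingHom ℂ)).roots).prod‖ := by
    rw [← norm_prod, Finset.prod, rt_val hm hf]
  rw [h6]
  apply one_le_of_int h1
  rw [← h1]
  simpa using h2

lemma coprime_of_ne (hm : f.Monic) (hf : Irreducible f) (hm' : g.Monic) (hg : Irreducible g)
    (hne : f ≠ g) : IsCoprime (f.map (Int.castRingHom ℚ)) (g.map (Int.castRingHom ℚ)) := by
  rw [(map_irr hm hf).coprime_iff_not_dvd]
  intro hd
  have h1 : Associated (f.map (Int.castRingHom ℚ)) (g.map (Int.castRingHom ℚ)) :=
    (map_irr hm hf).associated_of_dvd (map_irr hm' hg) hd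
  have h2 := Polynomial.eq_of_monic_of_associated (hm.map _) (hm'.map _) h1
  exact hne (Polynomial.map_injective _ (RingHom.injective_int _) h2)

lemma res_ge (hm : f.Monic) (hf : Irreducible f) (hm' : g.Monic) (hg : Irreducible g)
    (hne : f ≠ g) : 1 ≤ ∏ a ∈ rt f, ∏ b ∈ rt g, ‖a - b‖ := by
  have h1 := prod_roots_eval hm hf g (coprime_of_ne hm hf hm' hg hne)
  refine h1.trans (le_of_eq (prod_congr rfl fun a _ => ?_))
  rw [(IsAlgClosed.splits (g.map (Int.castRingHom ℂ))).eval_eq_prod_roots_of_monic (hm'.map _),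
    ← norm_prod, Finset.prod, rt_val hm' hg]

lemma rt_ne (hm : f.Monic) (hf : Irreducible f) (hm' : g.Monic) (hg : Irreducible g)
    (hne : f ≠ g) : ∀ a ∈ rt f, ∀ b ∈ rt g, a ≠ b := by
  intro a ha b hb hab
  have h1 := res_ge hm hf hm' hg hne
  have h2 : ∏ a ∈ rt f, ∏ b ∈ rt g, ‖a - b‖ = 0 := by
    apply prod_eq_zero ha
    apply prod_eq_zero hb
    rw [hab, sub_self, norm_zero]
  linarith

lemma disc_ge (hm : f.Monic) (hf : Irreducible f) :
    1 ≤ ∏ a ∈ rt f, ∏ b ∈ (rt f).erase a, ‖a - b‖ := by
  have hco : IsCoprime (f.map (Int.castRingHom ℚ))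
      ((Polynomial.derivative f).map (Int.castRingHom ℚ)) := by
    rw [← Polynomial.derivative_map]
    exact (map_irr hm hf).separable
  have h1 := prod_roots_eval hm hf (Polynomial.derivative f) hco
  refine h1.trans (le_of_eq (prod_congr rfl fun a ha => ?_))
  have ha' : a ∈ (f.map (Int.castRingHom ℂ)).roots := Multiset.mem_toFinset.mp ha
  rw [← Polynomial.derivative_map, (IsAlgClosed.splits _).eval_root_derivative (hm.map _) ha',
    ← norm_prod, Finset.prod, Finset.erase_val, rt_val hm hf]

/-- Mahler measure -/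
noncomputable def MM (f : Polynomial ℤ) : ℝ := (f.map (Int.castRingHom ℂ)).mahlerMeasure

lemma MM_eq (hm : f.Monic) (hf : Irreducible f) : MM f = ∏ a ∈ rt f, max 1 ‖a‖ := by
  rw [MM, Polynomial.mahlerMeasure_eq_leadingCoeff_mul_prod_roots, (hm.map _).leadingCoeff,
    norm_one, one_mul, Finset.prod, rt_val hm hf]

lemma LM_eq (hm : f.Monic) (hf : Irreducible f) : LM (rt f) = Real.log (MM f) := by
  rw [MM_eq hm hf, Real.log_prod, LM]
  intro a _
  positivity

lemma mm_out (m : Multiset ℂ) : mm (out m) = (m.map fun a => max 1 ‖a‖).prod := by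
  induction m using Multiset.induction_on with
  | empty => simp [mm, out]
  | cons a m ih =>
    rw [Multiset.map_cons, Multiset.prod_cons, ← ih]
    by_cases h : 1 < ‖a‖
    · have h1 : out (a ::ₘ m) = a ::ₘ out m := by simp [out, h]
      rw [h1, mm_cons, max_eq_right h.le]
    · have h1 : out (a ::ₘ m) = out m := by simp [out, h]
      rw [h1, max_eq_left (not_lt.mp h), one_mul]

lemma mm_out_rt (hm : f.Monic) (hf : Irreducible f) : mm (out (rt f).val) = MM f := by
  rw [mm_out, MM_eq hm hf]
  rfl

lemma card_out_rt (hm : f.Monic) (hf : Irreducible f) :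
    Multiset.card (out (rt f).val) =
      Multiset.card ((f.map (Int.castRingHom ℂ)).roots.filter fun a => 1 < ‖a‖) := by
  rw [rt_val hm hf, out]

lemma one_le_MM (hm : f.Monic) (hf : Irreducible f) : 1 ≤ MM f := by
  rw [← mm_out_rt hm hf]
  exact mm_pos _ (out_gt _)

end Pool.Agent.Helper79.LC
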